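import Mathlib

/-!
# Automatic functions
-/

namespace Pool.Agent.Q27.LT

/-- The convolution of two words: the word of length `max |u| |v|` whose letter with the number `k`
is the pair of the letters of `u` and `v` with the number `k`, the padding symbol `none` being used
once a word has ended. -/
def conv {A B : Type} (u : List A) (v : List B) : List (Option A × Option B) :=
  (List.range (max u.length v.length)).map (fun k => (u[k]?, v[k]?))

/-- The function `f` on words is automatic: the convolutions of `u` and `f u` form a regular
language. -/
def Automatic {A B : Type} (f : List A → List B) : Prop :=
  Language.IsRegular ({w | ∃ u : List A, w = conv u (f u)} : Language (Option A × Option B))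

end Pool.Agent.Q27.LT
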