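import Pool.Agent.Q27.LT.Basic
import Pool.Agent.Q27.LT.Conv

/-!
# Sweeps are automatic functions: statements
-/

namespace Pool.Agent.Q27.LT

/-- **The graph of a length preserving sweep is regular.**

Proof. Induction on `LP F`. `left f o q`: a deterministic automaton with states `Option Q` (`none` is
a sink) that runs `f` on the first components and checks that the second components are the
outputs; so the word `w` is accepted iff `w.map Prod.snd = lrun f o q (w.map Prod.fst)`. `right f o q`:
the reversed language is accepted by the automaton that runs `f` from `q`
(`Language.IsRegular.reverse`, `Language.IsRegular.of_reverse` in Mathlib): the reverse of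
`(rrun f o q l).2` is `lrun f o q l.reverse` (prove `rrun` on `l ++ [a]` or `lrun` on `l ++ [a]`).
`comp F G`: both languages are accepted by automata `M₁`, `M₂`; the nondeterministic automaton with
states pairs, transition on `(a, c)`: for some `b : B` (`B` finite) `M₁` reads `(a, b)` and `M₂` reads
`(b, c)`; it accepts `w` iff there is `v : List B` of the same length with `zip (w.map fst) v` and
`zip v (w.map snd)` accepted, i.e. `v = F (w.map fst)` and `w.map snd = G v` (use `LP.length`).
(Alternatively use the Myhill-Nerode theorem of Mathlib.) -/
def S_graph : Prop := ∀ (A B : Type) (_ : Finite A) (_ : Finite B) (F : List A → List B), LP F →
  Language.IsRegular ({w | w.map Prod.snd = F (w.map Prod.fst)} : Language (A × B))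

/-- the padded word -/
def pad {A : Type} (k : ℕ) (x : List A) : List (Option A) := x.map some ++ List.replicate k none

/-- **Sweeps as length preserving sweeps of padded words.**

Proof. Induction on `Sweep F`. `lp`: induction on `LP F`, with `K = 0`: `lrun f o q` becomes the
transducer over `Option A` that copies `none` (without change of the state) and does `f`, `o` on
`some a`; the same for `rrun`; composition. `tail f q t` (`A = B`), with `K = 1`: three passes. A
pass from the right marks the last letter of the word (the letter `some a` whose right neighbour is
`none` or which is the last letter at all; if there is at least one `none`, its right neighbour is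
`none`): `some a ↦ (some a, last?)`. A pass from the left runs `f`; after reading `some a` it knows
the state `q'` after the letter; at the marked last letter: if `t q' = pop` write `none`, otherwise
copy; at the first `none` (the previous letter was `some`, or it is the first letter of the word and
the state is `q`): if `t q' = push a` write `some a`; otherwise copy. For the empty word `x = []`:
`tailop` gives `(t q).run []`, i.e. `[a]` for `push a` and `[]` otherwise: the first letter `none` is
replaced by `some a` if `t q = push a`. `comp F G`: `K = K_F + K_G`: for `k ≥ K_F + K_G` we have
`F' (pad k x) = pad k' (F x)` with `k + x.length = k' + (F x).length`, and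
`(F x).length ≤ x.length + K_F` (include this in the induction), so `k' ≥ K_G`. -/
def S_pad : Prop := ∀ (A B : Type) (_ : Finite A) (_ : Finite B) (F : List A → List B), Sweep F →
  ∃ (K : ℕ) (F' : List (Option A) → List (Option B)), LP F' ∧
    (∀ x, (F x).length ≤ x.length + K) ∧
    ∀ (x : List A) (k : ℕ), K ≤ k → F' (pad k x) = pad (k + x.length - (F x).length) (F x)

/-- **Sweeps are automatic.**

Proof. With `K`, `F'` from `S_pad` and `A' = Option A`, `B' = Option B` let `L₁` be the regular
language of `S_graph` for `F'`, and `L₂` the set of the `w ∈ L₁` such that `w.map Prod.fst` is of the
form `pad k x` with `k ≥ K` (an intersection of two regular languages; write the automaton, or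
avoid it as follows: fix `k = K` and use the automaton with states `0, …, K + 1` and a sink). Let `L₃`
be the set of the words `w` such that `w ++ replicate j (none, none) ∈ L₂` for some `j`, and such that
the last letter of `w` (if any) is not `(none, none)`. `L₃` is regular: for an automaton `M` of `L₂`
change the set of accepting states to the states from which an accepting state can be reached by
reading letters `(none, none)`, and add a flag for the last letter. Finally `w ∈ L₃` iff
`w = conv u (F u)` for some `u`: if `w = conv u (F u)`, then for `k = K + (F u).length` the word
`w ++ replicate j (none, none)` with `w.length + j = u.length + k` has first components `pad k u` and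
second components `pad _ (F u) = F' (pad k u)`, and the last letter of `conv u (F u)` is not
`(none, none)`. Conversely, if `w ++ replicate j (none, none)` has first components `pad k u` and
second components `F' (pad k u) = pad _ (F u)`, then `w` and `conv u (F u)` are equal up to letters
`(none, none)` at the end, and neither ends with such a letter. -/
def S_auto : Prop := ∀ (A B : Type) (_ : Finite A) (_ : Finite B) (F : List A → List B), Sweep F →
  Automatic F

end Pool.Agent.Q27.LT
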