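import Mathlib

/-!
# Sweeps

Words, letter-to-letter transducers running from the left or from the right, operations at the
right end, and the calculus of tracks computable by length preserving sweeps.
-/

namespace Pool.Agent.Q27.LT

/-- the word of length `n` whose letters are `x 0, x 1, …, x (n-1)` -/
def word {A : Type} : ℕ → (ℕ → A) → List A
  | 0, _ => []
  | n + 1, x => x 0 :: word n (fun j => x (j + 1))

@[simp] theorem word_length {A : Type} (n : ℕ) (x : ℕ → A) : (word n x).length = n := by
  induction n generalizing x with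
  | zero => rfl
  | succ n ih => simp [word, ih]

theorem word_getElem? {A : Type} (n : ℕ) (x : ℕ → A) (j : ℕ) :
    (word n x)[j]? = if j < n then some (x j) else none := by
  induction n generalizing x j with
  | zero => simp [word]
  | succ n ih =>
    cases j with
    | zero => simp [word]
    | succ j => simp [word, ih]

theorem word_congr {A : Type} {n : ℕ} {x y : ℕ → A} (h : ∀ j < n, x j = y j) :
    word n x = word n y := by
  induction n generalizing x y with
  | zero => rfl
  | succ n ih =>
    simp only [word]
    rw [h 0 (by omega), ih (fun j hj => h (j + 1) (by omega))]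

theorem word_succ' {A : Type} (n : ℕ) (x : ℕ → A) : word (n + 1) x = word n x ++ [x n] := by
  induction n generalizing x with
  | zero => rfl
  | succ n ih =>
    have h1 := ih (fun j => x (j + 1))
    show x 0 :: word (n + 1) (fun j => x (j + 1)) = x 0 :: word n (fun j => x (j + 1)) ++ [x (n + 1)]
    rw [h1]; rfl

theorem word_inj {A : Type} {n m : ℕ} {x y : ℕ → A} (h : word n x = word m y) :
    n = m ∧ ∀ j < n, x j = y j := by
  have h1 : n = m := by simpa using congrArg List.length h
  subst h1
  refine ⟨rfl, fun j hj => ?_⟩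
  have h2 : (word n x)[j]? = (word n y)[j]? := by rw [h]
  rw [word_getElem?, word_getElem?, if_pos hj, if_pos hj] at h2
  exact Option.some.inj h2

theorem word_map {A B : Type} (g : A → B) (n : ℕ) (x : ℕ → A) :
    (word n x).map g = word n (fun j => g (x j)) := by
  induction n generalizing x with
  | zero => rfl
  | succ n ih => simp [word, ih]

/-- left-to-right letter transducer -/
def lrun {A B Q : Type} (f : Q → A → Q) (o : Q → A → B) : Q → List A → List B
  | _, [] => []
  | q, a :: l => o q a :: lrun f o (f q a) l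

/-- right-to-left letter transducer: final state and output -/
def rrun {A B Q : Type} (f : Q → A → Q) (o : Q → A → B) (q0 : Q) : List A → Q × List B
  | [] => (q0, [])
  | a :: l => (f (rrun f o q0 l).1 a, o (rrun f o q0 l).1 a :: (rrun f o q0 l).2)

/-- what to do at the right end of the word -/
inductive Act (A : Type) where
  | keep : Act A
  | push : A → Act A
  | pop : Act A

/-- apply an action at the right end -/
def Act.run {A : Type} : Act A → List A → List A
  | .keep, l => l
  | .push a, l => l ++ [a]
  | .pop, l => l.dropLast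

/-- change at the right end, depending on the state of an automaton that has read the word -/
def tailop {A Q : Type} (f : Q → A → Q) (q0 : Q) (t : Q → Act A) (x : List A) : List A :=
  (t (x.foldl f q0)).run x

/-- length preserving sweeps -/
inductive LP : ∀ {A B : Type}, (List A → List B) → Prop
  | left {A B Q : Type} [Finite Q] (f : Q → A → Q) (o : Q → A → B) (q : Q) : LP (lrun f o q)
  | right {A B Q : Type} [Finite Q] (f : Q → A → Q) (o : Q → A → B) (q : Q) :
      LP (fun x => (rrun f o q x).2)
  | comp {A B C : Type} [Finite B] {F : List A → List B} {G : List B → List C} :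
      LP F → LP G → LP (fun x => G (F x))

/-- sweeps -/
inductive Sweep : ∀ {A B : Type}, (List A → List B) → Prop
  | lp {A B : Type} {F : List A → List B} : LP F → Sweep F
  | tail {A Q : Type} [Finite Q] (f : Q → A → Q) (q : Q) (t : Q → Act A) : Sweep (tailop f q t)
  | comp {A B C : Type} [Finite B] {F : List A → List B} {G : List B → List C} :
      Sweep F → Sweep G → Sweep (fun x => G (F x))

theorem lrun_length {A B Q : Type} (f : Q → A → Q) (o : Q → A → B) (q : Q) (l : List A) :
    (lrun f o q l).length = l.length := by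
  induction l generalizing q with
  | nil => rfl
  | cons a l ih => simp [lrun, ih]

theorem rrun_length {A B Q : Type} (f : Q → A → Q) (o : Q → A → B) (q : Q) (l : List A) :
    (rrun f o q l).2.length = l.length := by
  induction l with
  | nil => rfl
  | cons a l ih => simp [rrun, ih]

theorem LP.length {A B : Type} {F : List A → List B} (h : LP F) (l : List A) :
    (F l).length = l.length := by
  induction h with
  | left f o q => exact lrun_length f o q l
  | right f o q => exact rrun_length f o q l
  | comp _ _ h1 h2 => rw [h2, h1]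

/-- sweeps can carry a second track along -/
theorem LP.carry {A B : Type} {F : List A → List B} (h : LP F) (C : Type) [Finite C] :
    ∃ G : List (C × A) → List (C × B), LP G ∧
      ∀ x, (G x).map Prod.fst = x.map Prod.fst ∧ (G x).map Prod.snd = F (x.map Prod.snd) := by
  induction h with
  | left f o q =>
    refine ⟨_, LP.left (fun q (a : C × _) => f q a.2) (fun q a => (a.1, o q a.2)) q, ?_⟩
    intro x
    induction x generalizing q with
    | nil => simp [lrun]
    | cons a l ih => simp [lrun, ih (f q a.2)]
  | right f o q =>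
    refine ⟨_, LP.right (fun q (a : C × _) => f q a.2) (fun q a => (a.1, o q a.2)) q, ?_⟩
    intro x
    have key : (rrun (fun q (a : C × _) => f q a.2) (fun q a => (a.1, o q a.2)) q x).1
        = (rrun f o q (x.map Prod.snd)).1 ∧
        (rrun (fun q (a : C × _) => f q a.2) (fun q a => (a.1, o q a.2)) q x).2.map Prod.fst
          = x.map Prod.fst ∧
        (rrun (fun q (a : C × _) => f q a.2) (fun q a => (a.1, o q a.2)) q x).2.map Prod.snd
          = (rrun f o q (x.map Prod.snd)).2 := by
      induction x with
      | nil => simp [rrun]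
      | cons a l ih =>
        obtain ⟨h1, h2, h3⟩ := ih
        simp [rrun, h1, h2, h3]
    exact key.2
  | @comp A B D _ F G _ _ h1 h2 =>
    obtain ⟨G1, hG1, e1⟩ := h1
    obtain ⟨G2, hG2, e2⟩ := h2
    refine ⟨_, LP.comp hG1 hG2, fun x => ⟨?_, ?_⟩⟩
    · rw [(e2 _).1, (e1 _).1]
    · rw [(e2 _).2, (e1 _).2]

theorem lrun_word {A B Q : Type} (f : Q → A → Q) (o : Q → A → B) (n : ℕ) (x : ℕ → A)
    (σ : ℕ → Q) (h : ∀ j < n, σ (j + 1) = f (σ j) (x j)) :
    lrun f o (σ 0) (word n x) = word n (fun j => o (σ j) (x j)) := by
  induction n generalizing x σ with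
  | zero => rfl
  | succ n ih =>
    have h0 := h 0 (by omega)
    have := ih (fun j => x (j + 1)) (fun j => σ (j + 1)) (fun j hj => h (j + 1) (by omega))
    simp only [word, lrun]
    rw [← h0]
    exact congrArg _ this

theorem rrun_word {A B Q : Type} (f : Q → A → Q) (o : Q → A → B) (n : ℕ) (x : ℕ → A)
    (ρ : ℕ → Q) (h : ∀ j < n, ρ j = f (ρ (j + 1)) (x j)) :
    rrun f o (ρ n) (word n x) = (ρ 0, word n (fun j => o (ρ (j + 1)) (x j))) := by
  induction n generalizing x ρ with
  | zero => rfl
  | succ n ih =>
    have h0 := h 0 (by omega)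
    have := ih (fun j => x (j + 1)) (fun j => ρ (j + 1)) (fun j hj => h (j + 1) (by omega))
    simp only [word, rrun]
    rw [this, ← h0]

theorem foldl_word {A Q : Type} (f : Q → A → Q) (n : ℕ) (x : ℕ → A)
    (σ : ℕ → Q) (h : ∀ j < n, σ (j + 1) = f (σ j) (x j)) :
    (word n x).foldl f (σ 0) = σ n := by
  induction n generalizing x σ with
  | zero => rfl
  | succ n ih =>
    have h0 := h 0 (by omega)
    have := ih (fun j => x (j + 1)) (fun j => σ (j + 1)) (fun j hj => h (j + 1) (by omega))
    simp only [word, List.foldl_cons]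
    rw [← h0]
    exact this

/-! ### The calculus of tracks -/

section Der

variable {ι : Type} (N : ι → ℕ)

/-- the family of tracks `Y` is computed from the family `X` by one length preserving sweep -/
def Der {A B : Type} (X : ι → ℕ → A) (Y : ι → ℕ → B) : Prop :=
  ∃ F : List A → List B, LP F ∧ ∀ s, F (word (N s) (X s)) = word (N s) (Y s)

variable {N}
variable {A B C D : Type} {X : ι → ℕ → A} {Y : ι → ℕ → B} {Z : ι → ℕ → C}

theorem Der.congr {Y' : ι → ℕ → B} (h : Der N X Y) (e : ∀ s, ∀ j < N s, Y s j = Y' s j) :
    Der N X Y' := by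
  obtain ⟨F, hF, h1⟩ := h
  exact ⟨F, hF, fun s => by rw [h1, word_congr (e s)]⟩

theorem Der.trans [Finite B] (h : Der N X Y) (h' : Der N Y Z) : Der N X Z := by
  obtain ⟨F, hF, h1⟩ := h
  obtain ⟨G, hG, h2⟩ := h'
  exact ⟨_, LP.comp hF hG, fun s => by rw [h1, h2]⟩

/-- left scan: the state before reading the letter is derivable -/
theorem Der.left {Q : Type} [Finite Q] (q0 : Q) (f : Q → A → Q) (σ : ι → ℕ → Q)
    (h0 : ∀ s, σ s 0 = q0) (h : ∀ s, ∀ j < N s, σ s (j + 1) = f (σ s j) (X s j)) :
    Der N X (fun s j => (σ s j, X s j)) := by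
  refine ⟨_, LP.left f (fun q a => (q, a)) q0, fun s => ?_⟩
  have := lrun_word f (fun q a => (q, a)) (N s) (X s) (σ s) (h s)
  rw [h0] at this
  exact this

/-- right scan: the state after the letter is derivable -/
theorem Der.right {Q : Type} [Finite Q] (q0 : Q) (f : Q → A → Q) (ρ : ι → ℕ → Q)
    (h0 : ∀ s, ρ s (N s) = q0) (h : ∀ s, ∀ j < N s, ρ s j = f (ρ s (j + 1)) (X s j)) :
    Der N X (fun s j => (ρ s (j + 1), X s j)) := by
  refine ⟨_, LP.right f (fun q a => (q, a)) q0, fun s => ?_⟩
  have := rrun_word f (fun q a => (q, a)) (N s) (X s) (ρ s) (h s)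
  rw [h0] at this
  rw [this]

theorem Der.map' (X : ι → ℕ → A) (g : A → B) : Der N X (fun s j => g (X s j)) := by
  refine ⟨_, LP.left (fun (_ : Unit) (_ : A) => ()) (fun _ a => g a) (), fun s => ?_⟩
  exact lrun_word _ _ _ (X s) (fun _ => ()) (fun _ _ => rfl)

theorem Der.refl (X : ι → ℕ → A) : Der N X X := Der.map' X id

theorem Der.map [Finite B] (h : Der N X Y) (g : B → C) : Der N X (fun s j => g (Y s j)) :=
  h.trans (Der.map' Y g)

theorem Der.dup [Finite A] (h : Der N X Y) : Der N X (fun s j => (X s j, Y s j)) := by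
  obtain ⟨F, hF, h1⟩ := h
  obtain ⟨G, hG, h2⟩ := hF.carry A
  refine (Der.map' X (fun a => (a, a))).trans ⟨G, hG, fun s => ?_⟩
  set w := word (N s) (fun j => (X s j, X s j)) with hw
  have e1 := (h2 w).1
  have e2 := (h2 w).2
  have a1 : w.map Prod.fst = word (N s) (X s) := by rw [hw, word_map]
  have a2 : w.map Prod.snd = word (N s) (X s) := by rw [hw, word_map]
  rw [a1] at e1
  rw [a2, h1] at e2
  apply List.ext_getElem?
  intro j
  have f1 := congrArg (fun l => l[j]?) e1
  have f2 := congrArg (fun l => l[j]?) e2
  simp only [List.getElem?_map, word_getElem?] at f1 f2 ⊢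
  by_cases hj : j < N s
  · simp only [hj, if_true] at f1 f2 ⊢
    rcases hG : (G w)[j]? with _ | ⟨u, v⟩
    · simp [hG] at f1
    · simp [hG] at f1 f2
      simp [f1, f2]
  · simp only [hj, if_false] at f1 f2 ⊢
    simpa using f1

theorem Der.pair [Finite A] [Finite B] [Finite C] (h : Der N X Y) (h' : Der N X Z) :
    Der N X (fun s j => (Y s j, Z s j)) := by
  have h1 : Der N X (fun s j => (X s j, Y s j)) := h.dup
  have h2 : Der N (fun s j => (X s j, Y s j)) Z :=
    (Der.map' (fun s j => (X s j, Y s j)) Prod.fst).trans h'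
  exact h1.trans ((h2.dup).map (fun p : (A × B) × C => (p.1.2, p.2)))

theorem Der.map₂ [Finite A] [Finite B] [Finite C] (h : Der N X Y) (h' : Der N X Z)
    (g : B → C → D) : Der N X (fun s j => g (Y s j) (Z s j)) :=
  (h.pair h').map (fun p => g p.1 p.2)

/-- left scan over a derived track -/
theorem Der.scanL [Finite A] [Finite B] {Q : Type} [Finite Q] (h : Der N X Y) (q0 : Q)
    (f : Q → B → Q) (σ : ι → ℕ → Q) (h0 : ∀ s, σ s 0 = q0)
    (h1 : ∀ s, ∀ j < N s, σ s (j + 1) = f (σ s j) (Y s j)) : Der N X σ :=
  (h.trans (Der.left q0 f σ h0 h1)).map Prod.fst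

/-- right scan over a derived track -/
theorem Der.scanR [Finite A] [Finite B] {Q : Type} [Finite Q] (h : Der N X Y) (q0 : Q)
    (f : Q → B → Q) (ρ : ι → ℕ → Q) (h0 : ∀ s, ρ s (N s) = q0)
    (h1 : ∀ s, ∀ j < N s, ρ s j = f (ρ s (j + 1)) (Y s j)) :
    Der N X (fun s j => ρ s (j + 1)) :=
  (h.trans (Der.right q0 f ρ h0 h1)).map Prod.fst

/-- the previous letter -/
theorem Der.prev [Finite A] [Finite B] (h : Der N X Y) (d : B) :
    Der N X (fun s j => if j = 0 then d else Y s (j - 1)) := by
  refine h.scanL d (fun _ b => b) (fun s j => if j = 0 then d else Y s (j - 1)) ?_ ?_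
  · intro s; simp
  · intro s j _; simp

/-- the next letter -/
theorem Der.next [Finite A] [Finite B] (h : Der N X Y) (d : B) :
    Der N X (fun s j => if j + 1 < N s then Y s (j + 1) else d) := by
  refine h.scanR d (fun _ b => b) (fun s j => if j < N s then Y s j else d) ?_ ?_
  · intro s; simp
  · intro s j hj; simp [hj]

end Der

end Pool.Agent.Q27.LT
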