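import Pool.Agent.Q27.LT.Basic

/-!
# Tracks and blocks

The positions of the word are divided into consecutive blocks. Pointers into the blocks can be
moved by one position, and the letter at a pointer can be broadcast to its block.
-/

namespace Pool.Agent.Q27.LT

variable {ι : Type}

/-- a family of divisions of the positions `< N s` into blocks `[st s j, en s j)` -/
structure IsBlocks (N : ι → ℕ) (st en : ι → ℕ → ℕ) : Prop where
  le : ∀ s, ∀ j < N s, st s j ≤ j
  lt : ∀ s, ∀ j < N s, j < en s j
  bd : ∀ s, ∀ j < N s, en s j ≤ N s
  cst : ∀ s, ∀ j < N s, ∀ i, st s j ≤ i → i < en s j → st s i = st s j ∧ en s i = en s j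

/-- `P` is a pointer into the blocks -/
structure IsPtr (N : ι → ℕ) (st en : ι → ℕ → ℕ) (P : ι → ℕ → ℕ) : Prop where
  le : ∀ s, ∀ j < N s, st s j ≤ P s j
  lt : ∀ s, ∀ j < N s, P s j < en s j
  cst : ∀ s, ∀ j < N s, ∀ i, st s j ≤ i → i < en s j → P s i = P s j

variable {N : ι → ℕ} {st en : ι → ℕ → ℕ}

/-- the mark of a pointer -/
def mark (P : ι → ℕ → ℕ) : ι → ℕ → Bool := fun s j => decide (P s j = j)

theorem IsBlocks.stPtr (hb : IsBlocks N st en) : IsPtr N st en st where
  le _ _ _ := le_refl _
  lt s j hj := lt_of_le_of_lt (hb.le s j hj) (hb.lt s j hj)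
  cst s j hj i h1 h2 := (hb.cst s j hj i h1 h2).1

theorem IsBlocks.last_iff (hb : IsBlocks N st en) (s : ι) (j : ℕ) (hj : j < N s) :
    en s j = j + 1 ↔ (j + 1 < N s → st s (j + 1) = j + 1) := by
  constructor
  · intro h hj1
    by_contra hne
    have h1 := hb.le s (j + 1) hj1
    have h2 := hb.cst s (j + 1) hj1 j (by omega) (by have := hb.lt s (j+1) hj1; omega)
    have h3 := hb.lt s (j + 1) hj1
    omega
  · intro h
    by_contra hne
    have h1 := hb.lt s j hj
    have h2 := hb.bd s j hj
    have h3 := hb.cst s j hj (j + 1) (by have := hb.le s j hj; omega) (by omega)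
    have h4 := h (by omega)
    have := hb.le s j hj
    omega

section
variable {A B : Type} {X : ι → ℕ → A} {Y : ι → ℕ → B}

/-- the track of the last positions of the blocks -/
theorem IsBlocks.derLast [Finite A] (hb : IsBlocks N st en) (h : Der N X (mark st)) :
    Der N X (fun s j => decide (en s j = j + 1)) := by
  refine (h.next true).congr (fun s j hj => ?_)
  have h1 := hb.last_iff s j hj
  by_cases hj1 : j + 1 < N s
  · simp [hj1, mark, h1]
  · simp [hj1, h1]

/-- broadcasting the letter at a pointer to its block -/
theorem IsBlocks.broadcast [Finite A] [Finite B] [Nonempty B] (hb : IsBlocks N st en)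
    {P : ι → ℕ → ℕ} (hP : IsPtr N st en P) (hs : Der N X (mark st)) (hm : Der N X (mark P))
    (hY : Der N X Y) : Der N X (fun s j => Y s (P s j)) := by
  classical
  obtain ⟨b0⟩ := ‹Nonempty B›
  -- the left scan
  let L : ι → ℕ → Option B := fun s j =>
    if j = 0 then none else if P s (j - 1) ≤ j - 1 then some (Y s (P s (j - 1))) else none
  have hin : Der N X (fun s j => ((mark st s j, mark P s j), Y s j)) := (hs.pair hm).pair hY
  have hL : Der N X L := by
    refine hin.scanL none
      (fun q a => if a.1.2 then some a.2 else if a.1.1 then none else q) L (fun s => by simp [L]) ?_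
    intro s j hj
    have a1 := hb.le s j hj
    have a2 := hb.lt s j hj
    have a3 := hP.le s j hj
    have a4 := hP.lt s j hj
    simp only [L, mark, Nat.succ_ne_zero, if_false, Nat.add_sub_cancel, decide_eq_true_eq]
    by_cases e1 : P s j = j
    · simp [e1]
    · rw [if_neg e1]
      by_cases e2 : st s j = j
      · rw [if_pos e2, if_neg]; omega
      · rw [if_neg e2]
        have e3 : j ≠ 0 := by omega
        rw [if_neg e3]
        have e4 := hP.cst s j hj (j - 1) (by omega) (by omega)
        rw [e4]
        by_cases e5 : P s j ≤ j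
        · rw [if_pos e5, if_pos (by omega)]
        · rw [if_neg e5, if_neg (by omega)]
  let R : ι → ℕ → Option B := fun s j =>
    if j < N s ∧ j ≤ P s j then some (Y s (P s j)) else none
  have hl := hb.derLast hs
  have hin2 : Der N X (fun s j => ((decide (en s j = j + 1), mark P s j), Y s j)) :=
    (hl.pair hm).pair hY
  have hR : Der N X (fun s j => R s (j + 1)) := by
    refine hin2.scanR none
      (fun q a => if a.1.2 then some a.2 else if a.1.1 then none else q) R (fun s => by simp [R]) ?_
    intro s j hj
    have a1 := hb.le s j hj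
    have a2 := hb.lt s j hj
    have a3 := hP.le s j hj
    have a4 := hP.lt s j hj
    have a5 := hb.bd s j hj
    simp only [R, mark, decide_eq_true_eq]
    by_cases e1 : P s j = j
    · simp [e1, hj]
    · rw [if_neg e1]
      by_cases e2 : en s j = j + 1
      · rw [if_pos e2, if_neg]; omega
      · rw [if_neg e2]
        have e4 := hP.cst s j hj (j + 1) (by omega) (by omega)
        rw [e4]
        by_cases e5 : j ≤ P s j
        · rw [if_pos ⟨hj, e5⟩, if_pos (by omega)]
        · rw [if_neg (by omega), if_neg (by omega)]
  -- combine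
  have hall := (hin.pair hL).pair hR
  refine (hall.map (fun a : (((Bool × Bool) × B) × Option B) × Option B =>
    if a.1.1.1.2 then a.1.1.2 else if a.1.1.1.1 then a.2.getD b0 else
      (a.1.2.orElse (fun _ => a.2)).getD b0)).congr ?_
  intro s j hj
  have a1 := hb.le s j hj
  have a2 := hb.lt s j hj
  have a3 := hP.le s j hj
  have a4 := hP.lt s j hj
  have a5 := hb.bd s j hj
  simp only [mark, decide_eq_true_eq]
  by_cases e1 : P s j = j
  · simp [e1]
  · rw [if_neg e1]
    by_cases e5 : j < P s j
    · have e4 := hP.cst s j hj (j + 1) (by omega) (by omega)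
      have r1 : R s (j + 1) = some (Y s (P s j)) := by
        simp only [R]; rw [if_pos ⟨by omega, by omega⟩, e4]
      rw [r1]
      by_cases e2 : st s j = j
      · simp [e2]
      · have e4' := hP.cst s j hj (j - 1) (by omega) (by omega)
        have l1 : L s j = none := by
          simp only [L]
          rw [if_neg (by omega), if_neg (by omega)]
        simp [e2, l1]
    · have e2 : ¬ st s j = j := by omega
      have e4' := hP.cst s j hj (j - 1) (by omega) (by omega)
      have l1 : L s j = some (Y s (P s j)) := by
        simp only [L]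
        rw [if_neg (by omega), if_pos (by omega), e4']
      simp [e2, l1]

/-- moving a pointer to the right, to the left, or not at all -/
theorem IsBlocks.move [Finite A] (hb : IsBlocks N st en)
    {P P' : ι → ℕ → ℕ} (hP : IsPtr N st en P) (hP' : IsPtr N st en P')
    (hs : Der N X (mark st)) (hm : Der N X (mark P)) {σ : ι → ℕ → Fin 3} (hσ : Der N X σ)
    (h0 : ∀ s, ∀ j < N s, σ s j = 0 → P' s j = P s j)
    (h1 : ∀ s, ∀ j < N s, σ s j = 1 → P' s j = P s j + 1)
    (h2 : ∀ s, ∀ j < N s, σ s j = 2 → P' s j + 1 = P s j) :
    Der N X (mark P') := by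
  classical
  have hl := hb.derLast hs
  have hp := hm.prev false
  have hn := hm.next false
  have hall := ((((hs.pair hl).pair hm).pair hp).pair hn).pair hσ
  refine (hall.map (fun a : ((((Bool × Bool) × Bool) × Bool) × Bool) × Fin 3 =>
    if a.2 = 0 then a.1.1.1.2 else if a.2 = 1 then (!a.1.1.1.1.1 && a.1.1.2)
      else (!a.1.1.1.1.2 && a.1.2))).congr ?_
  intro s j hj
  have a1 := hb.le s j hj
  have a2 := hb.lt s j hj
  have a3 := hP.le s j hj
  have a4 := hP.lt s j hj
  have a5 := hb.bd s j hj
  have b3 := hP'.le s j hj
  have b4 := hP'.lt s j hj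
  simp only [mark]
  by_cases c0 : σ s j = 0
  · simp [c0, h0 s j hj c0]
  by_cases c1 : σ s j = 1
  · have d1 := h1 s j hj c1
    simp only [c1]
    rw [if_neg (by decide), if_pos trivial, d1]
    by_cases e2 : st s j = j
    · simp [e2]; omega
    · have e4' := hP.cst s j hj (j - 1) (by omega) (by omega)
      have : j ≠ 0 := by omega
      simp only [e2, decide_false, Bool.not_false, Bool.true_and, this, if_false, e4']
      congr 1
      apply propext; constructor <;> intro <;> omega
  · have c2 : σ s j = 2 := by
      have : σ s j ≠ 0 ∧ σ s j ≠ 1 := ⟨c0, c1⟩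
      revert this; generalize σ s j = z; revert z; decide
    have d1 := h2 s j hj c2
    simp only [c0, c1, if_false]
    by_cases e2 : en s j = j + 1
    · simp [e2]; omega
    · have e4' := hP.cst s j hj (j + 1) (by omega) (by omega)
      have : j + 1 < N s := by omega
      simp only [e2, decide_false, Bool.not_false, Bool.true_and, this, if_true, e4']
      congr 1
      apply propext; constructor <;> intro <;> omega

/-- moving a pointer by a bounded amount -/
theorem IsBlocks.moveBy [Finite A] (hb : IsBlocks N st en)
    {P P' : ι → ℕ → ℕ} (hP : IsPtr N st en P) (hP' : IsPtr N st en P')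
    (hs : Der N X (mark st)) (hm : Der N X (mark P)) {K : Type} [Finite K] (v : K → ℤ)
    {κ : ι → ℕ → K} (hκ : Der N X κ)
    (hv : ∀ s, ∀ j < N s, (P' s j : ℤ) = P s j + v (κ s j)) : Der N X (mark P') := by
  classical
  obtain ⟨M, hM⟩ : ∃ M : ℕ, ∀ k, |v k| ≤ M := by
    obtain ⟨M, hM⟩ := (Set.finite_range (fun k => |v k|)).bddAbove
    exact ⟨M.toNat, fun k => le_trans (hM ⟨k, rfl⟩) (Int.self_le_toNat M)⟩
  induction M generalizing P v with
  | zero =>
    refine hm.congr (fun s j hj => ?_)
    have h1 := hv s j hj
    have h2 := hM (κ s j)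
    have h3 : v (κ s j) = 0 := by
      have := abs_nonneg (v (κ s j))
      have h4 : |v (κ s j)| = 0 := by push_cast at h2; omega
      exact abs_eq_zero.1 h4
    have h5 : P' s j = P s j := by omega
    simp [mark, h5]
  | succ M ih =>
    let P'' : ι → ℕ → ℕ := fun s j =>
      if P s j < P' s j then P s j + 1 else if P' s j < P s j then P s j - 1 else P s j
    have hP'' : IsPtr N st en P'' := by
      refine ⟨?_, ?_, ?_⟩
      · intro s j hj
        have := hP.le s j hj
        have := hP'.le s j hj
        simp only [P'']; split_ifs <;> omega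
      · intro s j hj
        have := hP.lt s j hj
        have := hP'.lt s j hj
        simp only [P'']; split_ifs <;> omega
      · intro s j hj i h1 h2
        simp only [P'', hP.cst s j hj i h1 h2, hP'.cst s j hj i h1 h2]
    let σ : K → Fin 3 := fun k => if 0 < v k then 1 else if v k < 0 then 2 else 0
    have hσ : Der N X (fun s j => σ (κ s j)) := hκ.map σ
    have key : ∀ k, (σ k = 0 → v k = 0) ∧ (σ k = 1 → 0 < v k) ∧ (σ k = 2 → v k < 0) := by
      intro k
      by_cases c1 : 0 < v k
      · have : σ k = 1 := by simp only [σ]; rw [if_pos c1]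
        rw [this]
        exact ⟨fun h => absurd h (by decide), fun _ => c1, fun h => absurd h (by decide)⟩
      · by_cases c2 : v k < 0
        · have : σ k = 2 := by simp only [σ]; rw [if_neg c1, if_pos c2]
          rw [this]
          exact ⟨fun h => absurd h (by decide), fun h => absurd h (by decide), fun _ => c2⟩
        · have : σ k = 0 := by simp only [σ]; rw [if_neg c1, if_neg c2]
          rw [this]
          exact ⟨fun _ => by omega, fun h => absurd h (by decide), fun h => absurd h (by decide)⟩
    have hm'' : Der N X (mark P'') := by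
      refine hb.move hP hP'' hs hm hσ ?_ ?_ ?_
      · intro s j hj h
        have h1 := hv s j hj
        have h2 := (key _).1 h
        simp only [P'']
        rw [if_neg (by omega), if_neg (by omega)]
      · intro s j hj h
        have h1 := hv s j hj
        have h2 := (key _).2.1 h
        simp only [P'']
        rw [if_pos (by omega)]
      · intro s j hj h
        have h1 := hv s j hj
        have h2 := (key _).2.2 h
        simp only [P'']
        rw [if_neg (by omega), if_pos (by omega)]
        omega
    refine ih hP'' hm'' (fun k => v k - (if 0 < v k then 1 else if v k < 0 then -1 else 0)) ?_ ?_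
    · intro s j hj
      have h1 := hv s j hj
      simp only [P'']
      split_ifs <;> push_cast <;> omega
    · intro k
      have h1 := hM k
      rw [abs_le] at h1 ⊢
      push_cast at h1 ⊢
      split_ifs <;> constructor <;> omega

/-- the distance of two pointers, truncated -/
theorem IsBlocks.dist [Finite A] (hb : IsBlocks N st en)
    {P P' : ι → ℕ → ℕ} (hP : IsPtr N st en P) (hP' : IsPtr N st en P')
    (hle : ∀ s, ∀ j < N s, P s j ≤ P' s j)
    (hs : Der N X (mark st)) (hm : Der N X (mark P)) (hm' : Der N X (mark P')) :
    Der N X (fun s j => (Fin.ofNat 4 (min (P' s j - P s j) 3))) := by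
  classical
  let L : ι → ℕ → Option (Fin 4) := fun s j =>
    if j = 0 then none else if P s (j - 1) ≤ j - 1 then
      some (Fin.ofNat 4 (min (j - 1 - P s (j - 1)) 3)) else none
  let up : Fin 4 → Fin 4 := fun a => if a = 3 then 3 else a + 1
  have hup : ∀ k : ℕ, up (Fin.ofNat 4 (min k 3)) = Fin.ofNat 4 (min (k + 1) 3) := by
    intro k
    rcases Nat.lt_or_ge k 3 with h | h
    · interval_cases k <;> rfl
    · rw [min_eq_right h, min_eq_right (by omega)]; rfl
  have hL : Der N X L := by
    refine (hs.pair hm).scanL none
      (fun q a => if a.2 then some 0 else if a.1 then none else q.map up) L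
      (fun s => by simp [L]) ?_
    intro s j hj
    have a1 := hb.le s j hj
    have a2 := hb.lt s j hj
    have a3 := hP.le s j hj
    have a4 := hP.lt s j hj
    simp only [L, mark, Nat.succ_ne_zero, if_false, Nat.add_sub_cancel, decide_eq_true_eq]
    by_cases e1 : P s j = j
    · simp [e1]
    · rw [if_neg e1]
      by_cases e2 : st s j = j
      · rw [if_pos e2, if_neg]; omega
      · rw [if_neg e2]
        have e3 : j ≠ 0 := by omega
        rw [if_neg e3]
        have e4 := hP.cst s j hj (j - 1) (by omega) (by omega)
        rw [e4]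
        by_cases e5 : P s j ≤ j
        · rw [if_pos e5, if_pos (by omega), Option.map_some, hup]
          congr 3; omega
        · rw [if_neg e5, if_neg (by omega)]; rfl
  -- the state after reading `j`
  have hL2 : Der N X (fun s j => if P s j ≤ j then
      Fin.ofNat 4 (min (j - P s j) 3) else 0) := by
    refine (((hs.pair hm).pair hL).map (fun a : (Bool × Bool) × Option (Fin 4) =>
      if a.1.2 then 0 else if a.1.1 then 0 else (a.2.map up).getD 0)).congr ?_
    intro s j hj
    have a1 := hb.le s j hj
    have a2 := hb.lt s j hj
    have a3 := hP.le s j hj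
    have a4 := hP.lt s j hj
    simp only [L, mark, decide_eq_true_eq]
    by_cases e1 : P s j = j
    · simp [e1]
    · rw [if_neg e1]
      by_cases e2 : st s j = j
      · rw [if_pos e2, if_neg]; omega
      · rw [if_neg e2]
        have e3 : j ≠ 0 := by omega
        rw [if_neg e3]
        have e4 := hP.cst s j hj (j - 1) (by omega) (by omega)
        rw [e4]
        by_cases e5 : P s j ≤ j
        · rw [if_pos e5, if_pos (by omega), Option.map_some, hup, Option.getD_some]
          congr 2; omega
        · rw [if_neg e5, if_neg (by omega)]; rfl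
  refine (hb.broadcast hP' hs hm' hL2).congr ?_
  intro s j hj
  have a3 := hP'.le s j hj
  have a4 := hP'.lt s j hj
  have e4 := hP.cst s j hj (P' s j) a3 a4
  simp only [e4]
  rw [if_pos (hle s j hj)]

end

end Pool.Agent.Q27.LT
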