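import Mathlib

/-!
# The dyadic decomposition of the tape

`h j` is the height of the position `j`. Positions come in pairs of equal height, and consecutive
pairs differ by at most one. A dyadic interval `[a, a + 2 ^ l)` is good if `l = 0` or
`2 * 2 ^ l ≤ h a`; the maximal good intervals form a partition.
-/

namespace Pool.Agent.Q27.LT

/-- heights of the positions -/
structure Tame (h : ℕ → ℕ) : Prop where
  even : ∀ i, h (2 * i + 1) = h (2 * i)
  up : ∀ i, h (2 * i + 2) ≤ h (2 * i) + 1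
  down : ∀ i, h (2 * i) ≤ h (2 * i + 2) + 1

theorem Tame.eq_half {h : ℕ → ℕ} (t : Tame h) (j : ℕ) : h j = h (2 * (j / 2)) := by
  rcases Nat.even_or_odd j with ⟨i, hi⟩ | ⟨i, hi⟩
  · have : 2 * (j / 2) = j := by omega
    rw [this]
  · have : 2 * (j / 2) = 2 * i := by omega
    rw [this, hi, t.even]

theorem Tame.lip {h : ℕ → ℕ} (t : Tame h) (i j : ℕ) (hij : i ≤ j) :
    h j ≤ h i + (j / 2 - i / 2) ∧ h i ≤ h j + (j / 2 - i / 2) := by
  have key : ∀ a d : ℕ, h (2 * (a + d)) ≤ h (2 * a) + d ∧ h (2 * a) ≤ h (2 * (a + d)) + d := by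
    intro a d
    induction d with
    | zero => simp
    | succ d ih =>
      have h1 := t.up (a + d)
      have h2 := t.down (a + d)
      have e : 2 * (a + (d + 1)) = 2 * (a + d) + 2 := by ring
      rw [e]
      omega
  have h1 := key (i / 2) (j / 2 - i / 2)
  have e : i / 2 + (j / 2 - i / 2) = j / 2 := by omega
  rw [e] at h1
  rw [t.eq_half j, t.eq_half i]
  exact h1

/-- the dyadic interval of length `2 ^ l` around `j` is good -/
def gd (h : ℕ → ℕ) (j l : ℕ) : Prop := l = 0 ∨ 2 * 2 ^ l ≤ h (j - j % 2 ^ l)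

instance (h : ℕ → ℕ) (j : ℕ) : DecidablePred (gd h j) := fun l => by
  unfold gd; infer_instance

/-- the level of the block of `j` -/
def lv (h : ℕ → ℕ) (j : ℕ) : ℕ := Nat.findGreatest (gd h j) (h 0 + j + 1)

/-- the length of the block of `j` -/
def bn (h : ℕ → ℕ) (j : ℕ) : ℕ := 2 ^ lv h j

/-- the first position of the block of `j` -/
def bst (h : ℕ → ℕ) (j : ℕ) : ℕ := j - j % bn h j

/-- the end of the block of `j` -/
def ben (h : ℕ → ℕ) (j : ℕ) : ℕ := bst h j + bn h j

theorem gd_down {h : ℕ → ℕ} (t : Tame h) (j l : ℕ) (hl : gd h j (l + 1)) : gd h j l := by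
  rcases Nat.eq_zero_or_pos l with h0 | h0
  · exact Or.inl h0
  · right
    rcases hl with hl | hl
    · omega
    · obtain ⟨m, rfl⟩ : ∃ m, l = m + 1 := ⟨l - 1, by omega⟩
      set n := 2 ^ m with hn
      have hn1 : 1 ≤ n := Nat.one_le_two_pow
      have e1 : 2 ^ (m + 1) = 2 * n := by rw [pow_succ]; ring
      have e2 : 2 ^ (m + 1 + 1) = 4 * n := by rw [pow_succ, pow_succ]; ring
      rw [e2] at hl
      rw [e1]
      have a1 : j % (4 * n) = j % (2 * n) ∨ j % (4 * n) = j % (2 * n) + 2 * n := by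
        have := Nat.mod_mul_right_mod j (2 * n) 2
        have h3 : 4 * n = 2 * n * 2 := by ring
        rw [← h3] at this
        have h4 : j % (4 * n) < 4 * n := Nat.mod_lt _ (by omega)
        have h5 := Nat.div_add_mod (j % (4 * n)) (2 * n)
        rw [this] at h5
        have h6 : j % (4 * n) / (2 * n) < 2 := by
          rw [Nat.div_lt_iff_lt_mul (by omega)]; omega
        interval_cases hh : j % (4 * n) / (2 * n) <;> omega
      have h7 : j % (4 * n) ≤ j := Nat.mod_le _ _
      have h8 : j % (2 * n) ≤ j := Nat.mod_le _ _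
      have h9 := t.lip (j - j % (4 * n)) (j - j % (2 * n)) (by omega)
      omega

theorem gd_mono {h : ℕ → ℕ} (t : Tame h) (j : ℕ) {l m : ℕ} (hlm : l ≤ m) (hm : gd h j m) :
    gd h j l := by
  induction m with
  | zero => have : l = 0 := by omega
            subst this; exact hm
  | succ m ih =>
    rcases Nat.lt_or_ge l (m + 1) with h1 | h1
    · exact ih (by omega) (gd_down t j m hm)
    · have : l = m + 1 := by omega
      subst this; exact hm

theorem gd_bound {h : ℕ → ℕ} (t : Tame h) (j l : ℕ) (hl : gd h j l) : l ≤ h 0 + j + 1 := by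
  rcases hl with hl | hl
  · omega
  · have h1 := t.lip 0 (j - j % 2 ^ l) (by omega)
    have h2 : l < 2 ^ l := Nat.lt_two_pow_self
    omega

theorem gd_lv {h : ℕ → ℕ} (j : ℕ) : gd h j (lv h j) :=
  Nat.findGreatest_spec (P := gd h j) (m := 0) (by omega) (Or.inl rfl)

theorem not_gd_lv {h : ℕ → ℕ} (t : Tame h) (j : ℕ) : ¬ gd h j (lv h j + 1) := by
  intro hc
  have h1 := gd_bound t j _ hc
  have h2 := Nat.le_findGreatest (P := gd h j) h1 hc
  unfold lv at h2
  omega

theorem lv_eq {h : ℕ → ℕ} (t : Tame h) (j l : ℕ) (h1 : gd h j l) (h2 : ¬ gd h j (l + 1)) :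
    lv h j = l := by
  rcases Nat.lt_trichotomy (lv h j) l with h3 | h3 | h3
  · exact absurd (gd_mono t j h3 h1) (not_gd_lv t j)
  · exact h3
  · exact absurd (gd_mono t j h3 (gd_lv j)) h2

theorem bn_pos (h : ℕ → ℕ) (j : ℕ) : 1 ≤ bn h j := Nat.one_le_two_pow

/-- `(a, n)` is a block -/
structure IsBl (h : ℕ → ℕ) (a n : ℕ) : Prop where
  pow : ∃ l, n = 2 ^ l
  dvd : n ∣ a
  good : n = 1 ∨ 2 * n ≤ h a
  bad : h (a - a % (2 * n)) < 4 * n

theorem IsBl.pos {h : ℕ → ℕ} {a n : ℕ} (b : IsBl h a n) : 1 ≤ n := by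
  obtain ⟨l, rfl⟩ := b.pow; exact Nat.one_le_two_pow

theorem mod_two_mul (j n : ℕ) (hn : 1 ≤ n) :
    (j % (2 * n) = j % n) ∨ (j % (2 * n) = j % n + n) := by
  have := Nat.mod_mul_right_mod j n 2
  have h3 : 2 * n = n * 2 := by ring
  rw [← h3] at this
  have h4 : j % (2 * n) < 2 * n := Nat.mod_lt _ (by omega)
  have h5 := Nat.div_add_mod (j % (2 * n)) n
  rw [this] at h5
  have h6 : j % (2 * n) / n < 2 := by
    rw [Nat.div_lt_iff_lt_mul (by omega)]; omega
  interval_cases hh : j % (2 * n) / n <;> omega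

theorem sub_mod_parent (j n : ℕ) (hn : 1 ≤ n) :
    (j - j % n) - (j - j % n) % (2 * n) = j - j % (2 * n) := by
  have h1 := Nat.div_add_mod j (2 * n)
  have h2 : j % (2 * n) < 2 * n := Nat.mod_lt _ (by omega)
  have h3 : j % n < n := Nat.mod_lt _ (by omega)
  rcases mod_two_mul j n hn with h | h
  · have e : j - j % n = 2 * n * (j / (2 * n)) := by omega
    rw [e, Nat.mul_mod_right]; omega
  · have e : j - j % n = n + 2 * n * (j / (2 * n)) := by omega
    rw [e, Nat.add_mul_mod_self_left, Nat.mod_eq_of_lt (show n < 2 * n by omega)]; omega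

theorem isBl (h : ℕ → ℕ) (t : Tame h) (j : ℕ) : IsBl h (bst h j) (bn h j) where
  pow := ⟨_, rfl⟩
  dvd := by
    unfold bst
    exact (Nat.dvd_sub_mod j)
  good := by
    rcases gd_lv (h := h) j with h1 | h1
    · left; unfold bn; rw [h1]; rfl
    · right; exact h1
  bad := by
    have h1 := not_gd_lv t j
    unfold gd at h1
    push Not at h1
    have e : 2 ^ (lv h j + 1) = 2 * bn h j := by unfold bn; rw [pow_succ]; ring
    rw [e] at h1
    have h2 := h1.2
    unfold bst
    rw [sub_mod_parent j _ (bn_pos h j)]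
    omega

theorem bst_le (h : ℕ → ℕ) (j : ℕ) : bst h j ≤ j := Nat.sub_le _ _

theorem lt_ben (h : ℕ → ℕ) (j : ℕ) : j < ben h j := by
  unfold ben bst
  have := Nat.mod_lt j (show 0 < bn h j from bn_pos h j)
  have := Nat.mod_le j (bn h j)
  omega

theorem mod_of_dvd {a n j : ℕ} (_hn : 1 ≤ n) (hd : n ∣ a) (h1 : a ≤ j) (h2 : j < a + n) :
    j % n = j - a := by
  obtain ⟨c, rfl⟩ := hd
  have e : j = (j - n * c) + n * c := by omega
  conv_lhs => rw [e]
  rw [Nat.add_mul_mod_self_left, Nat.mod_eq_of_lt (by omega)]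

/-- uniqueness of the block -/
theorem IsBl.eq {h : ℕ → ℕ} (t : Tame h) {a n : ℕ} (b : IsBl h a n) {j : ℕ} (h1 : a ≤ j)
    (h2 : j < a + n) : bst h j = a ∧ bn h j = n := by
  obtain ⟨l, hl⟩ := b.pow
  have hm := mod_of_dvd b.pos b.dvd h1 h2
  have hlv : lv h j = l := by
    apply lv_eq t
    · rcases b.good with h3 | h3
      · left
        by_contra hne
        have : 2 ^ 0 < 2 ^ l := Nat.pow_lt_pow_right (by norm_num) (by omega)
        omega
      · right
        rw [← hl, hm]
        have : j - (j - a) = a := by omega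
        rw [this]; exact h3
    · rintro (h3 | h3)
      · omega
      · have e : 2 ^ (l + 1) = 2 * n := by rw [hl, pow_succ]; ring
        rw [e] at h3
        have h4 := sub_mod_parent j n b.pos
        have e2 : j - j % n = a := by omega
        rw [e2] at h4
        rw [← h4] at h3
        have := b.bad
        omega
  have hbn : bn h j = n := by unfold bn; rw [hlv, hl]
  refine ⟨?_, hbn⟩
  unfold bst
  rw [hbn, hm]; omega

end Pool.Agent.Q27.LT
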