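import Pool.Agent.Q27.LT.Walks

/-!
# Constants, and the data of a step
-/

namespace Pool.Agent.Q27.LT

open FreeGroup

section
variable {ι Pl K : Type} [Inhabited Pl] [Finite Pl] [Inhabited K] [Finite K]
variable {L : ι → List (ℕ × Pl)}

theorem DL.any {χ : ι → ℕ → Bool} (h : DL L χ) :
    DL L (fun s _ => decide (∃ i < (L s).length, χ s i = true)) := by
  have h1 := h.scanL false (fun q y => q || y)
    (fun s i => decide (∃ i' < i, χ s i' = true)) ?_ ?_
  · have h2 := (h1.map₂ h (fun a b => a || b)).last
    refine h2.congr (fun s i hi => ?_)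
    rw [Bool.eq_iff_iff]
    simp only [Bool.or_eq_true, decide_eq_true_eq]
    constructor
    · rintro (⟨i', h3, h4⟩ | h3)
      · exact ⟨i', by omega, h4⟩
      · exact ⟨_, by omega, h3⟩
    · rintro ⟨i', h3, h4⟩
      by_cases h5 : i' < (L s).length - 1
      · exact Or.inl ⟨i', h5, h4⟩
      · have : i' = (L s).length - 1 := by omega
        rw [this] at h4
        exact Or.inr h4
  · intro s; simp
  · intro s i hi
    rw [Bool.eq_iff_iff]
    simp only [Bool.or_eq_true, decide_eq_true_eq]
    constructor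
    · rintro ⟨i', h3, h4⟩
      by_cases h5 : i' < i
      · exact Or.inl ⟨i', h5, h4⟩
      · have : i' = i := by omega
        rw [this] at h4
        exact Or.inr h4
    · rintro (⟨i', h3, h4⟩ | h3)
      · exact ⟨i', by omega, h4⟩
      · exact ⟨i, by omega, h3⟩

/-- `∃ i` over the entries -/
theorem ex_gx {B : Type} [Inhabited B] (M : List B) (χ : B → Prop) :
    (∃ i < M.length, χ (gx M i)) ↔ ∃ a ∈ M, χ a := by
  constructor
  · rintro ⟨i, h1, h2⟩
    rw [gx_lt h1] at h2
    exact ⟨_, List.getElem_mem h1, h2⟩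
  · rintro ⟨a, h1, h2⟩
    obtain ⟨i, h3, h4⟩ := List.getElem_of_mem h1
    exact ⟨i, h3, by rw [gx_lt h3, h4]; exact h2⟩

/-- add control data to the payload -/
def dec {Pl K : Type} (κ : K) (M : List (ℕ × Pl)) : List (ℕ × (Pl × K)) :=
  M.map (fun a => (a.1, a.2, κ))

omit [Inhabited Pl] [Finite Pl] [Inhabited K] [Finite K] in
@[simp] theorem dec_length (κ : K) (M : List (ℕ × Pl)) : (dec κ M).length = M.length := by
  simp [dec]

omit [Inhabited Pl] [Finite Pl] [Inhabited K] [Finite K] in
theorem dec_append (κ : K) (M N : List (ℕ × Pl)) : dec κ (M ++ N) = dec κ M ++ dec κ N := by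
  simp [dec]

omit [Inhabited Pl] [Finite Pl] [Inhabited K] [Finite K] in
theorem dec_cons (κ : K) (a : ℕ × Pl) (N : List (ℕ × Pl)) :
    dec κ (a :: N) = (a.1, a.2, κ) :: dec κ N := rfl

omit [Inhabited Pl] [Finite Pl] [Inhabited K] [Finite K] in
theorem Good.dec {κ : K} {M : List (ℕ × Pl)} (h : Good M) : Good (dec κ M) where
  ne := by have := h.ne; simpa [LT.dec] using this
  ch := by
    unfold LT.dec
    rw [List.isChain_map]
    exact h.ch
  small := by
    unfold LT.dec
    rw [List.getLast_map]
    exact h.small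

omit [Finite Pl] [Finite K] in
theorem hh_dec {κ : K} {M : List (ℕ × Pl)} (h : M ≠ []) (i : ℕ) : hh (dec κ M) i = hh M i := by
  unfold hh LT.dec
  rw [gx_map h]

omit [Finite Pl] [Finite K] in
theorem pp_dec {κ : K} {M : List (ℕ × Pl)} (h : M ≠ []) (i : ℕ) :
    pp (dec κ M) i = (pp M i, κ) := by
  unfold pp LT.dec
  rw [gx_map h]

theorem RL.dec {κ : ι → K} (hL : ∀ s, Good (L s)) (hκ : DL L (fun s _ => κ s)) :
    RL L (fun s => dec (κ s) (L s)) := by
  refine RL.pay hL (fun s => by simp) (fun s i _ => hh_dec (hL s).ne i) ?_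
  refine ((dl_pay L).pair hκ).congr (fun s i _ => ?_)
  exact (pp_dec (hL s).ne i).symm

theorem RL.undec {κ : ι → K} (hL : ∀ s, Good (L s)) : RL (fun s => LT.dec (κ s) (L s)) L := by
  refine RL.pay (fun s => (hL s).dec) (fun s => by simp)
    (fun s i _ => (hh_dec (hL s).ne i).symm) ?_
  refine ((dl_pay (fun s => LT.dec (κ s) (L s))).map (fun a => a.1)).congr (fun s i _ => ?_)
  rw [pp_dec (hL s).ne i]

/-- the control data -/
theorem dl_con {κ : ι → K} (hL : ∀ s, Good (L s)) :
    DL (fun s => LT.dec (κ s) (L s)) (fun s _ => κ s) := by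
  refine ((dl_pay (fun s => LT.dec (κ s) (L s))).map (fun a => a.2)).congr (fun s i _ => ?_)
  rw [pp_dec (hL s).ne i]

/-- zero height, payload, control data -/
theorem dl_all {κ : ι → K} (hL : ∀ s, Good (L s)) :
    DL (fun s => LT.dec (κ s) (L s))
      (fun s i => (decide (hh (L s) i = 0), pp (L s) i, κ s)) := by
  refine ((dl_zero (fun s => (hL s).dec)).pair (dl_pay (fun s => LT.dec (κ s) (L s)))).congr
    (fun s i _ => ?_)
  rw [hh_dec (hL s).ne i, pp_dec (hL s).ne i]

end

/-! ### the list of a state -/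

/-- the last visit -/
def en (p : FG) : Vs := (p, none, false, false)

/-- the visits of the state -/
noncomputable def W0 (s : St) : List Vs := Wt (T s) s.1 s.2.toWord ++ [en s.2]

/-- heights and payloads of the state -/
noncomputable def L0 (s : St) : List (ℕ × Pay) := (W0 s).map (ent s.2)

theorem good_W {t : Tr} (h : t.has []) (f : FG → ZMod 2) {π : List D} {p : FG}
    (hp : p = FreeGroup.mk π) : Good ((Wt t f π ++ [en p]).map (ent p)) :=
  good_of_ch (by simp) (ch_Wt h f π _ hp) (by simp [en])

theorem good_L0 (s : St) : Good (L0 s) := good_W (T_nil s) s.1 mk_toWord.symm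

theorem ent_zero (p : FG) (v : Vs) : (ent p v).1 = 0 ↔ v.1 = p := by
  unfold ent
  simp only
  rw [FreeGroup.norm_eq_zero, inv_mul_eq_one]
  exact eq_comm

theorem tX_reg {acc π : List D} {v : Vs} (h : v ∈ tX acc π) : v.2.2.1 = false := by
  induction π generalizing acc with
  | nil => simp [tX] at h
  | cons a π ih =>
    simp only [tX, List.mem_cons] at h
    rcases h with rfl | h
    · rfl
    · exact ih h

/-- contour visits at the position -/
theorem ex_L0 (s : St) (Q : Pay → Prop) :
    (∃ i < (L0 s).length, (hh (L0 s) i = 0 ∧ (pp (L0 s) i).2.1 = true ∧ Q (pp (L0 s) i))) ↔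
      ∃ y : Pay, y.2 = (true, decide (s.1 s.2 ≠ 0)) ∧
        ((∃ c, y.1 = some c ∧ (T s).has (s.2.toWord ++ [c])) ∨ y.1 = back s.2.toWord none) ∧
        Q y := by
  have h1 := ex_gx (L0 s) (fun a => a.1 = 0 ∧ a.2.2.1 = true ∧ Q a.2)
  refine Iff.trans h1 ?_
  constructor
  · rintro ⟨a, h2, h3, h4, h5⟩
    unfold L0 at h2
    rw [List.mem_map] at h2
    obtain ⟨v, h2, rfl⟩ := h2
    rw [ent_zero] at h3
    have h6 : v ∈ cv (T s) s.1 := by
      unfold W0 Wt at h2
      rw [List.mem_append, List.mem_append] at h2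
      rcases h2 with (h2 | h2) | h2
      · exact h2
      · rw [show (ent s.2 v).2 = v.2 from rfl, tX_reg h2] at h4; cases h4
      · simp only [List.mem_singleton] at h2
        rw [h2] at h4; simp [ent, en] at h4
    obtain ⟨x, y⟩ := v
    simp only at h3
    subst h3
    rw [mem_cv] at h6
    exact ⟨y, h6.1, h6.2.2, h5⟩
  · rintro ⟨y, h2, h3, h4⟩
    refine ⟨ent s.2 (s.2, y), ?_, ?_, ?_, h4⟩
    · unfold L0
      apply List.mem_map_of_mem
      unfold W0 Wt
      rw [List.mem_append, List.mem_append]
      refine Or.inl (Or.inl ?_)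
      rw [mem_cv]
      exact ⟨h2, T_pos s, h3⟩
    · rw [ent_zero]
    · show y.2.1 = true
      rw [h2]

theorem back_eq (π : List D) : back π none = π.getLast?.map iv := by
  unfold back
  cases π.getLast? <;> rfl

theorem lamp_iff (s : St) : (∃ i < (L0 s).length, (hh (L0 s) i = 0 ∧ (pp (L0 s) i).2.1 = true ∧
    (pp (L0 s) i).2.2 = true)) ↔ s.1 s.2 ≠ 0 := by
  rw [ex_L0 s (fun y => y.2.2 = true)]
  constructor
  · rintro ⟨y, h1, -, h3⟩
    rw [h1] at h3
    simpa using h3
  · intro h
    exact ⟨(back s.2.toWord none, true, true), by simp [h], Or.inr rfl, rfl⟩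

theorem absent_iff (d : D) (s : St) : Absent d s ↔ ¬ Up d s ∧
    ¬ (∃ i < (L0 s).length, (hh (L0 s) i = 0 ∧ (pp (L0 s) i).2.1 = true ∧
      (pp (L0 s) i).1 = some d)) := by
  rw [ex_L0 s (fun y => y.1 = some d)]
  unfold Absent
  apply and_congr_right
  intro hu
  apply not_congr
  constructor
  · intro h
    exact ⟨(some d, true, decide (s.1 s.2 ≠ 0)), rfl, Or.inl ⟨d, rfl, h⟩, rfl⟩
  · rintro ⟨y, -, h2, h3⟩
    rcases h2 with ⟨c, h4, h5⟩ | h4
    · rw [h3] at h4
      rw [Option.some.inj h4]; exact h5
    · exfalso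
      apply hu
      unfold Up
      rw [h3, back_eq] at h4
      cases h6 : s.2.toWord.getLast? with
      | none => rw [h6] at h4; simp at h4
      | some l =>
        rw [h6] at h4
        simp only [Option.map_some, Option.some.injEq] at h4
        rw [h4, iv_iv]

theorem prune_iff (d : D) (s : St) : Prune d s ↔ Up d s ∧
    ¬ (∃ i < (L0 s).length, (hh (L0 s) i = 0 ∧ (pp (L0 s) i).2.1 = true ∧
      ((pp (L0 s) i).2.2 = true ∨ (pp (L0 s) i).1 ≠ some d))) := by
  rw [ex_L0 s (fun y => y.2.2 = true ∨ y.1 ≠ some d)]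
  unfold Prune
  apply and_congr_right
  intro hu
  apply not_congr
  have hw := word_up hu
  rw [has_T]
  constructor
  · rintro ⟨x, h1, h2⟩
    have h3 : s.1 x ≠ 0 := by
      rcases h1 with rfl | h1
      · exfalso
        have := h2.length_le
        rw [hw] at this
        simp at this
      · exact h1
    by_cases hx : x = s.2
    · rw [hx] at h3
      exact ⟨(back s.2.toWord none, true, true), by simp [h3], Or.inr rfl, Or.inl rfl⟩
    · obtain ⟨ρ, hρ⟩ := h2
      cases ρ with
      | nil =>
        exfalso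
        rw [List.append_nil] at hρ
        exact hx (toWord_injective hρ.symm)
      | cons c ρ =>
        have h4 : (T s).has (s.2.toWord ++ [c]) := by
          rw [has_T]
          exact ⟨x, Or.inr h3, ⟨ρ, by simpa using hρ⟩⟩
        refine ⟨(some c, true, decide (s.1 s.2 ≠ 0)), rfl, Or.inl ⟨c, rfl, h4⟩, Or.inr ?_⟩
        intro h5
        have h6 := T_red s h4
        rw [red_iff] at h6
        apply h6.2
        rw [Option.some.inj h5]
        exact hu
  · rintro ⟨y, h1, h2, h3⟩
    rcases h3 with h3 | h3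
    · rw [h1] at h3
      exact ⟨s.2, Or.inr (show s.1 s.2 ≠ 0 by simpa using h3), List.prefix_refl _⟩
    · rcases h2 with ⟨c, h4, h5⟩ | h4
      · obtain ⟨x, h6, h7⟩ := (has_T s _).1 h5
        refine ⟨x, Or.inr ?_, (List.prefix_append _ _).trans h7⟩
        rcases h6 with rfl | h6
        · exfalso
          have := h7.length_le
          simp at this
        · exact h6
      · exfalso
        apply h3
        unfold Up at hu
        rw [h4, back_eq, hu]
        simp [iv_iv]

/-- the last letter of the position is the letter of the second last visit -/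
theorem last2_L0 (s : St) : 2 ≤ (L0 s).length ∧
    (pp (L0 s) ((L0 s).length - 2)).1 = s.2.toWord.getLast? := by
  have key : ∃ Y u, W0 s = Y ++ [u, en s.2] ∧ u.2.1 = s.2.toWord.getLast? := by
    unfold W0 Wt
    rcases List.eq_nil_or_concat s.2.toWord with h | ⟨π, l, h⟩
    · obtain ⟨Y, hY⟩ := cv_last (T_nil s) s.1
      rw [h, hY]
      exact ⟨Y, (1, none, true, decide (s.1 1 ≠ 0)), by simp [tX], rfl⟩
    · rw [h, List.concat_eq_append, tX_snoc]
      exact ⟨cv (T s) s.1 ++ tX [] π, (FreeGroup.mk ([] ++ π), some l, false, false), by simp,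
        by simp⟩
  obtain ⟨Y, u, h1, h2⟩ := key
  have h3 : (L0 s).length = Y.length + 2 := by unfold L0; rw [h1]; simp
  refine ⟨by omega, ?_⟩
  rw [h3]
  unfold pp L0
  rw [h1, gx_map (by simp), Nat.add_sub_cancel, gx_append_right (le_refl _) (by simp), Nat.sub_self]
  show (ent s.2 (gx [u, en s.2] 0)).2.1 = _
  rw [gx_lt (by simp)]
  exact h2

/-- control data: last letter of the position, `Up`, `Absent`, lamp at the position, `Prune` -/
abbrev KK := Option D × Bool × Bool × Bool × Bool

open Classical in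
/-- the control data of the step -/
noncomputable def con (d : D) (s : St) : KK :=
  (s.2.toWord.getLast?, decide (Up d s), decide (Absent d s), decide (s.1 s.2 ≠ 0),
    decide (Prune d s))

theorem dl_con0 (d : D) : DL L0 (fun s _ => con d s) := by
  classical
  have z := dl_zero good_L0
  have y := dl_pay L0
  have he : DL L0 (fun s _ => s.2.toWord.getLast?) :=
    ((y.map (fun a => a.1)).last2 (fun s => (last2_L0 s).1)).congr
      (fun s i _ => (last2_L0 s).2)
  have hu : DL L0 (fun s _ => decide (Up d s)) := by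
    refine (he.map (fun e => decide (e = some (iv d)))).congr (fun s i _ => ?_)
    rw [decide_eq_decide]
    rfl
  have hz := z.pair y
  have a1 := (hz.map (fun a => a.1 && a.2.2.1 && a.2.2.2)).any
  have a2 := (hz.map (fun a => a.1 && a.2.2.1 && decide (a.2.1 = some d))).any
  have a3 := (hz.map (fun a => a.1 && a.2.2.1 && (a.2.2.2 || decide (a.2.1 ≠ some d)))).any
  have h1 : DL L0 (fun s _ => decide (s.1 s.2 ≠ 0)) := by
    refine a1.congr (fun s i _ => ?_)
    rw [decide_eq_decide, ← lamp_iff s]
    apply exists_congr; intro i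
    apply and_congr_right; intro _
    simp [and_assoc]
  have h2 : DL L0 (fun s _ => decide (Absent d s)) := by
    refine (hu.map₂ a2 (fun a b => !a && !b)).congr (fun s i _ => ?_)
    rw [Bool.eq_iff_iff, decide_eq_true_iff, absent_iff]
    simp only [Bool.and_eq_true, Bool.not_eq_true', decide_eq_false_iff_not]
    apply and_congr_right; intro _
    apply not_congr
    apply exists_congr; intro i
    apply and_congr_right; intro _
    simp [and_assoc]
  have h3 : DL L0 (fun s _ => decide (Prune d s)) := by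
    refine (hu.map₂ a3 (fun a b => a && !b)).congr (fun s i _ => ?_)
    rw [Bool.eq_iff_iff, decide_eq_true_iff, prune_iff]
    simp only [Bool.and_eq_true, Bool.not_eq_true', decide_eq_false_iff_not, decide_eq_true_eq]
    apply and_congr_right; intro _
    apply not_congr
    apply exists_congr; intro i
    apply and_congr_right; intro _
    simp [and_assoc]
  exact he.pair (hu.pair (h2.pair (h1.pair h3)))

end Pool.Agent.Q27.LT
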