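import Pool.Agent.Q27.LT.Consts

/-!
# The contours before and after a step
-/

namespace Pool.Agent.Q27.LT

open FreeGroup

/-- visits before which the letter `d` is inserted -/
def cond (d : D) (e o : Option D) : Bool :=
  decide (o = e.map iv) || (match o with
    | none => false
    | some c => decide (rk d < rk c))

theorem lamp_off {s : St} {x : FG} (h : ¬ (T s).has x.toWord) : s.1 x = 0 := by
  by_contra h1
  exact h ((has_T s _).2 ⟨x, Or.inr h1, List.prefix_refl _⟩)

theorem cen_word (f : FG → ZMod 2) (x : FG) (o : Option D) :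
    cen f (x.toWord, o) = (x, o, true, decide (f x ≠ 0)) := by
  unfold cen
  simp only [mk_toWord]

theorem cut_absent {d : D} {s : St} (h : Absent d s) : ∃ (A B : List Vs) (o : Option D),
    cv (T s) s.1 = A ++ (s.2, o, true, decide (s.1 s.2 ≠ 0)) :: B ∧
    cv (T (mv d s)) s.1 = A ++ (s.2, some d, true, decide (s.1 s.2 ≠ 0)) ::
      ((mv d s).2, some (iv d), true, false) :: (s.2, o, true, decide (s.1 s.2 ≠ 0)) :: B ∧
    (∀ v ∈ A, v.1 = s.2 → cond d s.2.toWord.getLast? v.2.1 = false) ∧
    cond d s.2.toWord.getLast? o = true ∧ cond d s.2.toWord.getLast? (some d) = false := by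
  obtain ⟨hu, h1⟩ := h
  obtain ⟨A, B, e1, e2, e3, o, B', e4, e5⟩ := Q251.LT.s_insert Q251.LT.s_cut Q251.LT.s_node
    (T s) [] s.2.toWord none d (T_pos s) h1
  rw [← T_down hu] at e2
  rw [List.nil_append] at e2
  have hw := word_down hu
  refine ⟨A.map (cen s.1), B'.map (cen s.1), o, ?_, ?_, ?_, ?_, ?_⟩
  · unfold cv
    rw [e1, e4, List.nil_append, List.map_append, List.map_cons, cen_word]
  · unfold cv
    rw [e2, e4, List.nil_append, List.nil_append, ← hw, List.map_append, List.map_cons,
      List.map_cons, List.map_cons, cen_word, cen_word, cen_word]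
    have : s.1 (mv d s).2 = 0 := lamp_off (by rw [hw]; exact h1)
    rw [this]
    simp
  · intro v hv hx
    rw [List.mem_map] at hv
    obtain ⟨w, hw1, rfl⟩ := hv
    have hw3 : (T s).has w.1 := by
      have hm : w ∈ vis (T s) [] none := by rw [e1]; exact List.mem_append_left _ hw1
      obtain ⟨π, g1, g2⟩ := Q251.LT.s_node _ _ _ _ hm
      rw [g1]; exact g2
    have hw2 : w.1 = s.2.toWord := by
      have : FreeGroup.mk w.1 = s.2 := hx
      rw [← this, toWord_red (T_red s hw3)]
    obtain ⟨c, g1, g2, g3⟩ := e3 w hw1 (by simpa using hw2)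
    show cond d _ w.2 = false
    rw [g1]
    unfold cond
    have g4 := T_red s g3
    rw [red_iff] at g4
    have g5 : ¬ (some c = s.2.toWord.getLast?.map iv) := by
      intro g6
      apply g4.2
      cases g7 : s.2.toWord.getLast? with
      | none => rw [g7] at g6; simp at g6
      | some l =>
        rw [g7] at g6
        simp only [Option.map_some, Option.some.injEq] at g6
        rw [g6, iv_iv]
    have g6 : ¬ (rk d < rk c) := by omega
    simp [g5, g6]
  · unfold cond
    rcases e5 with rfl | ⟨c, rfl, g1, -⟩
    · simp [back_eq]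
    · simp [g1]
  · unfold cond
    have g5 : ¬ (some d = s.2.toWord.getLast?.map iv) := by
      intro g6
      apply hu
      unfold Up
      cases g7 : s.2.toWord.getLast? with
      | none => rw [g7] at g6; simp at g6
      | some l =>
        rw [g7] at g6
        simp only [Option.map_some, Option.some.injEq] at g6
        rw [g6, iv_iv]
    simp [g5]

theorem cut_prune {d : D} {s : St} (h : Prune d s) : ∃ (A B : List Vs) (o : Option D) (y y' : Bool),
    cv (T (mv d s)) s.1 = A ++ ((mv d s).2, o, true, y) :: B ∧
    cv (T s) s.1 = A ++ ((mv d s).2, some (iv d), true, y) :: (s.2, some d, true, y') ::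
      ((mv d s).2, o, true, y) :: B ∧
    (∀ v ∈ A, v.1 = (mv d s).2 → v.2.1 ≠ some (iv d)) := by
  obtain ⟨hu, h1⟩ := h
  have hw := word_up hu
  rw [hw] at h1
  obtain ⟨A, B, e1, e2, e3, o, B', e4, e5⟩ := Q251.LT.s_insert Q251.LT.s_cut Q251.LT.s_node
    (T (mv d s)) [] (mv d s).2.toWord none (iv d) (T_pos (mv d s)) h1
  rw [List.nil_append] at e2
  rw [← T_up hu] at e2
  refine ⟨A.map (cen s.1), B'.map (cen s.1), o, decide (s.1 (mv d s).2 ≠ 0),
    decide (s.1 s.2 ≠ 0), ?_, ?_, ?_⟩
  · unfold cv
    rw [e1, e4, List.nil_append, List.map_append, List.map_cons, cen_word]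
  · unfold cv
    rw [e2, e4, List.nil_append, List.nil_append, ← hw, List.map_append, List.map_cons,
      List.map_cons, List.map_cons, cen_word, cen_word, cen_word, iv_iv]
  · intro v hv hx
    rw [List.mem_map] at hv
    obtain ⟨w, hw1, rfl⟩ := hv
    have hw3 : (T (mv d s)).has w.1 := by
      have hm : w ∈ vis (T (mv d s)) [] none := by rw [e1]; exact List.mem_append_left _ hw1
      obtain ⟨π, g1, g2⟩ := Q251.LT.s_node _ _ _ _ hm
      rw [g1]; exact g2
    have hw2 : w.1 = (mv d s).2.toWord := by
      have : FreeGroup.mk w.1 = (mv d s).2 := hx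
      rw [← this, toWord_red (T_red (mv d s) hw3)]
    obtain ⟨c, g1, g2, g3⟩ := e3 w hw1 (by simpa using hw2)
    show w.2 ≠ some (iv d)
    rw [g1]
    intro g4
    rw [Option.some.inj g4] at g2
    omega

/-! ### the change of the heights -/

/-- the lists before the change of the heights -/
noncomputable def W3 (d : D) (X : St → List Vs) (s : St) : List Vs :=
  open Classical in X s ++ (if Up d s then [((mv d s).2, some (iv d), false, false), en s.2]
    else [en s.2, en s.2])

/-- the lists after the change of the heights -/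
noncomputable def W4 (d : D) (X : St → List Vs) (s : St) : List Vs :=
  open Classical in X s ++ (if Up d s then [en (mv d s).2, en (mv d s).2]
    else [(s.2, some d, false, false), en (mv d s).2])

/-- residue of the new height -/
def nres (d : D) (r : Fin 3) (g : Option D) : Fin 3 := if g = some d then r + 2 else r + 1

theorem nres_eq (d : D) (y : FG) : Fin.ofNat 3 (FreeGroup.norm ((gl (some d))⁻¹ * y)) =
    nres d (Fin.ofNat 3 (FreeGroup.norm y)) y.toWord.head? := by
  rw [norm_letter_mul]
  unfold nres
  split_ifs with h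
  · have : 1 ≤ FreeGroup.norm y := by
      unfold FreeGroup.norm
      cases h1 : y.toWord with
      | nil => rw [h1] at h; simp at h
      | cons a l => simp
    apply Fin.ext
    simp [Fin.ofNat, Fin.val_add]
    omega
  · apply Fin.ext
    simp [Fin.ofNat, Fin.val_add]

/-- first letter of the way from `p` to the visit `i` -/
def dir (p : FG) (W : List Vs) (i : ℕ) : Option D := (p⁻¹ * (gx W i).1).toWord.head?

theorem dir_step {p : FG} {W : List Vs} (hW : Ch W) {i : ℕ} (hi : i + 1 < W.length) :
    dir p W i = if (gx W i).1 = p then none else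
      if (gx W (i + 1)).1 = p then (gx W i).2.1.map iv else dir p W (i + 1) := by
  have h1 := List.isChain_iff_getElem.1 hW i (by omega)
  rw [← gx_lt (L := W) (i := i) (by omega), ← gx_lt (L := W) (i := i + 1) (by omega)] at h1
  unfold dir
  by_cases h2 : (gx W i).1 = p
  · rw [if_pos h2, h2]; simp
  · rw [if_neg h2]
    by_cases h3 : (gx W (i + 1)).1 = p
    · rw [if_pos h3]
      rw [h3] at h1
      cases h4 : (gx W i).2.1 with
      | none =>
        rw [h4] at h1
        exact absurd (by simpa [gl] using h1.symm) h2
      | some c =>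
        rw [h4] at h1
        have h5 : p⁻¹ * (gx W i).1 = (gl (some c))⁻¹ := by rw [h1]; group
        rw [h5, head_inv_letter]; rfl
    · rw [if_neg h3, h1, ← mul_assoc]
      cases h4 : (gx W i).2.1 with
      | none => simp [gl]
      | some c =>
        rw [h4] at h1
        symm
        apply head_mul
        · intro h5; exact h2 (inv_mul_eq_one.1 h5).symm
        · intro h5
          apply h3
          rw [h1]
          rw [mul_assoc] at h5
          exact (inv_mul_eq_one.1 h5).symm

end Pool.Agent.Q27.LT
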