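import Pool.Agent.Q27.LT.Upd

/-!
# The right end of the tape
-/

namespace Pool.Agent.Q27.LT

/-- `Y` (of lengths `N'`) is computed from `X` (of lengths `N`) by one sweep -/
def Red {ι A B : Type} (N : ι → ℕ) (X : ι → ℕ → A) (N' : ι → ℕ) (Y : ι → ℕ → B) : Prop :=
  ∃ F : List A → List B, Sweep F ∧ ∀ s, F (word (N s) (X s)) = word (N' s) (Y s)

section
variable {ι A B C : Type} {N N' N'' : ι → ℕ} {X : ι → ℕ → A} {Y : ι → ℕ → B} {Z : ι → ℕ → C}

theorem Der.red (h : Der N X Y) : Red N X N Y := by
  obtain ⟨F, hF, h1⟩ := h
  exact ⟨F, Sweep.lp hF, h1⟩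

theorem Red.trans [Finite B] (h : Red N X N' Y) (h' : Red N' Y N'' Z) : Red N X N'' Z := by
  obtain ⟨F, hF, h1⟩ := h
  obtain ⟨G, hG, h2⟩ := h'
  exact ⟨_, Sweep.comp hF hG, fun s => by rw [h1, h2]⟩

/-- an action at the right end -/
theorem Red.tail {Q : Type} [Finite Q] (q0 : Q) (f : Q → A → Q) (σ : ι → ℕ → Q)
    (t : Q → Act A) (h0 : ∀ s, σ s 0 = q0)
    (h : ∀ s, ∀ j < N s, σ s (j + 1) = f (σ s j) (X s j)) (X' : ι → ℕ → A)
    (e : ∀ s, ∀ j < N s, j < N' s → X' s j = X s j)
    (hk : ∀ s, t (σ s (N s)) = Act.keep → N' s = N s)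
    (hp : ∀ s a, t (σ s (N s)) = Act.push a → N' s = N s + 1 ∧ X' s (N s) = a)
    (hq : ∀ s, t (σ s (N s)) = Act.pop → N s = N' s + 1) :
    Red N X N' X' := by
  refine ⟨tailop f q0 t, Sweep.tail f q0 t, fun s => ?_⟩
  unfold tailop
  have h1 := foldl_word f (N s) (X s) (σ s) (h s)
  rw [h0] at h1
  rw [h1]
  rcases ht : t (σ s (N s)) with _ | a | _
  · have h2 := hk s ht
    rw [h2]
    exact word_congr (fun j hj => (e s j hj (by omega)).symm)
  · obtain ⟨h2, h3⟩ := hp s a ht
    rw [h2, word_succ', h3]
    show word (N s) (X s) ++ [a] = word (N s) (X' s) ++ [a]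
    rw [word_congr (fun j hj => (e s j hj (by omega)))]
  · have h2 := hq s ht
    rw [h2, word_succ']
    show (word (N' s) (X s) ++ [X s (N' s)]).dropLast = word (N' s) (X' s)
    rw [List.dropLast_concat]
    exact word_congr (fun j hj => (e s j (by omega) hj).symm)

end

/-! ### tapes -/

/-- tape symbols: code, parity label, mark of the middle, payload -/
abbrev TS (Pl : Type) := Cell × Bool × Bool × Pl

/-- the tape of length `N` with heights `h` and payload `P` (one letter for every pair of
positions) -/
def tape {Pl : Type} (N : ℕ) (h : ℕ → ℕ) (P : ℕ → Pl) (j : ℕ) : TS Pl :=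
  (code h j, beta j, decide (j = N / 2), P (j / 2))

section
variable {ι Pl Pl' : Type} [Finite Pl] [Finite Pl'] {N : ι → ℕ} {h h' : ι → ℕ → ℕ}
  {P : ι → ℕ → Pl} {P' : ι → ℕ → Pl'}

/-- the update of the heights and the payload -/
theorem updTape (S : Step N h h')
    (hr : Der N (fun s => tape (N s) (h s) (P s)) (fun s j => Fin.ofNat 3 (h' s j)))
    (hP : Der N (fun s => tape (N s) (h s) (P s)) (fun s j => P' s (j / 2))) :
    Der N (fun s => tape (N s) (h s) (P s)) (fun s => tape (N s) (h' s) (P' s)) := by
  have h0 := Der.refl (N := N) (fun s => tape (N s) (h s) (P s))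
  have h1 := upd S (h0.map (·.1)) hr (h0.map (·.2.1))
  exact (h1.pair ((h0.map (·.2.1)).pair ((h0.map (·.2.2.1)).pair hP)))

/-- the code of a block of length one -/
def cell1 (x : ℕ) (p : Bool) : Cell where
  s := true
  m1 := some (Fin.ofNat 5 x)
  mh := some (p, false, decide ((3 - x) % 2 = 1))
  mw := true
  c := Fin.ofNat 3 x

theorem bn_one {h : ℕ → ℕ} (t : Tame h) {j : ℕ} (hj : h j ≤ 3) : bn h j = 1 ∧ bst h j = j := by
  have b : IsBl h j 1 := by
    refine ⟨⟨0, rfl⟩, one_dvd _, Or.inl rfl, ?_⟩
    have := t.lip (j - j % (2 * 1)) j (by omega)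
    omega
  have := b.eq t (le_refl j) (by omega)
  exact ⟨this.2, this.1⟩

theorem code_one {h : ℕ → ℕ} (t : Tame h) {j : ℕ} (hj : h j ≤ 3) :
    code h j = cell1 (h j) (decide (j % 2 = 1)) := by
  obtain ⟨h1, h2⟩ := bn_one t hj
  have hz : z 1 (h j) = 0 := by have := z_lt (le_refl 1) (h j); omega
  have hHD : HD h j = j := by unfold HD; rw [h1, h2, kk_one, Nat.add_zero]
  have hP1 : P1 h j = j := by unfold P1; rw [h1, h2, hz, Nat.add_zero]
  have hPW : PW h j = j := by unfold PW; rw [hHD, h2]; simp [ee]
  unfold code cell1 pr sg tp qt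
  rw [hHD, hP1, hPW, h1, h2]
  simp

theorem beta_even (m : ℕ) (hm : 1 ≤ m) : beta (2 * m) = beta m := by
  rw [beta, dif_neg (by omega), if_pos (by omega), Nat.mul_div_cancel_left _ (by norm_num)]

theorem beta_odd (m : ℕ) : beta (2 * m + 1) = decide (m % 2 = 1) := by
  rw [beta, dif_neg (by omega), if_neg (by omega)]
  congr 2; omega

/-- the height of a cell of small height -/
def cval (c : Cell) : ℕ := (c.m1.getD 0).val

theorem cval_one (x : ℕ) (hx : x ≤ 3) (p : Bool) : cval (cell1 x p) = x := by
  simp [cval, cell1]; omega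

/-- the state that collects the data needed at the right end: the last letter, the parity of the
position, the label and the parity of the position of the middle mark -/
abbrev EQ (Pl : Type) := Option (TS Pl × Bool) × Bool × Bool × Bool

def ef (q : EQ Pl) (a : TS Pl × Bool) : EQ Pl :=
  (some a, !q.2.1, if a.1.2.2.1 then a.1.2.1 else q.2.2.1, if a.1.2.2.1 then q.2.1 else q.2.2.2)

/-- the state after `j` letters -/
def eσ (m : ℕ) (X : ℕ → TS Pl × Bool) (j : ℕ) : EQ Pl :=
  (if j = 0 then none else some (X (j - 1)), decide (j % 2 = 1),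
    if m < j then beta m else false, if m < j then decide (m % 2 = 1) else false)

omit [Finite Pl] in
theorem eσ_succ {X : ℕ → TS Pl × Bool} {m M : ℕ}
    (hX : ∀ j < M, (X j).1.2.1 = beta j ∧ (X j).1.2.2.1 = decide (j = m)) (j : ℕ) (hj : j < M) :
    eσ m X (j + 1) = ef (eσ m X j) (X j) := by
  obtain ⟨h1, h2⟩ := hX j hj
  unfold eσ ef
  rw [h1, h2]
  simp only [Nat.succ_ne_zero, if_false, Nat.add_sub_cancel, decide_eq_true_eq]
  have e1 : decide ((j + 1) % 2 = 1) = !decide (j % 2 = 1) := by
    rcases Nat.mod_two_eq_zero_or_one j with h | h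
    · have : (j + 1) % 2 = 1 := by omega
      simp [h, this]
    · have : (j + 1) % 2 = 0 := by omega
      simp [h, this]
  rw [e1]
  by_cases h3 : j = m
  · subst h3; simp
  · have h4 : (m < j + 1) ↔ m < j := by omega
    simp [h3, h4]

/-- repeat the last pair of positions, if the flag is true -/
theorem appendIf {φ : ι → Bool} (hφ : Der N (fun s => tape (N s) (h s) (P s)) (fun s _ => φ s))
    (t : ∀ s, Tame (h s)) (tl : ∀ s, Tail (N s) (h s)) (h2 : ∀ s, 2 ≤ N s)
    (hh : ∀ s, φ s = true → h s (N s) = h s (N s - 1))
    (hP : ∀ s, φ s = true → P s (N s / 2) = P s (N s / 2 - 1)) :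
    Red N (fun s => tape (N s) (h s) (P s)) (fun s => if φ s then N s + 2 else N s)
      (fun s => tape (if φ s then N s + 2 else N s) (h s) (P s)) := by
  -- attach the flag
  have r0 : Der N (fun s => tape (N s) (h s) (P s))
      (fun s j => (tape (N s) (h s) (P s) j, φ s)) := hφ.dup
  -- first letter
  let X1 : ι → ℕ → TS Pl × Bool := fun s j => (tape (N s) (h s) (P s) j, φ s)
  let N1 : ι → ℕ := fun s => if φ s then N s + 1 else N s
  let N2 : ι → ℕ := fun s => if φ s then N s + 2 else N s
  have hN1 : ∀ s, N s ≤ N1 s := by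
    intro s
    show N s ≤ if φ s then N s + 1 else N s
    split_ifs <;> omega
  have hodd : ∀ s, φ s = true → h s (N s + 1) = h s (N s - 1) := by
    intro s hs
    have h1 := (tl s).1
    have h3 := (t s).even (N s / 2)
    have e : 2 * (N s / 2) = N s := by omega
    rw [e] at h3
    rw [h3, hh s hs]
  have r1 : Red N X1 N1 X1 := by
    refine Red.tail (none, false, false, false) ef (fun s => eσ (N s / 2) (X1 s))
      (fun q => match q.1 with
        | none => Act.keep
        | some a => if a.2 then Act.push ((cell1 (cval a.1.1) false, q.2.2.1, false, a.1.2.2.2), true)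
            else Act.keep) ?_ ?_ X1 ?_ ?_ ?_ ?_
    · intro s; simp [eσ]
    · intro s j hj
      exact eσ_succ (M := N s) (fun i _ => ⟨rfl, rfl⟩) j hj
    · intros; rfl
    · intro s hk
      have h3 : ¬ (N s = 0) := by have := h2 s; omega
      simp only [eσ, h3, if_false, X1, N1] at hk ⊢
      by_cases hs : φ s = true
      · rw [hs] at hk; simp at hk
      · rw [if_neg hs]
    · intro s a hk
      have h3 : ¬ (N s = 0) := by have := h2 s; omega
      simp only [eσ, h3, if_false, X1, N1] at hk ⊢
      by_cases hs : φ s = true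
      · rw [hs] at hk ⊢
        simp only [if_true, Act.push.injEq] at hk ⊢
        refine ⟨trivial, ?_⟩
        rw [← hk]
        have h4 := (tl s).1
        have h5 := (tl s).2
        have h6 := h2 s
        unfold tape
        rw [code_one (t s) h5, cval_one _ h5, code_one (t s) (by rw [hh s hs]; exact h5), hh s hs]
        have e1 : decide (N s % 2 = 1) = false := by rw [h4]; rfl
        have e2 : beta (N s) = beta (N s / 2) := by
          conv_lhs => rw [show N s = 2 * (N s / 2) by omega]
          exact beta_even _ (by omega)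
        have e3 : decide (N s = N s / 2) = false := by simp; omega
        have e4 : (N s - 1) / 2 = N s / 2 - 1 := by omega
        rw [e1, e2, e3, hP s hs, if_pos (by omega), e4]
      · simp only [Bool.not_eq_true] at hs
        rw [hs] at hk; simp at hk
    · intro s hk
      have h3 : ¬ (N s = 0) := by have := h2 s; omega
      simp only [eσ, h3, if_false, X1] at hk
      split_ifs at hk
  have r2 : Red N1 X1 N2 X1 := by
    refine Red.tail (none, false, false, false) ef (fun s => eσ (N s / 2) (X1 s))
      (fun q => match q.1 with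
        | none => Act.keep
        | some a => if a.2 then Act.push ((cell1 (cval a.1.1) true, q.2.2.2, false, a.1.2.2.2), true)
            else Act.keep) ?_ ?_ X1 ?_ ?_ ?_ ?_
    · intro s; simp [eσ]
    · intro s j hj
      exact eσ_succ (M := N1 s) (fun i _ => ⟨rfl, rfl⟩) j hj
    · intros; rfl
    · intro s hk
      have h3 : ¬ (N1 s = 0) := by have := h2 s; have := hN1 s; omega
      simp only [eσ, h3, if_false, X1] at hk
      simp only [N1, N2]
      by_cases hs : φ s = true
      · rw [hs] at hk; simp at hk
      · rw [if_neg hs, if_neg hs]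
    · intro s a hk
      have h3 : ¬ (N1 s = 0) := by have := h2 s; have := hN1 s; omega
      simp only [eσ, h3, if_false, X1] at hk
      by_cases hs : φ s = true
      · have n1 : N1 s = N s + 1 := by simp only [N1]; rw [if_pos hs]
        have n2 : N2 s = N s + 2 := by simp only [N2]; rw [if_pos hs]
        rw [hs, n1, Nat.add_sub_cancel] at hk
        rw [n1, n2]
        simp only [if_true, Act.push.injEq] at hk
        refine ⟨rfl, ?_⟩
        rw [← hk]
        have h4 := (tl s).1
        have h5 := (tl s).2
        have h6 := h2 s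
        have h7 := hh s hs
        simp only [X1, hs]
        unfold tape
        rw [code_one (j := N s) (t s) (by rw [h7]; exact h5), h7, cval_one _ h5,
          code_one (j := N s + 1) (t s) (by rw [hodd s hs]; exact h5), hodd s hs]
        have e1 : decide ((N s + 1) % 2 = 1) = true := by simp; omega
        have e2 : beta (N s + 1) = decide ((N s / 2) % 2 = 1) := by
          conv_lhs => rw [show N s + 1 = 2 * (N s / 2) + 1 by omega]
          exact beta_odd _
        have e3 : decide (N s + 1 = N s / 2) = false := by simp; omega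
        have e4 : (N s + 1) / 2 = N s / 2 := by omega
        rw [e1, e2, e3, if_pos (by omega), e4]
      · simp only [Bool.not_eq_true] at hs
        rw [hs] at hk; simp at hk
    · intro s hk
      have h3 : ¬ (N1 s = 0) := by have := h2 s; have := hN1 s; omega
      simp only [eσ, h3, if_false, X1] at hk
      split_ifs at hk
  -- move the middle mark
  have r3 : Der N2 X1 (fun s => tape (N2 s) (h s) (P s)) := by
    have h0 := Der.refl (N := N2) X1
    have h1 := (h0.map (fun a => a.1.2.2.1)).prev false
    refine (h0.map₂ h1 (fun a m => ((a.1.1, a.1.2.1, (if a.2 then m else a.1.2.2.1), a.1.2.2.2) :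
      TS Pl))).congr ?_
    intro s j hj
    simp only [X1, tape, N2]
    by_cases hs : φ s = true
    · simp only [hs, if_true]
      have h4 := (tl s).1
      have h6 := h2 s
      by_cases hj0 : j = 0
      · subst hj0
        have : ¬ (0 = (N s + 2) / 2) := by omega
        simp
      · rw [if_neg hj0]
        have : (j - 1 = N s / 2) ↔ (j = (N s + 2) / 2) := by omega
        simp only [this]
    · simp only [hs, if_false, Bool.false_eq_true]
  exact ((r0.red.trans r1).trans r2).trans r3.red

/-- remove the last pair of positions, if the flag is true -/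
theorem chopIf {φ : ι → Bool} (hφ : Der N (fun s => tape (N s) (h s) (P s)) (fun s _ => φ s))
    (hN : ∀ s, N s % 2 = 0) (h2 : ∀ s, 2 ≤ N s) (h4 : ∀ s, φ s = true → 4 ≤ N s) :
    Red N (fun s => tape (N s) (h s) (P s)) (fun s => if φ s then N s - 2 else N s)
      (fun s => tape (if φ s then N s - 2 else N s) (h s) (P s)) := by
  let N1 : ι → ℕ := fun s => if φ s then N s - 1 else N s
  let N2 : ι → ℕ := fun s => if φ s then N s - 2 else N s
  let X1 : ι → ℕ → TS Pl × Bool := fun s j => (tape (N2 s) (h s) (P s) j, φ s)
  have hN1 : ∀ s, N s ≤ N1 s + 1 := by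
    intro s
    show N s ≤ (if φ s then N s - 1 else N s) + 1
    split_ifs <;> omega
  have r0 : Der N (fun s => tape (N s) (h s) (P s)) X1 := by
    have h0 := Der.refl (N := N) (fun s => tape (N s) (h s) (P s))
    have h1 := (h0.map (fun a => a.2.2.1)).next false
    refine ((h0.pair hφ).map₂ h1 (fun a m => (((a.1.1, a.1.2.1,
      (if a.2 then m else a.1.2.2.1), a.1.2.2.2) : TS Pl), a.2))).congr ?_
    intro s j hj
    simp only [X1, tape, N2]
    by_cases hs : φ s = true
    · simp only [hs, if_true]
      have h5 := hN s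
      have h6 := h4 s hs
      by_cases hj1 : j + 1 < N s
      · rw [if_pos hj1]
        have : (j + 1 = N s / 2) ↔ (j = (N s - 2) / 2) := by omega
        simp only [this]
      · rw [if_neg hj1]
        have : ¬ (j = (N s - 2) / 2) := by omega
        simp [this]
    · simp only [hs, if_false, Bool.false_eq_true]
  let f : Option Bool → TS Pl × Bool → Option Bool := fun _ a => some a.2
  let σ : ι → ℕ → Option Bool := fun s j => if j = 0 then none else some (φ s)
  have r1 : Red N X1 N1 X1 := by
    refine Red.tail none f σ (fun q => if q = some true then Act.pop else Act.keep)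
      (fun s => by simp [σ]) (fun s j hj => by simp [σ, f, X1]) X1 (fun _ _ _ _ => rfl) ?_ ?_ ?_
    · intro s hk
      have h3 : ¬ (N s = 0) := by have := h2 s; omega
      simp only [σ, h3, if_false] at hk
      simp only [N1]
      by_cases hs : φ s = true
      · rw [hs] at hk; simp at hk
      · rw [if_neg hs]
    · intro s a hk
      split_ifs at hk
    · intro s hk
      have h3 : ¬ (N s = 0) := by have := h2 s; omega
      simp only [σ, h3, if_false] at hk
      simp only [N1]
      by_cases hs : φ s = true
      · rw [if_pos hs]; have := h2 s; omega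
      · simp only [Bool.not_eq_true] at hs
        rw [hs] at hk; simp at hk
  have r2 : Red N1 X1 N2 X1 := by
    refine Red.tail none f σ (fun q => if q = some true then Act.pop else Act.keep)
      (fun s => by simp [σ]) (fun s j hj => by simp [σ, f, X1]) X1 (fun _ _ _ _ => rfl) ?_ ?_ ?_
    · intro s hk
      have h3 : ¬ (N1 s = 0) := by have := h2 s; have := hN1 s; omega
      simp only [σ, h3, if_false] at hk
      simp only [N1, N2]
      by_cases hs : φ s = true
      · rw [hs] at hk; simp at hk
      · rw [if_neg hs, if_neg hs]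
    · intro s a hk
      split_ifs at hk
    · intro s hk
      have h3 : ¬ (N1 s = 0) := by have := h2 s; have := hN1 s; omega
      simp only [σ, h3, if_false] at hk
      simp only [N1, N2]
      by_cases hs : φ s = true
      · rw [if_pos hs, if_pos hs]; have := h2 s; omega
      · simp only [Bool.not_eq_true] at hs
        rw [hs] at hk; simp at hk
  have r3 : Der N2 X1 (fun s => tape (N2 s) (h s) (P s)) :=
    (Der.refl (N := N2) X1).map (fun a => a.1)
  exact ((r0.red.trans r1).trans r2).trans r3.red

end

end Pool.Agent.Q27.LT
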