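import Mathlib

/-!
# The restricted wreath product of `ℤ/2` and the free group on two generators
-/

namespace Pool.Agent.Q27.LT

/-- translation of the indices: `(act p f) x = f (p⁻¹ * x)` -/
noncomputable def act : FreeGroup (Fin 2) →*
    MulAut (Multiplicative (FreeGroup (Fin 2) →₀ ZMod 2)) where
  toFun p := AddEquiv.toMultiplicative (Finsupp.domCongr (Equiv.mulLeft p))
  map_one' := by
    ext f x
    simp
    rfl
  map_mul' p q := by
    ext f x
    simp
    rfl

/-- the restricted wreath product of `ℤ/2` and the free group on two generators: finitely supported
functions on the free group with values in `ℤ/2`, on which the free group acts by translations -/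
abbrev Lamp : Type := Multiplicative (FreeGroup (Fin 2) →₀ ZMod 2) ⋊[act] FreeGroup (Fin 2)

end Pool.Agent.Q27.LT
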