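import Pool.Agent.Q27.LT.Pipe2
import Pool.Agent.Q27.LT.Lamp
import Pool.Agent.Q154.LT.Machine
import Pool.Agent.Q195.LT.Comp
import Pool.Agent.Q195.LT.Lintime
import Pool.Agent.Q102.LT.ROUNDS
import Pool.Agent.Q53.LT.Round

/-!
# The lamplighter group over the free group of rank two
-/

namespace Pool.Agent.Q27.LT

open FreeGroup

/-- sweeps are computed in linear time -/
theorem lintime : S_lintime :=
  Q195.LT.s_lintime Q102.LT.ROUNDS.s_rounds s_round Q195.LT.s_comp Q154.LT.t_MACHINE

/-! ### injectivity -/

theorem ch_W0 (s : St) : Ch (W0 s) := ch_Wt (T_nil s) _ _ _ mk_toWord.symm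

theorem W0_ne (s : St) : W0 s ≠ [] := by unfold W0; simp

theorem W0_head (s : St) : (gx (W0 s) 0).1 = 1 := by
  obtain ⟨o, B, h, -⟩ := Q285.LT.first (T s) [] none (T_nil s)
  have hc : cv (T s) s.1 = cen s.1 ([], o) :: B.map (cen s.1) := by
    unfold cv; rw [h]; rfl
  have hw : W0 s = cen s.1 ([], o) :: (B.map (cen s.1) ++ tX [] s.2.toWord ++ [en s.2]) := by
    unfold W0 Wt; rw [hc]; simp
  rw [hw, gx_lt (by simp)]
  show (FreeGroup.mk [] : FG) = 1
  exact FreeGroup.one_eq_mk.symm

theorem W0_inj {s s' : St} (h : enc (L0 s) = enc (L0 s')) : W0 s = W0 s' := by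
  obtain ⟨h1, h2⟩ := word_inj h
  have hl : (W0 s).length = (W0 s').length := by
    unfold L0 at h1
    rw [List.length_map, List.length_map] at h1
    omega
  have hp : ∀ i < (W0 s).length, (gx (W0 s) i).2 = (gx (W0 s') i).2 := by
    intro i hi
    have h3 := h2 (2 * i) (by unfold L0; rw [List.length_map]; omega)
    have h4 : pp (L0 s) i = pp (L0 s') i := by
      have h5 := congrArg (fun a : TS Pay => a.2.2.2) h3
      simp only [ltp, tape] at h5
      rwa [Nat.mul_div_cancel_left _ (by norm_num : 0 < 2)] at h5
    unfold pp L0 at h4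
    rw [gx_map (W0_ne s), gx_map (W0_ne s')] at h4
    exact h4
  have hn : ∀ i < (W0 s).length, (gx (W0 s) i).1 = (gx (W0 s') i).1 := by
    intro i
    induction i with
    | zero => intro _; rw [W0_head, W0_head]
    | succ i ih =>
      intro hi
      have c1 := List.isChain_iff_getElem.1 (ch_W0 s) i (by omega)
      have c2 := List.isChain_iff_getElem.1 (ch_W0 s') i (by omega)
      rw [← gx_lt (L := W0 s) (i := i) (by omega), ← gx_lt (L := W0 s) (i := i + 1) (by omega)] at c1
      rw [← gx_lt (L := W0 s') (i := i) (by omega),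
        ← gx_lt (L := W0 s') (i := i + 1) (by omega)] at c2
      rw [c1, c2, ih (by omega), hp i (by omega)]
  apply List.ext_getElem hl
  intro i i1 i2
  rw [← gx_lt i1, ← gx_lt i2]
  exact Prod.ext (hn i i1) (hp i i1)

theorem lamp_of_W0 {s s' : St} (h : W0 s = W0 s') (x : FG) (hx : s.1 x ≠ 0) : s'.1 x ≠ 0 := by
  have h1 : (T s).has x.toWord := (has_T s _).2 ⟨x, Or.inr hx, List.prefix_refl _⟩
  have h2 : (x, (back x.toWord none, true, true)) ∈ cv (T s) s.1 := by
    rw [mem_cv]
    exact ⟨by simp [hx], h1, Or.inr rfl⟩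
  have h3 : (x, (back x.toWord none, true, true)) ∈ W0 s' := by
    rw [← h]
    unfold W0 Wt
    exact List.mem_append_left _ (List.mem_append_left _ h2)
  unfold W0 Wt at h3
  rw [List.mem_append, List.mem_append] at h3
  rcases h3 with (h3 | h3) | h3
  · rw [mem_cv] at h3
    simpa using h3.1
  · exact absurd (tX_reg h3) (by simp)
  · simp [en] at h3

theorem enc_inj : Function.Injective (fun s : St => enc (L0 s)) := by
  intro s s' h
  have hW := W0_inj h
  have h2 : s.2 = s'.2 := by
    have := congrArg (fun W => W.getLast?) hW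
    simp only [W0, List.getLast?_append, List.getLast?_singleton] at this
    simpa [en] using this
  have h1 : s.1 = s'.1 := by
    ext x
    have key : s.1 x ≠ 0 ↔ s'.1 x ≠ 0 := ⟨lamp_of_W0 hW x, lamp_of_W0 hW.symm x⟩
    revert key
    generalize s.1 x = a
    generalize s'.1 x = b
    revert a b
    decide
  exact Prod.ext h1 h2

/-! ### the group -/

/-- the element of a state -/
noncomputable def toG : St ≃ Lamp where
  toFun s := ⟨Multiplicative.ofAdd s.1, s.2⟩
  invFun g := (Multiplicative.toAdd g.left, g.right)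
  left_inv _ := rfl
  right_inv _ := rfl

theorem act_single (p x : FG) (a : ZMod 2) :
    act p (Multiplicative.ofAdd (Finsupp.single x a)) =
      Multiplicative.ofAdd (Finsupp.single (p * x) a) := by
  apply Multiplicative.toAdd.injective
  show Finsupp.domCongr (Equiv.mulLeft p) (Finsupp.single x a) = Finsupp.single (p * x) a
  simp [Finsupp.domCongr]

/-- the letters -/
noncomputable def lt' (d : D) : Lamp := SemidirectProduct.inr (gl (some d))

/-- the lamp at the origin -/
noncomputable def lp : Lamp := SemidirectProduct.inl (Multiplicative.ofAdd (Finsupp.single 1 1))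

theorem toG_mv (d : D) (s : St) : toG (mv d s) = toG s * lt' d := by
  apply SemidirectProduct.ext
  · show Multiplicative.ofAdd s.1 = Multiplicative.ofAdd s.1 * act s.2 1
    rw [_root_.map_one, mul_one]
  · rfl

theorem toG_tog (s : St) : toG (tog s) = toG s * lp := by
  apply SemidirectProduct.ext
  · show Multiplicative.ofAdd (s.1 + Finsupp.single s.2 1) = Multiplicative.ofAdd s.1 *
      act s.2 (Multiplicative.ofAdd (Finsupp.single 1 1))
    rw [act_single, mul_one]; rfl
  · show s.2 = s.2 * 1
    rw [mul_one]

/-- the generators -/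
def gens : Set Lamp := Set.range lt' ∪ {lp}

theorem gens_closure : Submonoid.closure gens = ⊤ := by
  have h1 : ∀ p : FG, (SemidirectProduct.inr p : Lamp) ∈ Submonoid.closure gens := by
    intro p
    rw [← mk_toWord (x := p)]
    generalize p.toWord = π
    induction π using List.reverseRecOn with
    | nil =>
      rw [← FreeGroup.one_eq_mk, _root_.map_one]; exact one_mem _
    | append_singleton π c ih =>
      rw [mk_snoc, _root_.map_mul]
      exact mul_mem ih (Submonoid.subset_closure (Or.inl ⟨c, rfl⟩))
  have h2 : ∀ f : FG →₀ ZMod 2, (SemidirectProduct.inl (Multiplicative.ofAdd f) : Lamp) ∈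
      Submonoid.closure gens := by
    intro f
    induction f using Finsupp.induction with
    | zero => exact (_root_.map_one (SemidirectProduct.inl (φ := act))) ▸ one_mem _
    | single_add x b f _ hb ih =>
      rw [ofAdd_add, _root_.map_mul]
      refine mul_mem ?_ ih
      have hb' : b = 1 := by revert b; decide
      subst hb'
      have e : (SemidirectProduct.inl (Multiplicative.ofAdd (Finsupp.single x (1 : ZMod 2))) : Lamp) =
          SemidirectProduct.inr x * lp * SemidirectProduct.inr x⁻¹ := by
        unfold lp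
        rw [← SemidirectProduct.inl_aut, act_single, mul_one]
      rw [e]
      exact mul_mem (mul_mem (h1 x) (Submonoid.subset_closure (Or.inr rfl))) (h1 _)
  rw [eq_top_iff]
  intro g _
  rw [← SemidirectProduct.inl_left_mul_inr_right g]
  exact mul_mem (h2 (Multiplicative.toAdd g.left)) (h1 g.right)

/-- right multiplication is a sweep -/
theorem sweep_mul (g : Lamp) : ∃ F : List (TS Pay) → List (TS Pay), Sweep F ∧
    ∀ s : St, F (enc (L0 s)) = enc (L0 (toG.symm (toG s * g))) := by
  have hg : g ∈ Submonoid.closure gens := by rw [gens_closure]; trivial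
  induction hg using Submonoid.closure_induction with
  | mem x hx =>
    rcases hx with ⟨d, rfl⟩ | hx
    · obtain ⟨F, hF, h⟩ := rl_move d
      refine ⟨F, hF, fun s => ?_⟩
      rw [← toG_mv, Equiv.symm_apply_apply]
      exact h s
    · rw [Set.mem_singleton_iff] at hx
      subst hx
      obtain ⟨F, hF, h⟩ := rl_tog
      refine ⟨F, hF, fun s => ?_⟩
      rw [← toG_tog, Equiv.symm_apply_apply]
      exact h s
  | one =>
    obtain ⟨F, hF, h⟩ := Der.red (Der.refl (N := fun s => 2 * (L0 s).length) (fun s => ltp (L0 s)))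
    refine ⟨F, hF, fun s => ?_⟩
    rw [mul_one, Equiv.symm_apply_apply]
    exact h s
  | mul x y _ _ hx hy =>
    obtain ⟨F, hF, h⟩ := hx
    obtain ⟨F', hF', h'⟩ := hy
    refine ⟨_, Sweep.comp hF hF', fun s => ?_⟩
    rw [h, h', Equiv.apply_symm_apply, mul_assoc]

end Pool.Agent.Q27.LT
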