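import Mathlib

/-!
# Trees of reduced words and their contours
-/

namespace Pool.Agent.Q27.LT

/-- letters of the free group on two generators -/
abbrev D := Fin 2 × Bool

/-- the inverse letter -/
def iv (d : D) : D := (d.1, !d.2)

/-- the rank of a letter -/
def rk (d : D) : ℕ := 2 * d.1.val + (if d.2 then 1 else 0)

/-- finite trees whose edges are labelled by letters -/
inductive Tr where
  | nil : Tr
  | nd : (D → Tr) → Tr

/-- the tree is empty -/
def Tr.isNil : Tr → Bool
  | .nil => true
  | .nd _ => false

/-- the word is a node of the tree -/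
def Tr.has : Tr → List D → Prop
  | .nil, _ => False
  | .nd _, [] => True
  | .nd c, s :: π => (c s).has π

/-- add a node with all its prefixes -/
def ins : List D → Tr → Tr
  | [], .nil => .nd (fun _ => .nil)
  | [], .nd c => .nd c
  | s :: π, .nil => .nd (Function.update (fun _ => .nil) s (ins π .nil))
  | s :: π, .nd c => .nd (Function.update c s (ins π (c s)))

/-- The contour of a tree: the list of visits of a closed walk around the tree. Every visit is a
node and the letter of the next edge; `acc` is the name of the root of the tree and `b` the letter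
of the edge back from the root. -/
def vis : Tr → List D → Option D → List (List D × Option D)
  | .nil, _, _ => []
  | .nd c, acc, b =>
    (if (c (0, false)).isNil then [] else
      (acc, some (0, false)) :: vis (c (0, false)) (acc ++ [(0, false)]) (some (iv (0, false)))) ++
    (if (c (0, true)).isNil then [] else
      (acc, some (0, true)) :: vis (c (0, true)) (acc ++ [(0, true)]) (some (iv (0, true)))) ++
    (if (c (1, false)).isNil then [] else
      (acc, some (1, false)) :: vis (c (1, false)) (acc ++ [(1, false)]) (some (iv (1, false)))) ++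
    (if (c (1, true)).isNil then [] else
      (acc, some (1, true)) :: vis (c (1, true)) (acc ++ [(1, true)]) (some (iv (1, true)))) ++
    [(acc, b)]

/-- the visits of the child `s` -/
def pc (c : D → Tr) (acc : List D) (s : D) : List (List D × Option D) :=
  if (c s).isNil then [] else (acc, some s) :: vis (c s) (acc ++ [s]) (some (iv s))

/-- the letters of smaller rank than `s`, in order -/
def lo (s : D) : List D := [((0 : Fin 2), false), (0, true), (1, false), (1, true)].filter
  (fun t => decide (rk t < rk s))

/-- the letters of larger rank than `s`, in order -/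
def hi (s : D) : List D := [((0 : Fin 2), false), (0, true), (1, false), (1, true)].filter
  (fun t => decide (rk s < rk t))

/-- the letter of the edge back from the node `π` -/
def back (π : List D) (b : Option D) : Option D :=
  match π.getLast? with
  | none => b
  | some l => some (iv l)

/-- The contour can be cut at any child. (Check the four cases of `s`.) -/
def S_cut : Prop := ∀ (c : D → Tr) (acc : List D) (b : Option D) (s : D),
  vis (.nd c) acc b = (lo s).flatMap (pc c acc) ++ pc c acc s ++ (hi s).flatMap (pc c acc) ++
    [(acc, b)]

/-- Trees are determined by their nodes. (Induction.) -/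
def S_ext : Prop := ∀ t t' : Tr, (∀ π, t.has π ↔ t'.has π) → t = t'

/-- The nodes after adding `ρ`. (Induction on `ρ`, generalizing `t`, `π`.) -/
def S_ins : Prop := ∀ (ρ : List D) (t : Tr) (π : List D), (ins ρ t).has π ↔ t.has π ∨ π <+: ρ

/-- Every visit is a visit of a node. (Induction.) -/
def S_node : Prop := ∀ (t : Tr) (acc : List D) (b : Option D) (v : List D × Option D),
  v ∈ vis t acc b → ∃ π, v.1 = acc ++ π ∧ t.has π

/-- The visits of a given node: to the children and back. Induction on `t`, with
`v ∈ pc c acc s ↔ ¬ (c s).isNil ∧ (v = (acc, some s) ∨ v ∈ vis (c s) (acc ++ [s]) (some (iv s)))`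
and `S_node` to see that the visits in `vis (c s) (acc ++ [s]) _` are visits of nodes
`acc ++ s :: _`. -/
def S_mem : Prop := ∀ (t : Tr) (acc π : List D) (b o : Option D),
  (acc ++ π, o) ∈ vis t acc b ↔
    ((∃ c, o = some c ∧ t.has (π ++ [c])) ∨ (t.has π ∧ o = back π b))

/-- **Adding a leaf inserts two visits.** Induction on `π`, generalizing `t`, `acc`, `b`.
If `π = []`: `t = nd c`, `c d = nil`, and by `S_cut` for `d`, `A` is the part of the smaller
letters, `B` the rest; the first element of `B` is `(acc, some c')` for the least `c'` of larger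
rank with `c c' ≠ nil`, or `(acc, b)`. The visits in `A` of the node `acc` are `(acc, some c')`
with `c c' ≠ nil`, `rk c' < rk d` (those in `vis (c c') (acc ++ [c']) _` have other nodes by
`S_node`). If `π = s :: π'`: cut at `s`, and use the induction hypothesis for `c s`, with
`acc ++ [s]` and `some (iv s)`. -/
def S_insert : Prop := ∀ (t : Tr) (acc π : List D) (b : Option D) (d : D),
  t.has π → ¬ t.has (π ++ [d]) → ∃ A B : List (List D × Option D),
    vis t acc b = A ++ B ∧
    vis (ins (π ++ [d]) t) acc b =
      A ++ (acc ++ π, some d) :: (acc ++ (π ++ [d]), some (iv d)) :: B ∧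
    (∀ v ∈ A, v.1 = acc ++ π → ∃ c, v.2 = some c ∧ rk c < rk d ∧ t.has (π ++ [c])) ∧
    (∃ o B', B = (acc ++ π, o) :: B' ∧
      (o = back π b ∨ ∃ c, o = some c ∧ rk d < rk c ∧ t.has (π ++ [c])))

/-- The first visit of the child `r` of the node `π`. Induction on `π`. In the case `π = []` cut
at `r`: `pc c acc r = (acc, some r) :: vis (c r) (acc ++ [r]) (some (iv r))`, and the first element
of `vis (nd c') a b'` is `(a, some c₁)` for the first letter `c₁` with `c' c₁ ≠ nil`, or `(a, b')` if
there is none (lemma: for every non-empty tree, `vis t acc b = (acc, o) :: B` with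
`(o = b ∧ ∀ c, ¬ t.has [c]) ∨ ∃ c, o = some c ∧ t.has [c]`). If `π = s :: π'` cut at `s` and use the
induction hypothesis for `c s`, with `acc ++ [s]`. -/
def S_child : Prop := ∀ (t : Tr) (acc π : List D) (b : Option D) (r : D),
  t.has (π ++ [r]) → ∃ (A B : List (List D × Option D)) (o : Option D),
    vis t acc b = A ++ (acc ++ π, some r) :: (acc ++ (π ++ [r]), o) :: B ∧
    (∀ v ∈ A, v.1 = acc ++ π → ∃ c, v.2 = some c ∧ rk c < rk r ∧ t.has (π ++ [c])) ∧
    ((o = some (iv r) ∧ ∀ c, ¬ t.has (π ++ [r] ++ [c])) ∨ ∃ c, o = some c ∧ t.has (π ++ [r] ++ [c]))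

/-- consecutive visits -/
def Adj (v w : List D × Option D) : Prop :=
  (∃ s, v.2 = some s ∧ w.1 = v.1 ++ [s]) ∨ (∃ s, v.2 = some (iv s) ∧ v.1 = w.1 ++ [s]) ∨
    (v.2 = none ∧ w.1 = v.1)

/-- Consecutive visits of the contour are adjacent. Induction on `t`; show that `vis (nd c) acc b`
and the lists `pc c acc s ++ L` with `L` starting at the node `acc` are chains: the contour of a
non-empty tree starts at the node `acc` and ends with `(acc, b)`. -/
def S_chain : Prop := ∀ (t : Tr) (acc : List D) (b : Option D),
  List.IsChain Adj (vis t acc b)

end Pool.Agent.Q27.LT
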