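import Pool.Agent.Q27.LT.Scans
import Pool.Agent.Q27.LT.Tree

/-!
# Reduced words
-/

namespace Pool.Agent.Q27.LT

open FreeGroup

/-- the free group on two generators -/
abbrev FG := FreeGroup (Fin 2)

/-- the group element of a letter -/
def gl : Option D → FG
  | none => 1
  | some s => FreeGroup.mk [s]

theorem iv_iv (s : D) : iv (iv s) = s := by
  obtain ⟨a, b⟩ := s; simp [iv]

theorem iv_ne (s : D) : iv s ≠ s := by
  obtain ⟨a, b⟩ := s; simp [iv]

theorem iv_inj {s t : D} (h : iv s = iv t) : s = t := by
  rw [← iv_iv s, h, iv_iv]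

theorem gl_iv (s : D) : gl (some (iv s)) = (gl (some s))⁻¹ := by
  obtain ⟨a, b⟩ := s
  simp [gl, iv, FreeGroup.inv_mk, FreeGroup.invRev]

theorem mk_snoc (π : List D) (s : D) : (FreeGroup.mk (π ++ [s]) : FG) = FreeGroup.mk π * gl (some s) := by
  simp [gl, FreeGroup.mul_mk]

theorem toWord_red {π : List D} (h : IsReduced π) : (FreeGroup.mk π : FG).toWord = π := by
  rw [toWord_mk, h.reduce_eq]

theorem red_word (x : FG) : IsReduced x.toWord := isReduced_toWord

theorem red_prefix {π ρ : List D} (h : IsReduced ρ) (hp : π <+: ρ) : IsReduced π := by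
  obtain ⟨t, rfl⟩ := hp
  exact (List.isChain_append.1 h).1

theorem red_iff (π : List D) (s : D) :
    IsReduced (π ++ [s]) ↔ IsReduced π ∧ π.getLast? ≠ some (iv s) := by
  unfold FreeGroup.IsReduced
  rw [List.isChain_append]
  constructor
  · rintro ⟨h1, -, h3⟩
    refine ⟨h1, fun h => ?_⟩
    have := h3 (iv s) (by simp [h]) s (by simp)
    simp [iv] at this
  · rintro ⟨h1, h2⟩
    refine ⟨h1, by simp, fun x hx y hy => ?_⟩
    simp at hy
    subst hy
    intro h3
    by_contra h4
    apply h2
    rw [hx]
    congr 1
    obtain ⟨a, b⟩ := x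
    obtain ⟨a', b'⟩ := s
    simp only [iv] at *
    subst h3
    cases b <;> cases b' <;> simp_all

theorem word_mul (p : FG) (d : D) : (p * gl (some d)).toWord =
    if p.toWord.getLast? = some (iv d) then p.toWord.dropLast else p.toWord ++ [d] := by
  by_cases h : p.toWord.getLast? = some (iv d)
  · rw [if_pos h]
    have h1 : p.toWord = p.toWord.dropLast ++ [iv d] := by
      have h0 : p.toWord ≠ [] := by intro e; rw [e] at h; simp at h
      rw [List.getLast?_eq_some_getLast h0] at h
      have := List.dropLast_append_getLast h0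
      rw [Option.some.inj h] at this
      exact this.symm
    have h2 : p = FreeGroup.mk p.toWord.dropLast * gl (some (iv d)) := by
      rw [← mk_snoc, ← h1, mk_toWord]
    have h3 : p * gl (some d) = FreeGroup.mk p.toWord.dropLast := by
      conv_lhs => rw [h2]
      rw [gl_iv]; group
    rw [h3]
    exact toWord_red (red_prefix (red_word p) (List.dropLast_prefix _))
  · rw [if_neg h]
    have h1 : p * gl (some d) = FreeGroup.mk (p.toWord ++ [d]) := by
      rw [mk_snoc, mk_toWord]
    rw [h1]
    exact toWord_red ((red_iff _ _).2 ⟨red_word p, h⟩)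

theorem norm_mul_letter (p : FG) (d : D) : FreeGroup.norm (p * gl (some d)) =
    if p.toWord.getLast? = some (iv d) then FreeGroup.norm p - 1 else FreeGroup.norm p + 1 := by
  unfold FreeGroup.norm
  rw [word_mul]
  split_ifs <;> simp

theorem head_inv (y : FG) : (y⁻¹).toWord.getLast? = y.toWord.head?.map iv := by
  rw [toWord_inv]
  unfold FreeGroup.invRev
  rw [List.getLast?_reverse]
  cases y.toWord <;> simp [iv]

theorem norm_letter_mul (y : FG) (d : D) : FreeGroup.norm ((gl (some d))⁻¹ * y) =
    if y.toWord.head? = some d then FreeGroup.norm y - 1 else FreeGroup.norm y + 1 := by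
  have h1 : (gl (some d))⁻¹ * y = (y⁻¹ * gl (some d))⁻¹ := by group
  rw [h1, norm_inv_eq, norm_mul_letter, head_inv, norm_inv_eq]
  congr 1
  apply propext
  constructor
  · intro h
    cases h2 : y.toWord.head? with
    | none => rw [h2] at h; simp at h
    | some s =>
      rw [h2] at h
      simp only [Option.map_some, Option.some.injEq] at h
      rw [iv_inj h]
  · intro h; rw [h]; rfl

/-- neighbours different from `1` have the same first letter -/
theorem head_mul (y : FG) (s : D) (h1 : y ≠ 1) (h2 : y * gl (some s) ≠ 1) :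
    (y * gl (some s)).toWord.head? = y.toWord.head? := by
  rw [word_mul]
  have h0 : y.toWord ≠ [] := fun e => h1 (toWord_eq_nil_iff.1 e)
  split_ifs with h
  · have h3 : (y * gl (some s)).toWord ≠ [] := fun e => h2 (toWord_eq_nil_iff.1 e)
    rw [word_mul, if_pos h] at h3
    have h4 := List.dropLast_append_getLast h0
    conv_rhs => rw [← h4]
    rw [List.head?_append_of_ne_nil _ h3]
  · rw [List.head?_append_of_ne_nil _ h0]

/-- the nearest point -/
theorem head_inv_letter (s : D) : ((gl (some s))⁻¹).toWord.head? = some (iv s) := by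
  rw [← gl_iv]
  unfold gl
  rw [toWord_red (by simp)]
  rfl

end Pool.Agent.Q27.LT
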