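import Pool.Agent.Q27.LT.Visits

/-!
# Tapes of lists of visits
-/

namespace Pool.Agent.Q27.LT

/-- the entry `i` of the list, or its last entry -/
def gx {B : Type} [Inhabited B] (L : List B) (i : ℕ) : B := L.getD (min i (L.length - 1)) default

section gx
variable {B : Type} [Inhabited B]

theorem gx_lt {L : List B} {i : ℕ} (h : i < L.length) : gx L i = L[i] := by
  unfold gx
  rw [show min i (L.length - 1) = i by omega]
  simp [h]

theorem gx_ge {L : List B} {i : ℕ} (h : L.length ≤ i + 1) : gx L i = gx L (L.length - 1) := by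
  unfold gx
  rw [show min i (L.length - 1) = min (L.length - 1) (L.length - 1) by omega]

theorem gx_getLast {L : List B} (h : L ≠ []) {i : ℕ} (hi : L.length ≤ i + 1) :
    gx L i = L.getLast h := by
  rw [gx_ge hi, gx_lt (by have := List.length_pos_of_ne_nil h; omega), List.getLast_eq_getElem]

theorem gx_append_left {A B' : List B} {i : ℕ} (h : i < A.length) : gx (A ++ B') i = A[i] := by
  rw [gx_lt (by simp; omega), List.getElem_append_left h]

theorem gx_append_right {A B' : List B} {i : ℕ} (h : A.length ≤ i) (hB : B' ≠ []) :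
    gx (A ++ B') i = gx B' (i - A.length) := by
  have hp := List.length_pos_of_ne_nil hB
  unfold gx
  rw [List.length_append]
  have e : min i (A.length + B'.length - 1) = A.length + min (i - A.length) (B'.length - 1) := by
    omega
  rw [e, List.getD_append_right _ _ _ _ (by omega), Nat.add_sub_cancel_left]

theorem gx_insert {A B' : List B} {v : B} (hB : B' ≠ []) (i : ℕ) :
    gx (A ++ v :: B') i = insAt A.length v (gx (A ++ B')) i := by
  unfold insAt
  by_cases h1 : i < A.length
  · rw [if_pos h1, gx_append_left h1, gx_append_left h1]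
  · rw [if_neg h1, gx_append_right (by omega) (by simp)]
    by_cases h2 : i = A.length
    · rw [if_pos h2, h2, Nat.sub_self, gx_lt (by simp)]; rfl
    · rw [if_neg h2, gx_append_right (by omega) hB]
      have hp := List.length_pos_of_ne_nil hB
      have e : gx (v :: B') (i - A.length) = gx ([v] ++ B') (i - A.length) := rfl
      rw [e, gx_append_right (by simp; omega) hB]
      congr 1
      simp; omega

theorem gx_delete {A B' : List B} {v : B} (hB : B' ≠ []) (i : ℕ) :
    gx (A ++ B') i = delAt A.length (gx (A ++ v :: B')) i := by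
  unfold delAt
  rw [gx_insert hB, gx_insert hB]
  unfold insAt
  by_cases h1 : i < A.length
  · rw [if_pos h1, if_pos h1]
  · rw [if_neg h1, if_neg (by omega), if_neg (by omega), Nat.add_sub_cancel]

theorem gx_snoc {L : List B} (h : L ≠ []) (i : ℕ) : gx (L ++ [L.getLast h]) i = gx L i := by
  by_cases h1 : i < L.length
  · rw [gx_append_left h1, gx_lt h1]
  · rw [gx_append_right (by omega) (by simp), gx_getLast h (by omega),
      gx_getLast (by simp) (by simp)]
    rfl

theorem gx_map {C : Type} [Inhabited C] {L : List B} (hL : L ≠ []) (f : B → C) (i : ℕ) :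
    gx (L.map f) i = f (gx L i) := by
  have hp := List.length_pos_of_ne_nil hL
  unfold gx
  rw [List.length_map, List.getD_eq_getElem _ _ (by simp; omega),
    List.getD_eq_getElem _ _ (by omega), List.getElem_map]

end gx

section
variable {ι Pl Pl' : Type} [Inhabited Pl] [Inhabited Pl']

/-- the heights -/
def hh (L : List (ℕ × Pl)) (i : ℕ) : ℕ := (gx L i).1

/-- the payloads -/
def pp (L : List (ℕ × Pl)) (i : ℕ) : Pl := (gx L i).2

/-- the tape of a list of visits -/
def ltp (L : List (ℕ × Pl)) : ℕ → TS Pl := vt L.length (hh L) (pp L)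

/-- the content of the tape -/
def enc (L : List (ℕ × Pl)) : List (TS Pl) := word (2 * L.length) (ltp L)

/-- good lists of visits -/
structure Good (L : List (ℕ × Pl)) : Prop where
  ne : L ≠ []
  ch : List.IsChain (fun a b => a.1 ≤ b.1 + 1 ∧ b.1 ≤ a.1 + 1) L
  small : (L.getLast ne).1 ≤ 3

omit [Inhabited Pl] in
theorem Good.pos {L : List (ℕ × Pl)} (h : Good L) : 1 ≤ L.length :=
  List.length_pos_of_ne_nil h.ne

theorem Good.ok {L : List (ℕ × Pl)} (h : Good L) : Ok L.length (hh L) where
  pos := h.pos
  lip i := by
    unfold hh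
    by_cases h1 : i + 1 < L.length
    · rw [gx_lt h1, gx_lt (by omega)]
      have := List.isChain_iff_getElem.1 h.ch i (by omega)
      exact ⟨this.2, this.1⟩
    · rw [gx_ge (i := i + 1) (by omega), gx_ge (i := i) (by omega)]
      omega
  cst i hi := by
    unfold hh
    rw [gx_ge (by omega)]
  small := by
    unfold hh
    rw [gx_getLast h.ne (by omega)]
    exact h.small

theorem pfin (L : List (ℕ × Pl)) : Fin3 L.length (pp L) := by
  intro i hi
  unfold pp
  rw [gx_ge (by omega)]

/-- the family `L'` of lists is computed from `L` by a sweep -/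
def RL (L : ι → List (ℕ × Pl)) (L' : ι → List (ℕ × Pl')) : Prop :=
  Red (fun s => 2 * (L s).length) (fun s => ltp (L s)) (fun s => 2 * (L' s).length)
    (fun s => ltp (L' s))

/-- the track `Y` is computed from the lists `L` -/
def DL {C : Type} (L : ι → List (ℕ × Pl)) (Y : ι → ℕ → C) : Prop :=
  Der (fun s => 2 * (L s).length) (fun s => ltp (L s)) (fun s j => Y s (j / 2))

theorem RL.trans [Finite Pl'] {Pl'' : Type} [Inhabited Pl''] {L : ι → List (ℕ × Pl)}
    {L' : ι → List (ℕ × Pl')} {L'' : ι → List (ℕ × Pl'')} (h : RL L L') (h' : RL L' L'') :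
    RL L L'' := Red.trans h h'

variable {C C' C'' : Type} {L : ι → List (ℕ × Pl)} {Y : ι → ℕ → C} {Z : ι → ℕ → C'}

theorem DL.congr {Y' : ι → ℕ → C} (h : DL L Y) (e : ∀ s, ∀ i < (L s).length, Y s i = Y' s i) :
    DL L Y' :=
  Der.congr h (fun s j hj => e s (j / 2) (by omega))

theorem DL.map [Finite C] (h : DL L Y) (g : C → C') : DL L (fun s i => g (Y s i)) :=
  Der.map h g

variable [Finite Pl] [Finite Pl']

theorem DL.pair [Finite C] [Finite C'] (h : DL L Y) (h' : DL L Z) :
    DL L (fun s i => (Y s i, Z s i)) := Der.pair h h'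

theorem DL.map₂ [Finite C] [Finite C'] (h : DL L Y) (h' : DL L Z) (g : C → C' → C'') :
    DL L (fun s i => g (Y s i) (Z s i)) := Der.map₂ h h' g

theorem dl_pay (L : ι → List (ℕ × Pl)) : DL L (fun s => pp (L s)) :=
  (Der.refl (N := fun s => 2 * (L s).length) (fun s => ltp (L s))).map (fun a => a.2.2.2)

theorem dl_res (L : ι → List (ℕ × Pl)) : DL L (fun s i => Fin.ofNat 3 (hh (L s) i)) :=
  (Der.refl (N := fun s => 2 * (L s).length) (fun s => ltp (L s))).map (fun a => a.1.c)

theorem code_zero {h : ℕ → ℕ} (t : Tame h) (j : ℕ) : (code h j).m1 = some 0 ↔ h j = 0 := by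
  constructor
  · intro e
    unfold code at e
    simp only at e
    split_ifs at e with h1
    have h2 : qt h j = 0 := by simpa using e
    unfold qt at h2
    have b := isBl h t j
    have h3 : h (bst h j) / bn h j < 5 := by
      have h3 := b.upper t
      have h4 := b.pos
      have h5 : h (bst h j) < 5 * bn h j := by
        rcases b.cases with h6 | ⟨m, h6, -⟩ <;> omega
      rw [Nat.div_lt_iff_lt_mul h4]; exact h5
    have h4 : h (bst h j) / bn h j = 0 := by
      have := congrArg Fin.val h2
      simpa [Fin.ofNat, Nat.mod_eq_of_lt h3] using this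
    have h5 : bn h j = 1 := by
      by_contra h5
      have h6 := b.good
      have h7 : 2 * bn h j ≤ h (bst h j) := by omega
      have : 1 ≤ h (bst h j) / bn h j := (Nat.one_le_div_iff b.pos).2 (by omega)
      omega
    have h6 : bst h j = j := by
      have h7 := bst_le h j
      have h8 := lt_ben h j
      unfold ben at h8
      omega
    rw [h5, h6, Nat.div_one] at h4
    exact h4
  · intro e
    rw [code_one t (by omega), e]
    rfl

theorem dl_zero {L : ι → List (ℕ × Pl)} (hL : ∀ s, Good (L s)) :
    DL L (fun s i => decide (hh (L s) i = 0)) := by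
  refine Der.congr ((Der.refl (N := fun s => 2 * (L s).length) (fun s => ltp (L s))).map
    (fun a => decide (a.1.m1 = some 0))) (fun s j hj => ?_)
  simp only [ltp, tape]
  congr 1
  exact propext (code_zero (hL s).ok.lip.tame j)

end

end Pool.Agent.Q27.LT
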