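import Mathlib

/-!
# Position-faithful one-tape Turing machines
-/

namespace Pool.Agent.Q27.LT

/-- tape symbols of a machine with input alphabet `A` and further symbols `W`: the end marker, the
blank, the input letters and the further symbols -/
inductive Sym (A W : Type) where
  | mark : Sym A W
  | blank : Sym A W
  | inp : A → Sym A W
  | aux : W → Sym A W

/-- A position-faithful one-tape Turing machine. A transition is either `none` (halt) or gives the
new state, the written symbol and the direction of the move (`true` = right, `false` = left). The
end marker is never overwritten and never written elsewhere, and the head never moves to the left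
of it. -/
structure Machine (A : Type) where
  W : Type
  Q : Type
  finW : Finite W
  finQ : Finite Q
  start : Q
  acc : Q → Prop
  δ : Q → Sym A W → Option (Q × Sym A W × Bool)
  keep : ∀ q q' x d, δ q .mark = some (q', x, d) → x = .mark ∧ d = true
  only : ∀ q s q' x d, δ q s = some (q', x, d) → x = .mark → s = .mark

/-- configurations: state, position of the head, tape -/
structure Cfg {A : Type} (M : Machine A) where
  q : M.Q
  pos : ℕ
  tape : ℕ → Sym A M.W

/-- one step; `none` if the machine has halted -/
def Cfg.next {A : Type} {M : Machine A} (c : Cfg M) : Option (Cfg M) :=
  (M.δ c.q (c.tape c.pos)).map (fun r =>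
    ⟨r.1, if r.2.2 then c.pos + 1 else c.pos - 1, Function.update c.tape c.pos r.2.1⟩)

/-- `k` steps lead from one configuration to another -/
def Reach {A : Type} {M : Machine A} : ℕ → Cfg M → Cfg M → Prop
  | 0, c, c' => c = c'
  | k + 1, c, c' => ∃ c₁, c.next = some c₁ ∧ Reach k c₁ c'

/-- the initial tape: the marker, the input, and blanks -/
def initTape {A W : Type} (x : List A) : ℕ → Sym A W
  | 0 => .mark
  | i + 1 => match x[i]? with
    | some a => .inp a
    | none => .blank

/-- The machine computes `f` in linear time: on input `x` it halts in an accepting state within
`C * (|x| + 1)` steps, and then the tape begins with the marker, the letters of `f x` and a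
blank. -/
def Machine.ComputesLin {A : Type} (M : Machine A) (f : List A → List A) : Prop :=
  ∃ C : ℕ, ∀ x : List A, ∃ (k : ℕ) (c : Cfg M), k ≤ C * (x.length + 1) ∧
    Reach k ⟨M.start, 0, initTape x⟩ c ∧ c.next = none ∧ M.acc c.q ∧
    ∀ i ≤ (f x).length + 1, c.tape i = initTape (f x) i

/-- `f` is computed in linear time by a position-faithful one-tape Turing machine -/
def LinTime {A : Type} (f : List A → List A) : Prop := ∃ M : Machine A, M.ComputesLin f

end Pool.Agent.Q27.LT
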