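import Pool.Agent.Q27.LT.Basic
import Pool.Agent.Q27.LT.Tm

/-!
# Rounds, fragments of machines, and machines
-/

namespace Pool.Agent.Q27.LT

/-! ### Rounds -/

/-- one round: a left-to-right sweep, an action at the right end, a right-to-left sweep -/
structure Round (W : Type) where
  Q : Type
  finQ : Finite Q
  q0 : Q
  f : Q → W → Q
  o : Q → W → W
  t : Q → Act W
  Q' : Type
  finQ' : Finite Q'
  q0' : Q'
  f' : Q' → W → Q'
  o' : Q' → W → W

/-- the effect of a round -/
def Round.run {W : Type} (R : Round W) (x : List W) : List W :=
  (rrun R.f' R.o' R.q0' ((R.t (x.foldl R.f R.q0)).run (lrun R.f R.o R.q0 x))).2

/-- the effect of a list of rounds -/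
def runs {W : Type} (l : List (Round W)) (x : List W) : List W := l.foldl (fun y R => R.run y) x

/-- Every sweep is a list of rounds over a larger alphabet.

Proof. Induction on `Sweep`. `lp`: induction on `LP`. For `left f o q` take `W = A ⊕ B`, `i = inl`,
`j = inr` and one round: the left-to-right part does `f`, `o` on `inl a` (output `inr`) and
anything on `inr b`, the action is always `keep`, the right-to-left part has `Q' = Unit` and copies.
`right f o q`: the same with the roles of the two parts exchanged. `tail f q t`: `W = A`, the left
part runs `f` and copies, the action is `t`, the right part copies. `comp`: given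
`(W₁, i₁, j₁, l₁)` and `(W₂, i₂, j₂, l₂)` take `W = W₁ ⊕ W₂`, `i = inl ∘ i₁`, `j = inr ∘ j₂`; lift
every round of `l₁` to `W` along `inl` (letters `inr` are copied and do not change the state; an
action `push a` becomes `push (inl a)`), add one round that replaces `inl (j₁ b)` by `inr (i₂ b)`
(letters not of this form are copied), and lift every round of `l₂` along `inr`. The lifting lemma:
for an injection `e : W₁ → W` and a round `R` there is a round `R'` over `W` with
`R'.run (x.map e) = (R.run x).map e` for all `x`. (For `lp` and `comp` use the same argument.) -/
def S_rounds : Prop := ∀ (A B : Type) (_ : Finite A) (_ : Finite B) (F : List A → List B),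
  Sweep F → ∃ (W : Type) (_ : Finite W) (i : A → W) (j : B → W) (l : List (Round W)),
    Function.Injective i ∧ Function.Injective j ∧
      ∀ x : List A, runs l (x.map i) = (F x).map j

/-! ### Fragments of machines -/

/-- A fragment of a machine over the symbols `W`, marker (`none`) and blank (`some none`): it starts
in the state `start` on the marker and ends in the state `stop` on the marker. -/
structure Frag (W : Type) where
  Q : Type
  finQ : Finite Q
  start : Q
  stop : Q
  δ : Q → Option (Option W) → Option (Q × Option (Option W) × Bool)
  keep : ∀ q q' x d, δ q none = some (q', x, d) → x = none ∧ d = true
  only : ∀ q s q' x d, δ q s = some (q', x, d) → x = none → s = none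
  halt : δ stop none = none
  ne : start ≠ stop

/-- one step of a fragment on state, head position, and tape -/
def Frag.next {W : Type} (M : Frag W) (c : M.Q × ℕ × (ℕ → Option (Option W))) :
    Option (M.Q × ℕ × (ℕ → Option (Option W))) :=
  (M.δ c.1 (c.2.2 c.2.1)).map (fun r =>
    (r.1, if r.2.2 then c.2.1 + 1 else c.2.1 - 1, Function.update c.2.2 c.2.1 r.2.1))

/-- `k` steps lead from one configuration to another -/
def Frag.Reach {W : Type} (M : Frag W) : ℕ → M.Q × ℕ × (ℕ → Option (Option W)) →
    M.Q × ℕ × (ℕ → Option (Option W)) → Prop
  | 0, c, c' => c = c'
  | k + 1, c, c' => ∃ c₁, M.next c = some c₁ ∧ Frag.Reach M k c₁ c'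

/-- the tape with content `x` -/
def tapeOf {W : Type} (x : List W) : ℕ → Option (Option W)
  | 0 => none
  | i + 1 => some x[i]?

/-- the fragment turns the tape with content `x` into the tape with content `F x` in linear time,
starting and ending on the marker -/
def Frag.Does {W : Type} (M : Frag W) (F : List W → List W) : Prop :=
  ∃ C : ℕ, ∀ x : List W, ∃ k ≤ C * (x.length + 1),
    M.Reach k (M.start, 0, tapeOf x) (M.stop, 0, tapeOf (F x))

/-- Every round is done by a fragment.

Proof. States: `start`, `stop`, `L q` for `q : Q`, `P` (back to the left after a `pop`, the last
letter has to be erased), `R0` (one step to the left after the action), `R q'` for `q' : Q'`.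
In state `start` on the marker: go right in state `L q0`. State `L q` on a letter `w` (symbol
`some (some w)`): write `o q w`, go right, state `L (f q w)`. State `L q` on a blank: if `t q` is
`keep`, write a blank and go left in state `R q0'`; if it is `push a`, write `a`, go right and be in
state `R0`, which on a blank writes a blank and goes left in state `R q0'`; if it is `pop`, write a
blank and go left in state `P`; state `P` on a letter writes a blank and goes left in state `R q0'`;
state `P` on the marker (the word was empty) does the same as `R q'` on the marker, see below. State `R q'` on a letter `w`: write
`o' q' w`, go left, state `R (f' q' w)`. State `R q'` on the marker: the sweep is finished; to reach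
the state `stop` on the marker write the marker, go right in the state `S`, which writes back what it
reads and goes left in state `stop`. (`start ≠ stop`, and `stop` halts on every symbol.)
The tape during the left sweep: cells `1 … i` contain the new letters, cells from `i + 1` on the
old ones; prove by induction on the rest of the word that `L q` at position `i + 1` with a suffix `y`
reaches the blank behind it in `y.length` steps; similarly for the right-to-left sweep (induction
from the right, `rrun` of the suffix already read). The number of steps is at most
`2 * x.length + 10`. -/
def S_round : Prop := ∀ (W : Type) (_ : Finite W) (R : Round W), ∃ M : Frag W, M.Does R.run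

/-- Fragments can be composed, if the first function increases the length by at most a constant.

Proof. States `M₁.Q ⊕ M₂.Q`, start `inl M₁.start`, stop `inr M₂.stop`. Transition of `inl q` on `s`:
if `q = M₁.stop` and `s` is the marker, do what `M₂` does in its start state on the marker (as
`inr`); otherwise what `M₁` does. Transition of `inr q`: what `M₂` does. A run of `M₁` from
`(start, 0, tapeOf x)` to `(stop, 0, tapeOf (F x))` lifts to `inl`: no configuration of the run but
the last one is in the state `stop` on the marker, because there `M₁` halts. The run of `M₂` from
`(start, 0, tapeOf (F x))` has at least one step since `start ≠ stop`; its first step is simulated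
from `inl M₁.stop`, the others lift to `inr`. Steps: `C₁ (|x| + 1) + C₂ (|x| + K + 1)`. -/
def S_comp : Prop := ∀ (W : Type) (_ : Finite W) (F G : List W → List W) (M₁ M₂ : Frag W) (K : ℕ),
  M₁.Does F → M₂.Does G → (∀ x, (F x).length ≤ x.length + K) →
    ∃ M : Frag W, M.Does (fun x => G (F x))

/-- A fragment gives a machine.

Proof. Symbols: `Sym A (W ⊕ W)`... it is enough to use further symbols `W`: represent the symbol
`some (some w)` of the fragment by `aux w`, the marker by `mark`, the blank by `blank`. The machine
first converts the input: state `c0` on the marker: go right in state `c1`; state `c1` on `inp a`:
write `aux (i a)`, go right; on a blank: write a blank, go left in state `c2`; state `c2` on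
`aux w`: write it back and go left; on the marker: do what `M` does in the state `start` on the
marker. Then it simulates `M` (states of `M`, symbols translated). In the state `stop` of `M` on the
marker it goes right in state `d1`: on `aux w`: write `inp a` if `w = j a` for some (unique) `a`,
and go right; on a blank: halt (accepting). The tape is then `initTape (f x)`. Steps:
`(2 n + 2) + C (n + 1) + (|f x| + 1)`, and `|f x| ≤ |x| + C (n + 1)` because the head moves one cell
per step and cells beyond the visited ones are blank (or: bound the length of `F x` by the number
of steps: a cell that is not visited keeps its symbol, so `(F x).length ≤ x.length + k`). -/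
def S_machine : Prop := ∀ (A W : Type) (_ : Finite A) (_ : Finite W) (i j : A → W)
  (F : List W → List W) (f : List A → List A) (M : Frag W),
  M.Does F → Function.Injective i → Function.Injective j →
    (∀ x : List A, F (x.map i) = (f x).map j) → LinTime f

/-- **All sweeps are computed in linear time.**

Proof. From `S_rounds` we get `W`, `i`, `j`, `l`. The function `runs l` is done by a fragment:
induction on `l` with `S_round` and `S_comp` (a round increases the length by at most `1`; for the
empty list use the fragment of the round that copies everything). Then `S_machine`. -/
def S_lintime : Prop := ∀ (A : Type) (_ : Finite A) (f : List A → List A), Sweep f → LinTime f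

end Pool.Agent.Q27.LT
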