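import Pool.Agent.Q27.LT.Split
import Pool.Agent.Q27.LT.Blocks

/-!
# The marks in the blocks
-/

namespace Pool.Agent.Q27.LT

/-- position of the height mark: a triangle wave -/
def z (n x : ℕ) : ℕ := if (x / n) % 2 = 0 then x % n else n - 1 - x % n

/-- position of the head -/
def kk (n x : ℕ) : ℕ := min ((3 * n - x) / 2) (n / 2)

/-- the folded difference -/
def ee (x y : ℕ) : ℕ := if y ≤ x then x - y else y - x - 1

/-- the height mark -/
def P1 (h : ℕ → ℕ) (j : ℕ) : ℕ := bst h j + z (bn h j) (h (bst h j))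

/-- the head -/
def HD (h : ℕ → ℕ) (j : ℕ) : ℕ := bst h j + kk (bn h j) (h (bst h j))

/-- the difference mark -/
def PW (h : ℕ → ℕ) (j : ℕ) : ℕ := HD h j + ee (h (HD h j)) (h (bst h j))

/-- the quotient -/
def qt (h : ℕ → ℕ) (j : ℕ) : Fin 5 := Fin.ofNat 5 (h (bst h j) / bn h j)

/-- the parity of the block -/
def pr (h : ℕ → ℕ) (j : ℕ) : Bool := decide ((bst h j / bn h j) % 2 = 1)

/-- the sign of the difference -/
def sg (h : ℕ → ℕ) (j : ℕ) : Bool := decide (h (HD h j) < h (bst h j))

/-- the parity of the time -/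
def tp (h : ℕ → ℕ) (j : ℕ) : Bool := decide ((3 * bn h j - h (bst h j)) % 2 = 1)

/-- the content of a cell of the tape -/
structure Cell where
  s : Bool
  m1 : Option (Fin 5)
  mh : Option (Bool × Bool × Bool)
  mw : Bool
  c : Fin 3
deriving DecidableEq

instance : Finite Cell :=
  Finite.of_injective (fun x : Cell => (x.s, x.m1, x.mh, x.mw, x.c)) (by
    rintro ⟨⟩ ⟨⟩ h; simpa using h)

/-- the code of the height function -/
def code (h : ℕ → ℕ) (j : ℕ) : Cell where
  s := decide (bst h j = j)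
  m1 := if P1 h j = j then some (qt h j) else none
  mh := if HD h j = j then some (pr h j, sg h j, tp h j) else none
  mw := decide (PW h j = j)
  c := Fin.ofNat 3 (h j)

theorem z_lt {n : ℕ} (hn : 1 ≤ n) (x : ℕ) : z n x < n := by
  have := Nat.mod_lt x (show 0 < n from hn)
  unfold z; split <;> omega

theorem kk_le (n x : ℕ) : kk n x ≤ n / 2 := min_le_right _ _

theorem dm {n r : ℕ} (q : ℕ) (hr : r < n) : (n * q + r) / n = q ∧ (n * q + r) % n = r := by
  constructor
  · rw [Nat.mul_add_div (by omega), Nat.div_eq_of_lt hr, Nat.add_zero]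
  · rw [Nat.mul_add_mod, Nat.mod_eq_of_lt hr]

/-! ### the blocks lie inside the tape -/

/-- the height at the end of the tape is small -/
def Tail (N : ℕ) (h : ℕ → ℕ) : Prop := N % 2 = 0 ∧ h (N - 1) ≤ 3

theorem ben_le {N : ℕ} {h : ℕ → ℕ} (t : Tame h) (tl : Tail N h) {j : ℕ} (hj : j < N) :
    ben h j ≤ N := by
  have b := isBl h t j
  have h1 := bst_le h j
  obtain ⟨h2, h3⟩ := tl
  unfold ben
  rcases b.good with h4 | h4
  · omega
  · have h5 := t.lip (bst h j) (N - 1) (by omega)
    have hp := b.pos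
    by_cases hn : bn h j = 1
    · omega
    · have := b.even hn
      omega

theorem bst_bst {h : ℕ → ℕ} (t : Tame h) {i j : ℕ} (h1 : bst h j ≤ i) (h2 : i < ben h j) :
    bst h i = bst h j ∧ bn h i = bn h j := (isBl h t j).eq t h1 h2

variable {ι : Type} {N : ι → ℕ} {h h' : ι → ℕ → ℕ}

theorem isBlocks (t : ∀ s, Tame (h s)) (tl : ∀ s, Tail (N s) (h s)) :
    IsBlocks N (fun s => bst (h s)) (fun s => ben (h s)) where
  le s j _ := bst_le (h s) j
  lt s j _ := lt_ben (h s) j
  bd s _ hj := ben_le (t s) (tl s) hj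
  cst s j _ i h1 h2 := by
    have := bst_bst (t s) h1 h2
    exact ⟨this.1, by unfold ben; rw [this.1, this.2]⟩

/-- a pointer given by an offset that depends only on the block -/
theorem isPtr_off (t : ∀ s, Tame (h s)) (f : ι → ℕ → ℕ → ℕ)
    (hf : ∀ s, ∀ j < N s, f s (bst (h s) j) (bn (h s) j) < bn (h s) j) :
    IsPtr N (fun s => bst (h s)) (fun s => ben (h s))
      (fun s j => bst (h s) j + f s (bst (h s) j) (bn (h s) j)) where
  le s j _ := by simp
  lt s j hj := by have := hf s j hj; simp only [ben]; omega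
  cst s j _ i h1 h2 := by
    have := bst_bst (t s) h1 h2
    simp only [this.1, this.2]

theorem ptr_P1 (t : ∀ s, Tame (h s)) :
    IsPtr N (fun s => bst (h s)) (fun s => ben (h s)) (fun s => P1 (h s)) :=
  isPtr_off t (fun s a n => z n (h s a)) (fun _ _ _ => z_lt (bn_pos _ _) _)

theorem ptr_HD (t : ∀ s, Tame (h s)) :
    IsPtr N (fun s => bst (h s)) (fun s => ben (h s)) (fun s => HD (h s)) :=
  isPtr_off t (fun s a n => kk n (h s a)) (fun s j _ => by
    have := kk_le (bn (h s) j) (h s (bst (h s) j)); have := bn_pos (h s) j; omega)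

theorem kk_one (x : ℕ) : kk 1 x = 0 := by unfold kk; omega

theorem ee_slope {h : ℕ → ℕ} (t : Tame h) {a n k : ℕ} (b : IsBl h a n) (hk : k ≤ n / 2) :
    ee (h (a + k)) (h a) ≤ k / 2 := by
  have := (b.slope t k).1 (by have := b.pos; omega)
  unfold ee; split <;> omega

theorem ptr_PW (t : ∀ s, Tame (h s)) :
    IsPtr N (fun s => bst (h s)) (fun s => ben (h s)) (fun s => PW (h s)) := by
  have := isPtr_off (N := N) t (fun s a n => kk n (h s a) + ee (h s (a + kk n (h s a))) (h s a))
    (fun s j _ => by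
      have h1 := kk_le (bn (h s) j) (h s (bst (h s) j))
      have h2 := ee_slope (t s) (isBl (h s) (t s) j) h1
      have := bn_pos (h s) j
      omega)
  convert this using 3
  unfold PW HD
  ring

/-! ### the marks of the new heights in the old blocks -/

/-- the reference height -/
def rf (h h' : ℕ → ℕ) (j : ℕ) : ℕ :=
  if bn h j = 1 then h' (bst h j) else max (h' (bst h j)) (2 * bn h j)

def Q1 (h h' : ℕ → ℕ) (j : ℕ) : ℕ := bst h j + z (bn h j) (h' (bst h j))
def HS (h h' : ℕ → ℕ) (j : ℕ) : ℕ := bst h j + kk (bn h j) (h' (bst h j))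
def PS (h h' : ℕ → ℕ) (j : ℕ) : ℕ := HS h h' j + ee (h' (HS h h' j)) (rf h h' j)

theorem ptr_Q1 (t : ∀ s, Tame (h s)) :
    IsPtr N (fun s => bst (h s)) (fun s => ben (h s)) (fun s => Q1 (h s) (h' s)) :=
  isPtr_off t (fun s a n => z n (h' s a)) (fun _ _ _ => z_lt (bn_pos _ _) _)

theorem ptr_HS (t : ∀ s, Tame (h s)) :
    IsPtr N (fun s => bst (h s)) (fun s => ben (h s)) (fun s => HS (h s) (h' s)) :=
  isPtr_off t (fun s a n => kk n (h' s a)) (fun s j _ => by
    have := kk_le (bn (h s) j) (h' s (bst (h s) j)); have := bn_pos (h s) j; omega)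

theorem ee_new {h h' : ℕ → ℕ} (t' : Tame h') (hn : Near h h') {a n k : ℕ}
    (b : IsBl h a n) (hk : k = kk n (h' a)) :
    k + ee (h' (a + k)) (if n = 1 then h' a else max (h' a) (2 * n)) < n := by
  by_cases h1 : n = 1
  · subst h1
    rw [kk_one] at hk
    subst hk
    simp [ee]
  · rw [if_neg h1]
    have hp := b.pos
    have he := b.even h1
    have h2 := t'.lip a (a + k) (by omega)
    have e : (a + k) / 2 - a / 2 = k / 2 := by omega
    rw [e] at h2
    have h3 := hn a
    have h4 := kk_le n (h' a)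
    rcases b.good with h5 | h5
    · omega
    · unfold ee kk at *
      rcases le_total (2 * n) (h' a) with h6 | h6
      · rw [max_eq_left h6]; split <;> omega
      · rw [max_eq_right h6]; split <;> omega

theorem ptr_PS (t : ∀ s, Tame (h s)) (t' : ∀ s, Tame (h' s)) (hn : ∀ s, Near (h s) (h' s)) :
    IsPtr N (fun s => bst (h s)) (fun s => ben (h s)) (fun s => PS (h s) (h' s)) := by
  have := isPtr_off (N := N) t (fun s a n => kk n (h' s a) +
      ee (h' s (a + kk n (h' s a))) (if n = 1 then h' s a else max (h' s a) (2 * n)))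
    (fun s j _ => ee_new (t' s) (hn s) (isBl (h s) (t s) j) rfl)
  convert this using 3
  unfold PS HS rf
  ring

end Pool.Agent.Q27.LT
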