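import Pool.Agent.Q27.LT.Turn

/-!
# One step of the lamplighter
-/

namespace Pool.Agent.Q27.LT

open FreeGroup

section
variable {ι Pl : Type} [Inhabited Pl] [Finite Pl] {L L' : ι → List (ℕ × Pl)}

/-- insertion before the first visit with the property `χ` -/
theorem RL.insertFst {φ : ι → Bool} {y : ι → ℕ} {π : ι → Pl} {χ : ι → Bool → Pl → Bool}
    (hφ : DL L (fun s _ => φ s))
    (hχ : DL L (fun s i => χ s (decide (hh (L s) i = 0)) (pp (L s) i)))
    (hy : DL L (fun s _ => Fin.ofNat 3 (y s))) (hπ : DL L (fun s _ => π s))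
    (hL : ∀ s, Good (L s)) (hL' : ∀ s, Good (L' s))
    (hn : ∀ s, φ s = false → L' s = L s)
    (hi : ∀ s, φ s = true → ∃ A B b, L s = A ++ b :: B ∧ L' s = A ++ (y s, π s) :: b :: B ∧
      (∀ a ∈ A, χ s (decide (a.1 = 0)) a.2 = false) ∧ χ s (decide (b.1 = 0)) b.2 = true ∧
      y s ≤ b.1 + 1 ∧ b.1 ≤ y s + 1) : RL L L' := by
  refine RL.insert (k := fun s => fst (fun i => χ s (decide (hh (L s) i = 0)) (pp (L s) i))
    (L s).length) hφ hχ.fst hy hπ hL hL' hn (fun s hs => ?_)
  obtain ⟨A, B, b, e1, e2, e3, e4, e5⟩ := hi s hs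
  refine ⟨A, B, b, e1, e2, ?_, e5⟩
  refine fst_eq (fun i hi => ?_) ?_ ?_
  · unfold hh pp
    rw [e1, gx_append_left hi]
    exact e3 _ (List.getElem_mem hi)
  · unfold hh pp
    rw [e1, gx_append_right (le_refl _) (by simp), Nat.sub_self, gx_lt (by simp)]
    exact e4
  · rw [e1]; simp

/-- deletion of the first visit with the property `χ` -/
theorem RL.deleteFst {φ : ι → Bool} {χ : ι → Bool → Pl → Bool}
    (hφ : DL L (fun s _ => φ s))
    (hχ : DL L (fun s i => χ s (decide (hh (L s) i = 0)) (pp (L s) i)))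
    (hL : ∀ s, Good (L s)) (hL' : ∀ s, Good (L' s))
    (hn : ∀ s, φ s = false → L' s = L s)
    (hi : ∀ s, φ s = true → ∃ A B v b, L s = A ++ v :: b :: B ∧ L' s = A ++ b :: B ∧
      (∀ a ∈ A, χ s (decide (a.1 = 0)) a.2 = false) ∧ χ s (decide (v.1 = 0)) v.2 = true) :
    RL L L' := by
  refine RL.delete (k := fun s => fst (fun i => χ s (decide (hh (L s) i = 0)) (pp (L s) i))
    (L s).length) hφ hχ.fst hL hL' hn (fun s hs => ?_)
  obtain ⟨A, B, v, b, e1, e2, e3, e4⟩ := hi s hs
  refine ⟨A, B, v, b, e1, e2, ?_⟩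
  refine fst_eq (fun i hi => ?_) ?_ ?_
  · unfold hh pp
    rw [e1, gx_append_left hi]
    exact e3 _ (List.getElem_mem hi)
  · unfold hh pp
    rw [e1, gx_append_right (le_refl _) (by simp), Nat.sub_self, gx_lt (by simp)]
    exact e4
  · rw [e1]; simp

/-- deletion of the visit after the first visit with the property `χ` -/
theorem RL.deleteNext {φ : ι → Bool} {χ : ι → Bool → Pl → Bool}
    (hφ : DL L (fun s _ => φ s))
    (hχ : DL L (fun s i => χ s (decide (hh (L s) i = 0)) (pp (L s) i)))
    (hL : ∀ s, Good (L s)) (hL' : ∀ s, Good (L' s))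
    (hn : ∀ s, φ s = false → L' s = L s)
    (hi : ∀ s, φ s = true → ∃ A B u v b, L s = A ++ u :: v :: b :: B ∧ L' s = A ++ u :: b :: B ∧
      (∀ a ∈ A, χ s (decide (a.1 = 0)) a.2 = false) ∧ χ s (decide (u.1 = 0)) u.2 = true) :
    RL L L' := by
  have hk := (hχ.fst.prev false)
  refine RL.delete (k := fun s => fst (fun i => χ s (decide (hh (L s) i = 0)) (pp (L s) i))
    (L s).length + 1) hφ (hk.congr (fun s i _ => ?_)) hL hL' hn (fun s hs => ?_)
  · by_cases h0 : i = 0
    · subst h0; simp
    · simp only [h0, if_false]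
      rw [decide_eq_decide]
      omega
  obtain ⟨A, B, u, v, b, e1, e2, e3, e4⟩ := hi s hs
  refine ⟨A ++ [u], B, v, b, by rw [e1]; simp, by rw [e2]; simp, ?_⟩
  rw [List.length_append, List.length_singleton]
  congr 1
  refine fst_eq (fun i hi => ?_) ?_ ?_
  · unfold hh pp
    rw [e1, gx_append_left hi]
    exact e3 _ (List.getElem_mem hi)
  · unfold hh pp
    rw [e1, gx_append_right (le_refl _) (by simp), Nat.sub_self, gx_lt (by simp)]
    exact e4
  · rw [e1]; simp

end

/-- entries with control data -/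
noncomputable def en2 (p : FG) (κ : KK) (W : List Vs) : List (ℕ × (Pay × KK)) :=
  dec κ (W.map (ent p))

theorem en2_append (p : FG) (κ : KK) (V W : List Vs) :
    en2 p κ (V ++ W) = en2 p κ V ++ en2 p κ W := by simp [en2, dec]

theorem en2_cons (p : FG) (κ : KK) (v : Vs) (W : List Vs) :
    en2 p κ (v :: W) = (FreeGroup.norm (p⁻¹ * v.1), v.2, κ) :: en2 p κ W := rfl

theorem mem_en2 {p : FG} {κ : KK} {W : List Vs} {a : ℕ × (Pay × KK)} (h : a ∈ en2 p κ W) :
    ∃ v ∈ W, a = (FreeGroup.norm (p⁻¹ * v.1), v.2, κ) := by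
  unfold en2 dec at h
  rw [List.map_map, List.mem_map] at h
  obtain ⟨v, h1, h2⟩ := h
  exact ⟨v, h1, h2.symm⟩

theorem nz (p : FG) (v : Vs) : decide (FreeGroup.norm (p⁻¹ * v.1) = 0) = true ↔ v.1 = p := by
  rw [decide_eq_true_iff, FreeGroup.norm_eq_zero, inv_mul_eq_one]
  exact eq_comm

/-- property of the place of insertion -/
def chi1 (d : D) (z : Bool) (a : Pay × KK) : Bool := z && a.1.2.1 && cond d a.2.1 a.1.1

/-- property of the place of deletion -/
def chi6 (d : D) (z : Bool) (a : Pay × KK) : Bool := z && a.1.2.1 && decide (a.1.1 = some (iv d))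

variable (d : D)

/-- the data of the insertion, for all states -/
theorem exA (s : St) : ∃ (A B : List Vs) (o : Option D), Absent d s →
    (cv (T s) s.1 = A ++ (s.2, o, true, decide (s.1 s.2 ≠ 0)) :: B ∧
    cv (T (mv d s)) s.1 = A ++ (s.2, some d, true, decide (s.1 s.2 ≠ 0)) ::
      ((mv d s).2, some (iv d), true, false) :: (s.2, o, true, decide (s.1 s.2 ≠ 0)) :: B ∧
    (∀ v ∈ A, v.1 = s.2 → cond d s.2.toWord.getLast? v.2.1 = false) ∧
    cond d s.2.toWord.getLast? o = true ∧ cond d s.2.toWord.getLast? (some d) = false) := by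
  by_cases h : Absent d s
  · obtain ⟨A, B, o, h1⟩ := cut_absent h
    exact ⟨A, B, o, fun _ => h1⟩
  · exact ⟨[], [], none, fun h' => absurd h' h⟩

/-- the data of the deletion, for all states -/
theorem exP (s : St) : ∃ (A B : List Vs) (o : Option D) (y y' : Bool), Prune d s →
    (cv (T (mv d s)) s.1 = A ++ ((mv d s).2, o, true, y) :: B ∧
    cv (T s) s.1 = A ++ ((mv d s).2, some (iv d), true, y) :: (s.2, some d, true, y') ::
      ((mv d s).2, o, true, y) :: B ∧
    (∀ v ∈ A, v.1 = (mv d s).2 → v.2.1 ≠ some (iv d))) := by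
  by_cases h : Prune d s
  · obtain ⟨A, B, o, y, y', h1⟩ := cut_prune h
    exact ⟨A, B, o, y, y', fun _ => h1⟩
  · exact ⟨[], [], none, false, false, fun h' => absurd h' h⟩

theorem norm_step (s : St) : FreeGroup.norm (s.2⁻¹ * (mv d s).2) = 1 := by
  have : s.2⁻¹ * (mv d s).2 = gl (some d) := by
    show s.2⁻¹ * (s.2 * gl (some d)) = _
    group
  rw [this]
  unfold gl FreeGroup.norm
  rw [toWord_red (by simp)]; rfl

/-- first part: insertion of the new node -/
theorem pipe1 : RL (fun s => en2 s.2 (con d s) (W0 s))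
    (fun s => en2 s.2 (con d s) (Wt (Tm d s) s.1 s.2.toWord ++ [en s.2])) := by
  classical
  choose A B o hA using exA d
  -- the list after the first insertion
  let W1 : St → List Vs := fun s => if Absent d s then
    A s ++ (s.2, some d, true, decide (s.1 s.2 ≠ 0)) :: (s.2, o s, true, decide (s.1 s.2 ≠ 0)) :: B s
      ++ tX [] s.2.toWord ++ [en s.2] else W0 s
  have hT : ∀ s, ¬ Absent d s → Tm d s = T s := by
    intro s hs
    unfold Tm
    split_ifs with h1
    · rfl
    · exact T_same_down h1 hs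
  have hTn : ∀ s, (Tm d s).has [] := by
    intro s; unfold Tm; split_ifs; exacts [T_nil s, T_nil _]
  have g0 : ∀ s, Good (en2 s.2 (con d s) (W0 s)) := fun s => (good_L0 s).dec
  have g2' : ∀ s, Good ((Wt (Tm d s) s.1 s.2.toWord ++ [en s.2]).map (ent s.2)) := fun s =>
    good_W (hTn s) s.1 mk_toWord.symm
  have g2 : ∀ s, Good (en2 s.2 (con d s) (Wt (Tm d s) s.1 s.2.toWord ++ [en s.2])) := fun s =>
    (g2' s).dec
  have e0 : ∀ s, Absent d s → W0 s = A s ++ (s.2, o s, true, decide (s.1 s.2 ≠ 0)) ::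
      (B s ++ tX [] s.2.toWord ++ [en s.2]) := by
    intro s hs
    unfold W0 Wt
    rw [(hA s hs).1]; simp
  have e1 : ∀ s, Absent d s → W1 s = A s ++ (s.2, some d, true, decide (s.1 s.2 ≠ 0)) ::
      (s.2, o s, true, decide (s.1 s.2 ≠ 0)) :: (B s ++ tX [] s.2.toWord ++ [en s.2]) := by
    intro s hs
    simp only [W1]
    rw [if_pos hs]; simp
  have e2 : ∀ s, Absent d s → Wt (Tm d s) s.1 s.2.toWord ++ [en s.2] =
      A s ++ (s.2, some d, true, decide (s.1 s.2 ≠ 0)) :: ((mv d s).2, some (iv d), true, false) ::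
      (s.2, o s, true, decide (s.1 s.2 ≠ 0)) :: (B s ++ tX [] s.2.toWord ++ [en s.2]) := by
    intro s hs
    unfold Wt Tm
    rw [if_neg hs.1, (hA s hs).2.1]; simp
  have g1' : ∀ s, Good ((W1 s).map (ent s.2)) := by
    intro s
    by_cases hs : Absent d s
    · have h1 := good_L0 s
      unfold L0 at h1
      rw [e0 s hs] at h1
      rw [e1 s hs]
      simp only [List.map_append, List.map_cons] at h1 ⊢
      exact h1.insert rfl
    · have : W1 s = W0 s := if_neg hs
      rw [this]; exact good_L0 s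
  have g1 : ∀ s, Good (en2 s.2 (con d s) (W1 s)) := fun s => (g1' s).dec
  have c0 := dl_con (κ := con d) good_L0
  have c1 := dl_con (κ := con d) g1'
  have r1 : RL (fun s => en2 s.2 (con d s) (W0 s)) (fun s => en2 s.2 (con d s) (W1 s)) := by
    refine RL.insertFst (φ := fun s => decide (Absent d s)) (y := fun _ => 0)
      (π := fun s => ((some d, true, decide (s.1 s.2 ≠ 0)), con d s)) (χ := fun _ => chi1 d)
      (c0.map (fun a => a.2.2.1))
      (((dl_zero g0).pair (dl_pay _)).map (fun a => chi1 d a.1 a.2))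
      (c0.map (fun _ => Fin.ofNat 3 0))
      (c0.map (fun a => ((some d, true, a.2.2.2.1), a))) g0 g1 ?_ ?_
    · intro s hs
      have : ¬ Absent d s := by simpa using hs
      simp only [W1]
      rw [if_neg this]
    · intro s hs
      have hs' : Absent d s := by simpa using hs
      refine ⟨en2 s.2 (con d s) (A s), en2 s.2 (con d s) (B s ++ tX [] s.2.toWord ++ [en s.2]),
        (FreeGroup.norm (s.2⁻¹ * s.2), (o s, true, decide (s.1 s.2 ≠ 0)), con d s),
        ?_, ?_, ?_, ?_, ?_⟩
      · rw [e0 s hs', en2_append, en2_cons]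
      · rw [e1 s hs', en2_append, en2_cons, en2_cons]; simp
      · intro a ha
        obtain ⟨v, h1, rfl⟩ := mem_en2 ha
        unfold chi1
        by_cases h2 : v.1 = s.2
        · have := (hA s hs').2.2.1 v h1 h2
          simp only [con]
          rw [this]; simp
        · have : decide (FreeGroup.norm (s.2⁻¹ * v.1) = 0) = false := by
            rw [← Bool.not_eq_true, nz]; exact h2
          simp only [this]; simp
      · unfold chi1
        simp only [con]
        rw [(hA s hs').2.2.2.1]; simp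
      · simp
  have r2 : RL (fun s => en2 s.2 (con d s) (W1 s))
      (fun s => en2 s.2 (con d s) (Wt (Tm d s) s.1 s.2.toWord ++ [en s.2])) := by
    refine RL.insertFst (φ := fun s => decide (Absent d s)) (y := fun _ => 1)
      (π := fun s => ((some (iv d), true, false), con d s)) (χ := fun _ => chi1 d)
      (c1.map (fun a => a.2.2.1))
      (((dl_zero g1).pair (dl_pay _)).map (fun a => chi1 d a.1 a.2))
      (c1.map (fun _ => Fin.ofNat 3 1))
      (c1.map (fun a => ((some (iv d), true, false), a))) g1 g2 ?_ ?_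
    · intro s hs
      have : ¬ Absent d s := by simpa using hs
      simp only [W1]
      rw [if_neg this, hT s this]; rfl
    · intro s hs
      have hs' : Absent d s := by simpa using hs
      refine ⟨en2 s.2 (con d s) (A s ++ [(s.2, some d, true, decide (s.1 s.2 ≠ 0))]),
        en2 s.2 (con d s) (B s ++ tX [] s.2.toWord ++ [en s.2]),
        (FreeGroup.norm (s.2⁻¹ * s.2), (o s, true, decide (s.1 s.2 ≠ 0)), con d s),
        ?_, ?_, ?_, ?_, ?_⟩
      · rw [e1 s hs', en2_append, en2_append, en2_cons, en2_cons, en2_cons]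
        simp [en2, dec]
      · rw [e2 s hs', en2_append, en2_append, en2_cons, en2_cons, en2_cons, en2_cons]
        simp [en2, dec, norm_step]
      · intro a ha
        obtain ⟨v, h1, rfl⟩ := mem_en2 ha
        unfold chi1
        rw [List.mem_append, List.mem_singleton] at h1
        rcases h1 with h1 | rfl
        · by_cases h2 : v.1 = s.2
          · have := (hA s hs').2.2.1 v h1 h2
            simp only [con]
            rw [this]; simp
          · have : decide (FreeGroup.norm (s.2⁻¹ * v.1) = 0) = false := by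
              rw [← Bool.not_eq_true, nz]; exact h2
            simp only [this]; simp
        · simp only [con]
          rw [(hA s hs').2.2.2.2]; simp
      · unfold chi1
        simp only [con]
        rw [(hA s hs').2.2.2.1]; simp
      · simp
  exact r1.trans r2

end Pool.Agent.Q27.LT
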