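import Pool.Agent.Q27.LT.Pipe

/-!
# One step of the lamplighter, second part
-/

namespace Pool.Agent.Q27.LT

open FreeGroup

variable (d : D)

theorem Tm_nil (s : St) : (Tm d s).has [] := by
  unfold Tm; split_ifs
  exacts [T_nil s, T_nil _]

/-- the common beginning of the walks -/
noncomputable def Xc (s : St) : List Vs :=
  open Classical in
  Wt (Tm d s) s.1 (if Up d s then (mv d s).2.toWord else s.2.toWord)

theorem Wt_snoc (t : Tr) (f : FG → ZMod 2) (π : List D) (c : D) :
    Wt t f (π ++ [c]) = Wt t f π ++ [(FreeGroup.mk π, some c, false, false)] := by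
  unfold Wt
  rw [tX_snoc]
  simp

theorem W3_up {s : St} (h : Up d s) :
    W3 d (Xc d) s = Wt (Tm d s) s.1 s.2.toWord ++ [en s.2] := by
  unfold W3 Xc
  rw [if_pos h, if_pos h]
  conv_rhs => rw [word_up h, Wt_snoc, mk_toWord]
  simp

theorem W3_down {s : St} (h : ¬ Up d s) :
    W3 d (Xc d) s = Wt (Tm d s) s.1 s.2.toWord ++ [en s.2] ++ [en s.2] := by
  unfold W3 Xc
  rw [if_neg h, if_neg h]
  simp

theorem W4_up {s : St} (h : Up d s) :
    W4 d (Xc d) s = Wt (Tm d s) s.1 (mv d s).2.toWord ++ [en (mv d s).2] ++ [en (mv d s).2] := by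
  unfold W4 Xc
  rw [if_pos h, if_pos h]
  simp

theorem W4_down {s : St} (h : ¬ Up d s) :
    W4 d (Xc d) s = Wt (Tm d s) s.1 (mv d s).2.toWord ++ [en (mv d s).2] := by
  unfold W4 Xc
  rw [if_neg h, if_neg h]
  conv_rhs => rw [word_down h, Wt_snoc, mk_toWord]
  simp

theorem ch_snoc {W : List Vs} {p : FG} (h : Ch (W ++ [en p])) : Ch (W ++ [en p] ++ [en p]) := by
  unfold Ch at h ⊢
  rw [List.isChain_append]
  refine ⟨h, by simp, fun x hx y hy => ?_⟩
  simp at hx hy
  subst hx hy
  simp [en, gl]

theorem ch_W3 (s : St) : Ch (W3 d (Xc d) s) := by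
  by_cases h : Up d s
  · rw [W3_up d h]
    exact ch_Wt (Tm_nil d s) _ _ _ mk_toWord.symm
  · rw [W3_down d h]
    exact ch_snoc (ch_Wt (Tm_nil d s) _ _ _ mk_toWord.symm)

theorem ch_W4 (s : St) : Ch (W4 d (Xc d) s) := by
  by_cases h : Up d s
  · rw [W4_up d h]
    exact ch_snoc (ch_Wt (Tm_nil d s) _ _ _ mk_toWord.symm)
  · rw [W4_down d h]
    exact ch_Wt (Tm_nil d s) _ _ _ mk_toWord.symm

/-- second part: the move -/
theorem pipe2 : RL (fun s => en2 s.2 (con d s) (Wt (Tm d s) s.1 s.2.toWord ++ [en s.2]))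
    (fun s => en2 (mv d s).2 (con d s)
      (Wt (Tm d s) s.1 (mv d s).2.toWord ++ [en (mv d s).2])) := by
  classical
  have g2' : ∀ s, Good ((Wt (Tm d s) s.1 s.2.toWord ++ [en s.2]).map (ent s.2)) := fun s =>
    good_W (Tm_nil d s) s.1 mk_toWord.symm
  have g2 : ∀ s, Good (en2 s.2 (con d s) (Wt (Tm d s) s.1 s.2.toWord ++ [en s.2])) := fun s =>
    (g2' s).dec
  have g5' : ∀ s, Good ((Wt (Tm d s) s.1 (mv d s).2.toWord ++ [en (mv d s).2]).map
      (ent (mv d s).2)) := fun s => good_W (Tm_nil d s) s.1 mk_toWord.symm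
  have g5 : ∀ s, Good (en2 (mv d s).2 (con d s)
      (Wt (Tm d s) s.1 (mv d s).2.toWord ++ [en (mv d s).2])) := fun s => (g5' s).dec
  have c2 := dl_con (κ := con d) g2'
  have g4' : ∀ s, Good ((W4 d (Xc d) s).map (ent (mv d s).2)) := fun s =>
    good_of_ch (by rw [W4_eq]; simp) (ch_W4 d s) (by simp [W4_eq, en])
  have c4 := dl_con (κ := con d) g4'
  have r1 : RL (fun s => en2 s.2 (con d s) (Wt (Tm d s) s.1 s.2.toWord ++ [en s.2]))
      (fun s => dec (con d s) ((W3 d (Xc d) s).map (ent s.2))) := by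
    refine RL.append (φ := fun s => !decide (Up d s)) (c2.map (fun a => !a.2.1)) g2 (fun s => ?_)
    by_cases h : Up d s
    · rw [W3_up d h]
      simp [h, en2]
    · rw [W3_down d h]
      simp only [h, decide_false, Bool.not_false, if_true]
      simp [en2, dec]
  have r2 := turn_rl d (Xc d) (ch_W3 d) (ch_W4 d)
  have r3 : RL (fun s => dec (con d s) ((W4 d (Xc d) s).map (ent (mv d s).2)))
      (fun s => en2 (mv d s).2 (con d s)
        (Wt (Tm d s) s.1 (mv d s).2.toWord ++ [en (mv d s).2])) := by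
    refine RL.chop (φ := fun s => decide (Up d s)) (c4.map (fun a => a.2.1)) g5 (fun s => ?_)
    by_cases h : Up d s
    · rw [W4_up d h]
      simp only [h, decide_true, if_true]
      simp [en2, dec]
    · rw [W4_down d h]
      simp [h, en2]
  exact (r1.trans r2).trans r3

/-- third part: the deletion of the old node -/
theorem pipe3 : RL (fun s => en2 (mv d s).2 (con d s)
      (Wt (Tm d s) s.1 (mv d s).2.toWord ++ [en (mv d s).2]))
    (fun s => en2 (mv d s).2 (con d s) (W0 (mv d s))) := by
  classical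
  choose A B o y y' hA using exP d
  let W6 : St → List Vs := fun s => if Prune d s then
    A s ++ ((mv d s).2, some (iv d), true, y s) :: ((mv d s).2, o s, true, y s) ::
      (B s ++ tX [] (mv d s).2.toWord ++ [en (mv d s).2]) else W0 (mv d s)
  have g5' : ∀ s, Good ((Wt (Tm d s) s.1 (mv d s).2.toWord ++ [en (mv d s).2]).map
      (ent (mv d s).2)) := fun s => good_W (Tm_nil d s) s.1 mk_toWord.symm
  have g5 : ∀ s, Good (en2 (mv d s).2 (con d s)
      (Wt (Tm d s) s.1 (mv d s).2.toWord ++ [en (mv d s).2])) := fun s => (g5' s).dec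
  have g7 : ∀ s, Good (en2 (mv d s).2 (con d s) (W0 (mv d s))) := fun s => (good_L0 (mv d s)).dec
  have e5 : ∀ s, Prune d s → Wt (Tm d s) s.1 (mv d s).2.toWord ++ [en (mv d s).2] =
      A s ++ ((mv d s).2, some (iv d), true, y s) :: (s.2, some d, true, y' s) ::
        ((mv d s).2, o s, true, y s) :: (B s ++ tX [] (mv d s).2.toWord ++ [en (mv d s).2]) := by
    intro s hs
    unfold Wt Tm
    rw [if_pos hs.1, (hA s hs).2.1]; simp
  have e6 : ∀ s, Prune d s → W6 s =
      A s ++ ((mv d s).2, some (iv d), true, y s) ::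
        ((mv d s).2, o s, true, y s) :: (B s ++ tX [] (mv d s).2.toWord ++ [en (mv d s).2]) := by
    intro s hs
    simp only [W6]
    rw [if_pos hs]
  have e7 : ∀ s, Prune d s → W0 (mv d s) =
      A s ++ ((mv d s).2, o s, true, y s) ::
        (B s ++ tX [] (mv d s).2.toWord ++ [en (mv d s).2]) := by
    intro s hs
    unfold W0 Wt
    rw [show (mv d s).1 = s.1 from rfl, (hA s hs).1]; simp
  have g6' : ∀ s, Good ((W6 s).map (ent (mv d s).2)) := by
    intro s
    by_cases hs : Prune d s
    · have h1 := good_L0 (mv d s)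
      unfold L0 at h1
      rw [e7 s hs] at h1
      rw [e6 s hs]
      simp only [List.map_append, List.map_cons] at h1 ⊢
      exact h1.insert rfl
    · have : W6 s = W0 (mv d s) := if_neg hs
      rw [this]; exact good_L0 (mv d s)
  have g6 : ∀ s, Good (en2 (mv d s).2 (con d s) (W6 s)) := fun s => (g6' s).dec
  have c5 := dl_con (κ := con d) g5'
  have c6 := dl_con (κ := con d) g6'
  have hχ : ∀ s, Prune d s → ∀ a ∈ en2 (mv d s).2 (con d s) (A s),
      chi6 d (decide (a.1 = 0)) a.2 = false := by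
    intro s hs a ha
    obtain ⟨v, h1, rfl⟩ := mem_en2 ha
    unfold chi6
    by_cases h2 : v.1 = (mv d s).2
    · have := (hA s hs).2.2 v h1 h2
      simp [this]
    · have : decide (FreeGroup.norm ((mv d s).2⁻¹ * v.1) = 0) = false := by
        rw [← Bool.not_eq_true, nz]; exact h2
      simp only [this]; simp
  have r1 : RL (fun s => en2 (mv d s).2 (con d s)
      (Wt (Tm d s) s.1 (mv d s).2.toWord ++ [en (mv d s).2]))
      (fun s => en2 (mv d s).2 (con d s) (W6 s)) := by
    refine RL.deleteNext (φ := fun s => decide (Prune d s)) (χ := fun _ => chi6 d)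
      (c5.map (fun a => a.2.2.2.2))
      (((dl_zero g5).pair (dl_pay _)).map (fun a => chi6 d a.1 a.2)) g5 g6 ?_ ?_
    · intro s hs
      have h1 : ¬ Prune d s := by simpa using hs
      have h2 : Tm d s = T (mv d s) := by
        unfold Tm
        split_ifs with h2
        · exact (T_same_up h2 h1).symm
        · rfl
      simp only [W6]
      rw [if_neg h1, h2]; rfl
    · intro s hs
      have hs' : Prune d s := by simpa using hs
      refine ⟨en2 (mv d s).2 (con d s) (A s),
        en2 (mv d s).2 (con d s) (B s ++ tX [] (mv d s).2.toWord ++ [en (mv d s).2]),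
        (FreeGroup.norm ((mv d s).2⁻¹ * (mv d s).2), (some (iv d), true, y s), con d s),
        (FreeGroup.norm ((mv d s).2⁻¹ * s.2), (some d, true, y' s), con d s),
        (FreeGroup.norm ((mv d s).2⁻¹ * (mv d s).2), (o s, true, y s), con d s), ?_, ?_, ?_, ?_⟩
      · rw [e5 s hs', en2_append, en2_cons, en2_cons, en2_cons]
      · rw [e6 s hs', en2_append, en2_cons, en2_cons]
      · exact hχ s hs'
      · simp [chi6]
  have r2 : RL (fun s => en2 (mv d s).2 (con d s) (W6 s))
      (fun s => en2 (mv d s).2 (con d s) (W0 (mv d s))) := by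
    refine RL.deleteFst (φ := fun s => decide (Prune d s)) (χ := fun _ => chi6 d)
      (c6.map (fun a => a.2.2.2.2))
      (((dl_zero g6).pair (dl_pay _)).map (fun a => chi6 d a.1 a.2)) g6 g7 ?_ ?_
    · intro s hs
      have h1 : ¬ Prune d s := by simpa using hs
      simp only [W6]
      rw [if_neg h1]
    · intro s hs
      have hs' : Prune d s := by simpa using hs
      refine ⟨en2 (mv d s).2 (con d s) (A s),
        en2 (mv d s).2 (con d s) (B s ++ tX [] (mv d s).2.toWord ++ [en (mv d s).2]),
        (FreeGroup.norm ((mv d s).2⁻¹ * (mv d s).2), (some (iv d), true, y s), con d s),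
        (FreeGroup.norm ((mv d s).2⁻¹ * (mv d s).2), (o s, true, y s), con d s), ?_, ?_, ?_, ?_⟩
      · rw [e6 s hs', en2_append, en2_cons, en2_cons]
      · rw [e7 s hs', en2_append, en2_cons]
      · exact hχ s hs'
      · simp [chi6]
  exact r1.trans r2

/-- **One move.** -/
theorem rl_move : RL L0 (fun s => L0 (mv d s)) := by
  have h0 : RL L0 (fun s => en2 s.2 (con d s) (W0 s)) := RL.dec good_L0 (dl_con0 d)
  have h4 : RL (fun s => en2 (mv d s).2 (con d s) (W0 (mv d s))) (fun s => L0 (mv d s)) :=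
    RL.undec (fun s => good_L0 (mv d s))
  exact (((h0.trans (pipe1 d)).trans (pipe2 d)).trans (pipe3 d)).trans h4

/-- toggle the lamp -/
noncomputable def tog (s : St) : St := (s.1 + Finsupp.single s.2 1, s.2)

theorem tog_ne (s : St) (x : FG) (h : x ≠ s.2) : (tog s).1 x = s.1 x := by
  unfold tog
  simp [Ne.symm h]

theorem tog_eq (s : St) : decide ((tog s).1 s.2 ≠ 0) = !decide (s.1 s.2 ≠ 0) := by
  unfold tog
  simp only [Finsupp.coe_add, Pi.add_apply, Finsupp.single_eq_same]
  generalize s.1 s.2 = a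
  revert a
  decide

theorem T_tog (s : St) : T (tog s) = T s := by
  apply Q251.LT.s_ext
  intro π
  rw [has_T, has_T]
  apply exists_congr
  intro x
  apply and_congr_left
  intro _
  by_cases h : x = s.2
  · have h' : x = (tog s).2 := h
    simp only [h, true_or, iff_true]
    exact Or.inl rfl
  · rw [tog_ne s x h]
    have : (tog s).2 = s.2 := rfl
    rw [this]

/-- **One toggle.** -/
theorem rl_tog : RL L0 (fun s => L0 (tog s)) := by
  classical
  let g : Pay → Bool → Pay := fun y z => (y.1, y.2.1, y.2.2 != (z && y.2.1))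
  have hW : ∀ s, W0 (tog s) = (W0 s).map (fun v => (v.1, g v.2 (decide (v.1 = s.2)))) := by
    intro s
    unfold W0 Wt
    rw [T_tog]
    have e1 : cv (T s) (tog s).1 = (cv (T s) s.1).map
        (fun v => (v.1, g v.2 (decide (v.1 = s.2)))) := by
      unfold cv
      rw [List.map_map]
      apply List.map_congr_left
      intro v _
      show (FreeGroup.mk v.1, v.2, true, decide ((tog s).1 (FreeGroup.mk v.1) ≠ 0)) =
        (FreeGroup.mk v.1, g (v.2, true, decide (s.1 (FreeGroup.mk v.1) ≠ 0))
          (decide (FreeGroup.mk v.1 = s.2)))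
      generalize (FreeGroup.mk v.1 : FG) = x
      by_cases h : x = s.2
      · subst h
        rw [tog_eq]; simp [g]
      · rw [tog_ne s _ h]; simp [h, g]
    have e2 : tX [] s.2.toWord = (tX [] s.2.toWord).map
        (fun v => (v.1, g v.2 (decide (v.1 = s.2)))) := by
      conv_lhs => rw [← List.map_id (tX [] s.2.toWord)]
      apply List.map_congr_left
      intro v hv
      have h1 := tX_reg hv
      obtain ⟨x, a, b, c⟩ := v
      simp only at h1
      simp [g, h1]
    have e3 : [en (tog s).2] = [en s.2].map (fun v => (v.1, g v.2 (decide (v.1 = s.2)))) := by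
      simp [en, g, tog]
    rw [List.map_append, List.map_append, ← e1, ← e3, ← e2]
    rfl
  have hne : ∀ s, W0 s ≠ [] := fun s => by unfold W0; simp
  have key : ∀ s i, gx (L0 (tog s)) i = (hh (L0 s) i, g (pp (L0 s) i) (decide (hh (L0 s) i = 0))) := by
    intro s i
    unfold hh pp L0
    rw [gx_map (hne _), gx_map (hne _), hW, gx_map (hne _)]
    unfold ent
    simp only
    congr 2
    rw [decide_eq_decide, FreeGroup.norm_eq_zero, inv_mul_eq_one]
    exact eq_comm
  refine RL.pay good_L0 (fun s => ?_) (fun s i _ => ?_) ?_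
  · unfold L0; rw [hW]; simp
  · unfold hh
    rw [key]; rfl
  · refine ((dl_zero good_L0).map₂ (dl_pay L0) (fun z y => g y z)).congr (fun s i _ => ?_)
    unfold pp
    rw [key]; rfl

end Pool.Agent.Q27.LT
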