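import Pool.Agent.Q27.LT.Lists

/-!
# Scans over visits and operations on lists of visits
-/

namespace Pool.Agent.Q27.LT

section
variable {ι Pl Pl' : Type} [Inhabited Pl] [Inhabited Pl'] [Finite Pl] [Finite Pl']
variable {C C' C'' : Type} {L : ι → List (ℕ × Pl)} {Y : ι → ℕ → C} {Z : ι → ℕ → C'}

/-- the parity of the cell -/
theorem d_par {A : Type} [Finite A] {N : ι → ℕ} (X : ι → ℕ → A) :
    Der N X (fun _ j => decide (j % 2 = 1)) := by
  refine (Der.refl (N := N) X).scanL false (fun q _ => !q) (fun _ j => decide (j % 2 = 1)) ?_ ?_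
  · intro s; rfl
  · intro s j _
    rcases Nat.mod_two_eq_zero_or_one j with h | h
    · have : (j + 1) % 2 = 1 := by omega
      simp [h, this]
    · have : (j + 1) % 2 = 0 := by omega
      simp [h, this]

/-- scan of the visits from the left -/
theorem DL.scanL [Finite C] {Q : Type} [Finite Q] (h : DL L Y) (q0 : Q)
    (f : Q → C → Q) (σ : ι → ℕ → Q) (h0 : ∀ s, σ s 0 = q0)
    (h1 : ∀ s, ∀ i < (L s).length, σ s (i + 1) = f (σ s i) (Y s i)) : DL L σ := by
  unfold DL at h ⊢
  have hp := h.pair (d_par (N := fun s => 2 * (L s).length) (fun s => ltp (L s)))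
  refine hp.scanL q0 (fun q y => if y.2 then f q y.1 else q) (fun s j => σ s (j / 2)) ?_ ?_
  · intro s; simp [h0]
  · intro s j hj
    rcases Nat.mod_two_eq_zero_or_one j with h | h
    · have : (j + 1) / 2 = j / 2 := by omega
      simp [h, this]
    · have : (j + 1) / 2 = j / 2 + 1 := by omega
      simp [h, this, h1 s (j / 2) (by omega)]

/-- scan of the visits from the right -/
theorem DL.scanR [Finite C] {Q : Type} [Finite Q] (h : DL L Y) (q0 : Q)
    (f : Q → C → Q) (ρ : ι → ℕ → Q) (h0 : ∀ s, ρ s (L s).length = q0)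
    (h1 : ∀ s, ∀ i < (L s).length, ρ s i = f (ρ s (i + 1)) (Y s i)) :
    DL L (fun s i => ρ s (i + 1)) := by
  unfold DL at h ⊢
  have hp := h.pair (d_par (N := fun s => 2 * (L s).length) (fun s => ltp (L s)))
  refine (hp.scanR q0 (fun q y => if y.2 then q else f q y.1)
    (fun s j => ρ s ((j + 1) / 2)) ?_ ?_).congr ?_
  · intro s
    rw [show (2 * (L s).length + 1) / 2 = (L s).length by omega]; exact h0 s
  · intro s j hj
    rcases Nat.mod_two_eq_zero_or_one j with h | h
    · have e1 : (j + 1) / 2 = j / 2 := by omega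
      have e2 : (j + 1 + 1) / 2 = j / 2 + 1 := by omega
      simp [h, e1, e2, h1 s (j / 2) (by omega)]
    · have e1 : (j + 1 + 1) / 2 = (j + 1) / 2 := by omega
      simp [h, e1]
  · intro s j hj
    show ρ s ((j + 1 + 1) / 2) = ρ s (j / 2 + 1)
    rw [show (j + 1 + 1) / 2 = j / 2 + 1 by omega]

/-- the previous visit -/
theorem DL.prev [Finite C] (h : DL L Y) (d : C) :
    DL L (fun s i => if i = 0 then d else Y s (i - 1)) := by
  refine h.scanL d (fun _ b => b) (fun s i => if i = 0 then d else Y s (i - 1)) ?_ ?_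
  · intro s; simp
  · intro s i _; simp

/-- the next visit -/
theorem DL.next [Finite C] (h : DL L Y) (d : C) :
    DL L (fun s i => if i + 1 < (L s).length then Y s (i + 1) else d) := by
  refine h.scanR d (fun _ b => b) (fun s i => if i < (L s).length then Y s i else d) ?_ ?_
  · intro s; simp
  · intro s i hi; simp [hi]

/-- the value at the last visit -/
theorem DL.last [Finite C] (h : DL L Y) : DL L (fun s _ => Y s ((L s).length - 1)) := by
  have h1 := h.scanR (none : Option C) (fun q y => some (q.getD y))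
    (fun s i => if i < (L s).length then some (Y s ((L s).length - 1)) else none) ?_ ?_
  · refine (h1.map₂ h (fun a b => a.getD b)).congr (fun s i hi => ?_)
    by_cases h2 : i + 1 < (L s).length
    · simp [h2]
    · have h3 : i = (L s).length - 1 := by omega
      rw [if_neg h2, ← h3]; rfl
  · intro s; simp
  · intro s i hi
    by_cases h2 : i + 1 < (L s).length
    · simp [hi, h2]
    · have h3 : i = (L s).length - 1 := by omega
      rw [if_pos hi, if_neg h2, ← h3]; rfl

/-- the value at the visit before the last one -/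
theorem DL.last2 [Finite C] (h : DL L Y) (h2 : ∀ s, 2 ≤ (L s).length) :
    DL L (fun s _ => Y s ((L s).length - 2)) := by
  have h1 := ((h.map some).prev none).last
  have h3 := h1.map₂ h (fun a b => a.getD b)
  refine h3.congr (fun s i hi => ?_)
  have := h2 s
  have e1 : (L s).length - 1 ≠ 0 := by omega
  have e2 : (L s).length - 1 - 1 = (L s).length - 2 := by omega
  simp [e1, e2]

/-- index of the first visit before `m` with the property `χ`, or `m` -/
noncomputable def fst (χ : ℕ → Bool) (m : ℕ) : ℕ := sInf {i | χ i = true ∨ m ≤ i}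

theorem fst_spec (χ : ℕ → Bool) (m : ℕ) : χ (fst χ m) = true ∨ m ≤ fst χ m :=
  Nat.sInf_mem (s := {i | χ i = true ∨ m ≤ i}) ⟨m, Or.inr (le_refl m)⟩

theorem fst_le (χ : ℕ → Bool) (m : ℕ) {i : ℕ} (h : χ i = true ∨ m ≤ i) : fst χ m ≤ i :=
  Nat.sInf_le h

theorem fst_eq {χ : ℕ → Bool} {m k : ℕ} (h1 : ∀ i < k, χ i = false) (h2 : χ k = true)
    (h3 : k ≤ m) : fst χ m = k := by
  apply le_antisymm (fst_le χ m (Or.inl h2))
  by_contra h
  rcases fst_spec χ m with h4 | h4
  · rw [h1 _ (by omega)] at h4; cases h4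
  · omega

theorem fst_none {χ : ℕ → Bool} {m : ℕ} (h : m ≤ fst χ m) (i : ℕ) (hi : i < m) : χ i = false := by
  by_contra h1
  have := fst_le χ m (i := i) (Or.inl (by simpa using h1))
  omega

theorem DL.fst {χ : ι → ℕ → Bool} (h : DL L χ) :
    DL L (fun s i => decide (fst (χ s) (L s).length ≤ i)) := by
  have h1 := h.scanL false (fun q y => q || y)
    (fun s i => decide (LT.fst (χ s) (L s).length < i)) ?_ ?_
  · refine (h1.map₂ h (fun a b => a || b)).congr (fun s i hi => ?_)
    have h2 := fst_spec (χ s) (L s).length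
    have h3 := @fst_le (χ s) (L s).length
    rcases lt_trichotomy (LT.fst (χ s) (L s).length) i with h4 | h4 | h4
    · simp [h4, h4.le]
    · rcases h2 with h2 | h2
      · rw [h4] at h2; simp [h4, h2]
      · omega
    · have h5 : χ s i = false := by
        by_contra h5
        have := h3 (i := i) (Or.inl (by simpa using h5))
        omega
      have h6 : ¬ (LT.fst (χ s) (L s).length < i) := by omega
      have h7 : ¬ (LT.fst (χ s) (L s).length ≤ i) := by omega
      simp [h5, h6, h7]
  · intro s; simp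
  · intro s i hi
    have h2 := fst_spec (χ s) (L s).length
    have h3 := @fst_le (χ s) (L s).length
    rcases lt_trichotomy (LT.fst (χ s) (L s).length) i with h4 | h4 | h4
    · have : LT.fst (χ s) (L s).length < i + 1 := by omega
      simp [h4, this]
    · rcases h2 with h2 | h2
      · rw [h4] at h2; simp [h4, h2]
      · omega
    · have h5 : χ s i = false := by
        by_contra h5
        have := h3 (i := i) (Or.inl (by simpa using h5))
        omega
      have h6 : ¬ (LT.fst (χ s) (L s).length < i) := by omega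
      have h7 : ¬ (LT.fst (χ s) (L s).length < i + 1) := by omega
      simp [h5, h6, h7]

/-! ### operations -/

variable {L' : ι → List (ℕ × Pl')}

/-- update of all entries -/
theorem RL.upd (hL : ∀ s, Good (L s)) (hL' : ∀ s, Good (L' s))
    (hlen : ∀ s, (L' s).length = (L s).length)
    (near : ∀ s i, hh (L' s) i ≤ hh (L s) i + 1 ∧ hh (L s) i ≤ hh (L' s) i + 1)
    (hr : DL L (fun s i => Fin.ofNat 3 (hh (L' s) i))) (hP : DL L (fun s => pp (L' s))) :
    RL L L' := by
  have hok : ∀ s, Ok (L s).length (hh (L' s)) := fun s => hlen s ▸ (hL' s).ok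
  have h := (updV (m := fun s => (L s).length) (H := fun s => hh (L s)) (H' := fun s => hh (L' s))
    (P := fun s => pp (L s)) (P' := fun s => pp (L' s)) (fun s => (hL s).ok) hok near hr hP).red
  obtain ⟨F, hF, h1⟩ := h
  refine ⟨F, hF, fun s => ?_⟩
  have h2 := h1 s
  unfold ltp
  simp only [hlen s]
  exact h2

/-- update of the payload -/
theorem RL.pay (hL : ∀ s, Good (L s)) (hlen : ∀ s, (L' s).length = (L s).length)
    (hh' : ∀ s, ∀ i < (L s).length, hh (L' s) i = hh (L s) i) (hP : DL L (fun s => pp (L' s))) :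
    RL L L' := by
  have e : ∀ s i, hh (L' s) i = hh (L s) i := by
    intro s i
    have h1 := (hL s).pos
    by_cases h : i < (L s).length
    · exact hh' s i h
    · have e1 := hh' s ((L s).length - 1) (by omega)
      unfold hh at e1 ⊢
      rw [gx_ge (L := L' s) (by rw [hlen]; omega), gx_ge (L := L s) (by omega), hlen s]
      exact e1
  have hd : DL L (fun s i => Fin.ofNat 3 (hh (L' s) i)) :=
    (dl_res L).congr (fun s i _ => by rw [e])
  have hok : ∀ s, Ok (L s).length (hh (L' s)) := by
    intro s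
    have : hh (L' s) = hh (L s) := funext (e s)
    rw [this]; exact (hL s).ok
  have h := (updV (m := fun s => (L s).length) (H := fun s => hh (L s)) (H' := fun s => hh (L' s))
    (P := fun s => pp (L s)) (P' := fun s => pp (L' s)) (fun s => (hL s).ok) hok
    (fun s i => by rw [e]; omega) hd hP).red
  obtain ⟨F, hF, h1⟩ := h
  refine ⟨F, hF, fun s => ?_⟩
  have h2 := h1 s
  unfold ltp
  simp only [hlen s]
  exact h2

/-- repeat the last entry if the flag is true -/
theorem RL.append {L' : ι → List (ℕ × Pl)} {φ : ι → Bool} (hφ : DL L (fun s _ => φ s))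
    (hL : ∀ s, Good (L s)) (h : ∀ s, L' s = if φ s then L s ++ [(L s).getLast (hL s).ne] else L s) :
    RL L L' := by
  have h0 := appendV (m := fun s => (L s).length) (H := fun s => hh (L s))
    (P := fun s => pp (L s)) hφ (fun s => (hL s).ok) (fun s => pfin (L s))
  obtain ⟨F, hF, h1⟩ := h0
  refine ⟨F, hF, fun s => ?_⟩
  have h2 := h1 s
  unfold ltp at h2 ⊢
  rw [h2]
  simp only [h s]
  by_cases hs : φ s = true
  · simp only [hs, if_true, List.length_append, List.length_singleton]
    have e1 : hh (L s ++ [(L s).getLast (hL s).ne]) = hh (L s) := by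
      funext i; unfold hh; rw [gx_snoc]
    have e2 : pp (L s ++ [(L s).getLast (hL s).ne]) = pp (L s) := by
      funext i; unfold pp; rw [gx_snoc]
    rw [e1, e2]
  · simp only [hs, if_false, Bool.false_eq_true]

/-- remove the repeated last entry if the flag is true -/
theorem RL.chop {L' : ι → List (ℕ × Pl)} {φ : ι → Bool} (hφ : DL L (fun s _ => φ s))
    (hL : ∀ s, Good (L' s)) (h : ∀ s, L s = if φ s then L' s ++ [(L' s).getLast (hL s).ne] else L' s) :
    RL L L' := by
  have hpos : ∀ s, 1 ≤ (L s).length := by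
    intro s; rw [h s]
    have := (hL s).pos
    split_ifs
    · simp
    · omega
  have h0 := chopV (m := fun s => (L s).length) (H := fun s => hh (L s))
    (P := fun s => pp (L s)) hφ hpos (fun s hs => by
      rw [h s, if_pos hs]
      have := (hL s).pos
      simp; omega)
  obtain ⟨F, hF, h1⟩ := h0
  refine ⟨F, hF, fun s => ?_⟩
  have h2 := h1 s
  unfold ltp at h2 ⊢
  rw [h2]
  have h3 := h s
  by_cases hs : φ s = true
  · simp only [hs, if_true] at h3 ⊢
    have e1 : hh (L s) = hh (L' s) := by
      funext i; unfold hh; rw [h3, gx_snoc]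
    have e2 : pp (L s) = pp (L' s) := by
      funext i; unfold pp; rw [h3, gx_snoc]
    have e3 : (L s).length - 1 = (L' s).length := by rw [h3]; simp
    rw [e1, e2, e3]
  · simp only [hs, if_false, Bool.false_eq_true] at h3 ⊢
    rw [h3]

/-- insertion -/
theorem RL.insert {L' : ι → List (ℕ × Pl)} {φ : ι → Bool} {k y : ι → ℕ} {π : ι → Pl}
    (hφ : DL L (fun s _ => φ s)) (hk : DL L (fun s i => decide (k s ≤ i)))
    (hy : DL L (fun s _ => Fin.ofNat 3 (y s))) (hπ : DL L (fun s _ => π s))
    (hL : ∀ s, Good (L s)) (hL' : ∀ s, Good (L' s))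
    (hn : ∀ s, φ s = false → L' s = L s)
    (hi : ∀ s, φ s = true → ∃ A B b, L s = A ++ b :: B ∧ L' s = A ++ (y s, π s) :: b :: B ∧
      k s = A.length ∧ y s ≤ b.1 + 1 ∧ b.1 ≤ y s + 1) : RL L L' := by
  have key : ∀ s, φ s = true → hh (L' s) = insAt (k s) (y s) (hh (L s)) ∧
      pp (L' s) = insAt (k s) (π s) (pp (L s)) ∧ (L' s).length = (L s).length + 1 ∧
      k s + 1 ≤ (L s).length ∧ y s ≤ hh (L s) (k s) + 1 ∧ hh (L s) (k s) ≤ y s + 1 := by
    intro s hs
    obtain ⟨A, B, b, e1, e2, e3, e4, e5⟩ := hi s hs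
    have g := fun i => gx_insert (A := A) (B' := b :: B) (v := (y s, π s)) (by simp) i
    have e6 : hh (L s) (k s) = b.1 := by
      unfold hh
      rw [e1, e3, gx_append_right (by omega) (by simp), Nat.sub_self, gx_lt (by simp)]; rfl
    refine ⟨?_, ?_, ?_, ?_, ?_, ?_⟩
    · funext i
      unfold hh
      rw [e1, e2, e3, g i]
      unfold insAt
      split_ifs <;> rfl
    · funext i
      unfold pp
      rw [e1, e2, e3, g i]
      unfold insAt
      split_ifs <;> rfl
    · rw [e1, e2]; simp; omega
    · rw [e1, e3]; simp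
    · rw [e6]; exact e4
    · rw [e6]; exact e5
  have h0 := insertV (m := fun s => (L s).length) (H := fun s => hh (L s))
    (P := fun s => pp (L s)) (φ := φ) (k := k) (y := y) (π := π) hφ hk hy hπ
    (fun s => (hL s).ok) (fun s => pfin (L s)) (fun s hs => (key s hs).2.2.2.1)
    (fun s hs => by rw [← (key s hs).1]; exact (hL' s).ok.lip)
    (fun s hs => ⟨(key s hs).2.2.2.2.1, (key s hs).2.2.2.2.2⟩)
  obtain ⟨F, hF, h1⟩ := h0
  refine ⟨F, hF, fun s => ?_⟩
  have h2 := h1 s
  unfold ltp at h2 ⊢
  rw [h2]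
  by_cases hs : φ s = true
  · obtain ⟨g1, g2, g3, -⟩ := key s hs
    simp only [hs, if_true]
    rw [g1, g2, g3]
  · simp only [Bool.not_eq_true] at hs
    simp only [hs, if_false, Bool.false_eq_true]
    rw [hn s hs]

/-- deletion -/
theorem RL.delete {L' : ι → List (ℕ × Pl)} {φ : ι → Bool} {k : ι → ℕ}
    (hφ : DL L (fun s _ => φ s)) (hk : DL L (fun s i => decide (k s ≤ i)))
    (hL : ∀ s, Good (L s)) (hL' : ∀ s, Good (L' s))
    (hn : ∀ s, φ s = false → L' s = L s)
    (hi : ∀ s, φ s = true → ∃ A B v b, L s = A ++ v :: b :: B ∧ L' s = A ++ b :: B ∧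
      k s = A.length) : RL L L' := by
  have key : ∀ s, φ s = true → hh (L' s) = delAt (k s) (hh (L s)) ∧
      pp (L' s) = delAt (k s) (pp (L s)) ∧ (L' s).length = (L s).length - 1 ∧
      k s + 2 ≤ (L s).length := by
    intro s hs
    obtain ⟨A, B, v, b, e1, e2, e3⟩ := hi s hs
    have g := fun i => gx_delete (A := A) (B' := b :: B) (v := v) (by simp) i
    refine ⟨?_, ?_, ?_, ?_⟩
    · funext i
      unfold hh
      rw [e1, e2, e3, g i]
      unfold delAt
      split_ifs <;> rfl
    · funext i
      unfold pp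
      rw [e1, e2, e3, g i]
      unfold delAt
      split_ifs <;> rfl
    · rw [e1, e2]; simp
    · rw [e1, e3]; simp
  have h0 := deleteV (m := fun s => (L s).length) (H := fun s => hh (L s))
    (P := fun s => pp (L s)) (φ := φ) (k := k) hφ hk
    (fun s => (hL s).ok) (fun s => pfin (L s)) (fun s hs => (key s hs).2.2.2)
    (fun s hs => by rw [← (key s hs).1]; exact (hL' s).ok.lip)
  obtain ⟨F, hF, h1⟩ := h0
  refine ⟨F, hF, fun s => ?_⟩
  have h2 := h1 s
  unfold ltp at h2 ⊢
  rw [h2]
  by_cases hs : φ s = true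
  · obtain ⟨g1, g2, g3, -⟩ := key s hs
    simp only [hs, if_true]
    rw [g1, g2, g3]
  · simp only [Bool.not_eq_true] at hs
    simp only [hs, if_false, Bool.false_eq_true]
    rw [hn s hs]

end

end Pool.Agent.Q27.LT
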