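import Pool.Agent.Q27.LT.Code

/-!
# Blocks of neighbouring height functions
-/

namespace Pool.Agent.Q27.LT

theorem IsBl.cases {h : ℕ → ℕ} {a n : ℕ} (b : IsBl h a n) : n = 1 ∨ ∃ m, n = 2 * m ∧ (∃ l, m = 2 ^ l) := by
  obtain ⟨l, hl⟩ := b.pow
  rcases Nat.eq_zero_or_pos l with h0 | h0
  · left; subst h0; simpa using hl
  · right
    refine ⟨2 ^ (l - 1), ?_, l - 1, rfl⟩
    rw [hl]
    conv_lhs => rw [show l = (l - 1) + 1 by omega, pow_succ]
    ring

/-- `a` is even if the block is longer than one position -/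
theorem IsBl.even {h : ℕ → ℕ} {a n : ℕ} (b : IsBl h a n) (hn : n ≠ 1) : a % 2 = 0 ∧ n % 2 = 0 := by
  rcases b.cases with h1 | ⟨m, h1, -⟩
  · exact absurd h1 hn
  · obtain ⟨c, hc⟩ := b.dvd
    constructor
    · rw [hc, h1, mul_assoc, Nat.mul_mod_right]
    · rw [h1, Nat.mul_mod_right]

theorem IsBl.mod_two {h : ℕ → ℕ} {a n : ℕ} (b : IsBl h a n) :
    (a % (2 * n) = 0 ∧ (a / n) % 2 = 0) ∨ (a % (2 * n) = n ∧ (a / n) % 2 = 1 ∧ n ≤ a) := by
  obtain ⟨c, hc⟩ := b.dvd
  have hp := b.pos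
  have e1 : a / n = c := by rw [hc, Nat.mul_div_cancel_left _ hp]
  have e2 : a % (2 * n) = n * (c % 2) := by
    rw [hc, mul_comm 2 n, Nat.mul_mod_mul_left]
  rcases Nat.mod_two_eq_zero_or_one c with h1 | h1
  · left; rw [e1, e2, h1]; simp
  · right; rw [e1, e2, h1]
    refine ⟨by simp, rfl, ?_⟩
    rw [hc]
    have : 1 ≤ c := by
      rcases Nat.eq_zero_or_pos c with h0 | h0
      · subst h0; simp at h1
      · exact h0
    exact Nat.le_mul_of_pos_right n this

theorem IsBl.parent {h : ℕ → ℕ} {a n : ℕ} (b : IsBl h a n) :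
    (a % (2 * n) = 0 ∧ h a < 4 * n) ∨ (a % (2 * n) = n ∧ n ≤ a ∧ h (a - n) < 4 * n) := by
  rcases b.mod_two with ⟨h1, -⟩ | ⟨h1, -, h2⟩
  · left; refine ⟨h1, ?_⟩; have := b.bad; rw [h1] at this; simpa using this
  · right; refine ⟨h1, h2, ?_⟩; have := b.bad; rw [h1] at this; exact this

/-- the heights within the block -/
theorem IsBl.slope {h : ℕ → ℕ} (t : Tame h) {a n : ℕ} (b : IsBl h a n) (k : ℕ) :
    (k < n → h (a + k) ≤ h a + k / 2 ∧ h a ≤ h (a + k) + k / 2) ∧
    (n ≠ 1 → h (a + k) ≤ h a + k / 2 ∧ h a ≤ h (a + k) + k / 2) := by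
  have h1 := t.lip a (a + k) (by omega)
  constructor
  · intro hk
    by_cases hn : n = 1
    · have : k = 0 := by omega
      subst this; simp
    · have := b.even hn
      have e : (a + k) / 2 - a / 2 = k / 2 := by omega
      rw [e] at h1; exact h1
  · intro hn
    have := b.even hn
    have e : (a + k) / 2 - a / 2 = k / 2 := by omega
    rw [e] at h1; exact h1

theorem IsBl.upper {h : ℕ → ℕ} (t : Tame h) {a n : ℕ} (b : IsBl h a n) :
    h a < 4 * n + n / 2 ∨ h a < 4 * n := by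
  rcases b.parent with ⟨-, h1⟩ | ⟨h1, h2, h3⟩
  · right; exact h1
  · have h4 := t.lip (a - n) a (by omega)
    by_cases hn : n = 1
    · subst hn
      right
      have e : a / 2 - (a - 1) / 2 = 0 := by omega
      rw [e] at h4; omega
    · have := b.even hn
      left
      have e : a / 2 - (a - n) / 2 = n / 2 := by omega
      rw [e] at h4; omega

theorem IsBl.lt5 {h : ℕ → ℕ} (t : Tame h) {a n : ℕ} (b : IsBl h a n) : h a < 5 * n := by
  have := b.upper t
  have := b.pos
  omega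

variable {h h' : ℕ → ℕ}

/-- the heights differ by at most one -/
def Near (h h' : ℕ → ℕ) : Prop := ∀ j, h' j ≤ h j + 1 ∧ h j ≤ h' j + 1

theorem Near.symm (hn : Near h h') : Near h' h := fun j => ⟨(hn j).2, (hn j).1⟩

/-- a block that stays -/
theorem IsBl.stay {a n : ℕ} (b : IsBl h a n) (h1 : n = 1 ∨ 2 * n ≤ h' a)
    (h2 : h' (a - a % (2 * n)) < 4 * n) : IsBl h' a n := ⟨b.pow, b.dvd, h1, h2⟩

/-- splitting, left half -/
theorem IsBl.split_left (hn : Near h h') {a m : ℕ} (b : IsBl h a (2 * m))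
    (h1 : h' a < 4 * m) : h' a = 4 * m - 1 ∧ IsBl h' a m := by
  have hp := b.pos
  have h2 := hn a
  have h3 : 4 * m ≤ h a := by
    rcases b.good with h3 | h3
    · omega
    · omega
  have h4 : h' a = 4 * m - 1 := by omega
  have hm : ∃ l, m = 2 ^ l := by
    rcases b.cases with h5 | ⟨m', h5, h6⟩
    · omega
    · have : m = m' := by omega
      rw [this]; exact h6
  refine ⟨h4, hm, dvd_trans (Dvd.intro_left 2 rfl) b.dvd, ?_, ?_⟩
  · right; omega
  · have : a % (2 * m) = 0 := Nat.mod_eq_zero_of_dvd b.dvd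
    rw [this, Nat.sub_zero]; exact h1

/-- splitting, right half -/
theorem IsBl.split_right (t' : Tame h') (hn : Near h h') {a m : ℕ}
    (b : IsBl h a (2 * m)) (h1 : h' a < 4 * m) : IsBl h' (a + m) m := by
  have hp := b.pos
  obtain ⟨h4, h5⟩ := b.split_left hn h1
  refine ⟨h5.pow, ?_, ?_, ?_⟩
  · exact (Nat.dvd_add_right h5.dvd).2 dvd_rfl
  · by_cases hm : m = 1
    · left; exact hm
    · right
      have h6 := t'.lip a (a + m) (by omega)
      have := h5.even hm
      have e : (a + m) / 2 - a / 2 = m / 2 := by omega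
      rw [e] at h6; omega
  · have h7 : a % (2 * m) = 0 := Nat.mod_eq_zero_of_dvd b.dvd
    obtain ⟨c, hc⟩ := b.dvd
    have e : (a + m) % (2 * m) = m := by
      rw [hc, add_comm, Nat.add_mul_mod_self_left, Nat.mod_eq_of_lt (by omega)]
    rw [e, Nat.add_sub_cancel]; exact h1

/-- merging -/
theorem merge (t' : Tame h') (hn : Near h h') {a n : ℕ} (b : IsBl h a n)
    (h0 : a % (2 * n) = 0) (h1 : 4 * n ≤ h' a) :
    h' a = 4 * n ∧ h a = 4 * n - 1 ∧ IsBl h' a (2 * n) := by
  have h2 := hn a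
  have h3 : h a < 4 * n := by
    rcases b.parent with ⟨-, h3⟩ | ⟨h3, h4, -⟩
    · exact h3
    · have := b.pos; omega
  refine ⟨by omega, by omega, ?_, Nat.dvd_of_mod_eq_zero h0, Or.inr (by omega), ?_⟩
  · obtain ⟨l, hl⟩ := b.pow
    exact ⟨l + 1, by rw [hl, pow_succ]; ring⟩
  · have hp := b.pos
    have h4 := mod_two_mul a (2 * n) (by omega)
    have h5 : a % (2 * (2 * n)) ≤ a := Nat.mod_le _ _
    have h6 := t'.lip (a - a % (2 * (2 * n))) a (by omega)
    rcases h4 with h4 | h4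
    · rw [h4, h0]; simp; omega
    · rw [h4, h0] at h6 ⊢
      rw [h4, h0] at h5
      have e : a / 2 - (a - (0 + 2 * n)) / 2 = n := by omega
      rw [e] at h6; omega

/-- the sibling of a merging left block -/
theorem merge_right (t : Tame h) (hn : Near h h') {a n : ℕ} (b : IsBl h a n)
    (h0 : a % (2 * n) = 0) (h1 : 4 * n ≤ h' a) : IsBl h (a + n) n := by
  have h2 := hn a
  have hp := b.pos
  have h3 : h a < 4 * n := by
    rcases b.parent with ⟨-, h3⟩ | ⟨h3, h4, -⟩
    · exact h3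
    · omega
  refine ⟨b.pow, (Nat.dvd_add_right b.dvd).2 dvd_rfl, ?_, ?_⟩
  · by_cases hm : n = 1
    · left; exact hm
    · right
      have h6 := t.lip a (a + n) (by omega)
      have := b.even hm
      have e : (a + n) / 2 - a / 2 = n / 2 := by omega
      rw [e] at h6; omega
  · obtain ⟨c, hc⟩ := Nat.dvd_of_mod_eq_zero h0
    have e : (a + n) % (2 * n) = n := by
      rw [hc, add_comm, Nat.add_mul_mod_self_left, Nat.mod_eq_of_lt (by omega)]
    rw [e, Nat.add_sub_cancel]; exact h3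

/-- the left sibling of a right block whose parent becomes good -/
theorem merge_left (hn : Near h h') {a n : ℕ} (b : IsBl h a n)
    (h0 : a % (2 * n) = n) (hna : n ≤ a) (h1 : 4 * n ≤ h' (a - n)) : IsBl h (a - n) n := by
  have h2 := hn (a - n)
  have hp := b.pos
  have h3 : h (a - n) < 4 * n := by
    rcases b.parent with ⟨h3, -⟩ | ⟨-, -, h3⟩
    · omega
    · exact h3
  obtain ⟨c, hc⟩ := b.dvd
  refine ⟨b.pow, Nat.dvd_sub b.dvd dvd_rfl, Or.inr (by omega), ?_⟩
  have e : (a - n) % (2 * n) = 0 := by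
    have h5 := Nat.div_add_mod a (2 * n)
    have : a - n = 2 * n * (a / (2 * n)) := by omega
    rw [this, Nat.mul_mod_right]
  rw [e, Nat.sub_zero]; exact h3

end Pool.Agent.Q27.LT
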