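import Pool.Agent.Q27.LT.Marks

/-!
# Arithmetic of one step
-/

namespace Pool.Agent.Q27.LT

/-- the difference of two numbers that differ by at most one: `0`, `1` (up) or `2` (down) -/
def df (x y : ℕ) : Fin 3 := if y = x then 0 else if y = x + 1 then 1 else 2

/-- direction of the height mark -/
def σ1 (q : Fin 5) (d : Fin 3) (f0 fl : Bool) : Fin 3 :=
  if d = 0 then 0
  else if d = 1 then (if q.val % 2 = 0 then (if fl then 0 else 1) else (if f0 then 0 else 2))
  else (if q.val % 2 = 0 then (if f0 then 0 else 2) else (if fl then 0 else 1))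

/-- the new quotient -/
def qs (q : Fin 5) (d : Fin 3) (f0 fl : Bool) : Fin 5 :=
  if d = 0 then q
  else if d = 1 then (if q.val % 2 = 0 then (if fl then q + 1 else q) else (if f0 then q + 1 else q))
  else (if q.val % 2 = 0 then (if f0 then q - 1 else q) else (if fl then q - 1 else q))

theorem df_of_near {x y : ℕ} (h : y ≤ x + 1 ∧ x ≤ y + 1) :
    (df x y = 0 ∧ y = x) ∨ (df x y = 1 ∧ y = x + 1) ∨ (df x y = 2 ∧ y + 1 = x) := by
  unfold df; split
  · left; exact ⟨rfl, by assumption⟩
  · split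
    · right; left; exact ⟨rfl, by assumption⟩
    · right; right; exact ⟨rfl, by omega⟩

theorem z_mul {n r : ℕ} (q : ℕ) (hr : r < n) :
    z n (n * q + r) = if q % 2 = 0 then r else n - 1 - r := by
  unfold z; rw [(dm q hr).1, (dm q hr).2]

/-- the move of the height mark -/
theorem z_step {n x y : ℕ} (hn : 1 ≤ n) (hx : x < 5 * n) (hy : y < 5 * n)
    (h : y ≤ x + 1 ∧ x ≤ y + 1) :
    let σ := σ1 (Fin.ofNat 5 (x / n)) (df x y) (decide (z n x = 0)) (decide (z n x + 1 = n))
    (σ = 0 → z n y = z n x) ∧ (σ = 1 → z n y = z n x + 1) ∧ (σ = 2 → z n y + 1 = z n x) := by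
  intro σ
  obtain ⟨q, r, hr, rfl⟩ : ∃ q r, r < n ∧ x = n * q + r :=
    ⟨x / n, x % n, Nat.mod_lt _ hn, (Nat.div_add_mod x n).symm⟩
  have hq : q < 5 := by
    by_contra hc
    have : n * 5 ≤ n * q := Nat.mul_le_mul_left n (by omega)
    omega
  have e1 : (n * q + r) / n = q := (dm q hr).1
  have e2 := z_mul q hr
  simp only [σ, e1, e2]
  rcases df_of_near h with ⟨h1, h2⟩ | ⟨h1, h2⟩ | ⟨h1, h2⟩
  · rw [h1, h2, e2]; simp [σ1]
  · rw [h1, h2]
    by_cases hl : r + 1 = n
    · have e3 : n * q + r + 1 = n * (q + 1) + 0 := by rw [Nat.mul_add]; omega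
      rw [e3, z_mul (q + 1) (show 0 < n by omega)]
      subst hl
      interval_cases q <;> simp [σ1]
    · have e3 : n * q + r + 1 = n * q + (r + 1) := by ring
      rw [e3, z_mul q (show r + 1 < n by omega)]
      have hl' : ¬ (n = r + 1) := fun h => hl h.symm
      interval_cases q <;> simp [σ1, hl] <;> (try split_ifs) <;> (try simp) <;> omega
  · rw [h1]
    by_cases hl : r = 0
    · subst hl
      have hq0 : 1 ≤ q := by
        rcases Nat.eq_zero_or_pos q with h0 | h0
        · subst h0; simp at h2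
        · exact h0
      obtain ⟨q', rfl⟩ : ∃ q', q = q' + 1 := ⟨q - 1, by omega⟩
      have hq' : q' < 4 := by omega
      have e3 : y = n * q' + (n - 1) := by rw [Nat.mul_add] at h2; omega
      rw [e3, z_mul q' (show n - 1 < n by omega)]
      interval_cases q' <;> simp [σ1] <;> (try split_ifs) <;> (try simp) <;> omega
    · have e3 : y = n * q + (r - 1) := by omega
      rw [e3, z_mul q (show r - 1 < n by omega)]
      interval_cases q <;> simp [σ1, hl] <;> (try split_ifs) <;> (try simp) <;> omega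

/-- the new quotient -/
theorem q_step {n x y : ℕ} (hn : 1 ≤ n) (hx : x < 5 * n) (hy : y < 5 * n)
    (h : y ≤ x + 1 ∧ x ≤ y + 1) :
    Fin.ofNat 5 (y / n) =
      qs (Fin.ofNat 5 (x / n)) (df x y) (decide (z n x = 0)) (decide (z n x + 1 = n)) := by
  obtain ⟨q, r, hr, rfl⟩ : ∃ q r, r < n ∧ x = n * q + r :=
    ⟨x / n, x % n, Nat.mod_lt _ hn, (Nat.div_add_mod x n).symm⟩
  have hq : q < 5 := by
    by_contra hc
    have : n * 5 ≤ n * q := Nat.mul_le_mul_left n (by omega)
    omega
  have e1 : (n * q + r) / n = q := (dm q hr).1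
  have e2 := z_mul q hr
  rw [e1, e2]
  rcases df_of_near h with ⟨h1, h2⟩ | ⟨h1, h2⟩ | ⟨h1, h2⟩
  · rw [h1, h2, e1]; simp [qs]
  · rw [h1, h2]
    by_cases hl : r + 1 = n
    · have e3 : n * q + r + 1 = n * (q + 1) + 0 := by rw [Nat.mul_add]; omega
      rw [e3, (dm (q + 1) (show 0 < n by omega)).1]
      have hq4 : q < 4 := by
        by_contra hc
        have h5 : n * 4 ≤ n * q := Nat.mul_le_mul_left n (by omega)
        omega
      have z0 : (n - 1 - r = 0) := by omega
      interval_cases q <;> norm_num [qs, hl, z0] <;> decide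
    · have e3 : n * q + r + 1 = n * q + (r + 1) := by ring
      rw [e3, (dm q (show r + 1 < n by omega)).1]
      interval_cases q <;> simp [qs, hl] <;> omega
  · rw [h1]
    by_cases hl : r = 0
    · subst hl
      have hq0 : 1 ≤ q := by
        rcases Nat.eq_zero_or_pos q with h0 | h0
        · subst h0; simp at h2
        · exact h0
      obtain ⟨q', rfl⟩ : ∃ q', q = q' + 1 := ⟨q - 1, by omega⟩
      have hq' : q' < 4 := by omega
      have e3 : y = n * q' + (n - 1) := by rw [Nat.mul_add] at h2; omega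
      rw [e3, (dm q' (show n - 1 < n by omega)).1]
      have hn1 : n - 1 + 1 = n := by omega
      interval_cases q' <;> norm_num [qs, hn1] <;> first | decide | rfl
    · have e3 : y = n * q + (r - 1) := by omega
      rw [e3, (dm q (show r - 1 < n by omega)).1]
      interval_cases q <;> simp [qs, hl] <;> omega

/-- direction of the head -/
def κ0 (one : Bool) (q : Fin 5) (d : Fin 3) (t : Bool) : Fin 3 :=
  if one then 0 else if q = 2 ∧ d = 2 ∧ t = true then 1
    else if q = 2 ∧ d = 1 ∧ t = false then 2 else 0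

theorem quot {n x : ℕ} (hn : 1 ≤ n) (hx : x < 5 * n) :
    ∃ q r, q < 5 ∧ r < n ∧ x = n * q + r ∧ x / n = q := by
  obtain ⟨q, r, hr, rfl⟩ : ∃ q r, r < n ∧ x = n * q + r :=
    ⟨x / n, x % n, Nat.mod_lt _ hn, (Nat.div_add_mod x n).symm⟩
  have hq : q < 5 := by
    by_contra hc
    have : n * 5 ≤ n * q := Nat.mul_le_mul_left n (by omega)
    omega
  exact ⟨q, r, hq, hr, rfl, (dm q hr).1⟩

theorem kk_step {n x y : ℕ} (hn : 1 ≤ n) (hn2 : n = 1 ∨ n % 2 = 0) (hx2 : n = 1 ∨ 2 * n ≤ x)
    (hx : x < 5 * n) (h : y ≤ x + 1 ∧ x ≤ y + 1) :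
    let κ := κ0 (decide (n = 1)) (Fin.ofNat 5 (x / n)) (df x y) (decide ((3 * n - x) % 2 = 1))
    (κ = 0 → kk n y = kk n x) ∧ (κ = 1 → kk n y = kk n x + 1) ∧ (κ = 2 → kk n y + 1 = kk n x) := by
  intro κ
  by_cases h1 : n = 1
  · subst h1
    simp [κ, κ0, kk_one]
  · have hn2' : n % 2 = 0 := by omega
    have hx2' : 2 * n ≤ x := by omega
    obtain ⟨q, r, hq, hr, hxe, hqe⟩ := quot hn hx
    have hq2 : 2 ≤ q := by
      by_contra hc
      have : n * q ≤ n * 1 := Nat.mul_le_mul_left n (by omega)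
      omega
    simp only [κ, hqe, κ0, h1, decide_false, Bool.false_eq_true, if_false]
    rcases df_of_near h with ⟨hd, hy⟩ | ⟨hd, hy⟩ | ⟨hd, hy⟩
    · rw [hd, hy]; simp
    · rw [hd]
      unfold kk
      interval_cases q
      · by_cases hp : (3 * n - x) % 2 = 1
        · simp [hp]; omega
        · simp [hp]; omega
      · simp; omega
      · simp; omega
    · rw [hd]
      unfold kk
      interval_cases q
      · by_cases hp : (3 * n - x) % 2 = 1
        · simp [hp]; omega
        · simp [hp]; omega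
      · simp; omega
      · simp; omega

/-- the new parity of the time -/
def tpn (q : Fin 5) (d : Fin 3) (fl t : Bool) : Bool :=
  if d = 0 then t else if q.val ≤ 2 then !t else if q = 3 then (decide (d = 2) && fl) else false

theorem tp_step {n x y : ℕ} (hn : 1 ≤ n) (hn2 : n = 1 ∨ n % 2 = 0) (hx2 : n = 1 ∨ 2 * n ≤ x)
    (hx : x < 5 * n) (h : y ≤ x + 1 ∧ x ≤ y + 1) :
    decide ((3 * n - y) % 2 = 1) = tpn (Fin.ofNat 5 (x / n)) (df x y) (decide (z n x + 1 = n))
      (decide ((3 * n - x) % 2 = 1)) := by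
  by_cases h1 : n = 1
  · subst h1
    have hx5 : x < 5 := by omega
    have hy6 : y < 7 := by omega
    rcases df_of_near h with ⟨hd, hy⟩ | ⟨hd, hy⟩ | ⟨hd, hy⟩
    · rw [hd, hy]; simp [tpn]
    · rw [hd, hy]; interval_cases x <;> simp [tpn, z]
    · rw [hd]
      have : x ≠ 0 := by omega
      obtain ⟨x', rfl⟩ : ∃ x', x = x' + 1 := ⟨x - 1, by omega⟩
      have : y = x' := by omega
      subst this
      have : y < 4 := by omega
      interval_cases y <;> simp [tpn, z]
  · have hn2' : n % 2 = 0 := by omega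
    have hx2' : 2 * n ≤ x := by omega
    obtain ⟨q, r, hq, hr, hxe, hqe⟩ := quot hn hx
    have hq2 : 2 ≤ q := by
      by_contra hc
      have : n * q ≤ n * 1 := Nat.mul_le_mul_left n (by omega)
      omega
    have hz : z n x = if q % 2 = 0 then r else n - 1 - r := by rw [hxe]; exact z_mul q hr
    rw [hqe, hz]
    rcases df_of_near h with ⟨hd, hy⟩ | ⟨hd, hy⟩ | ⟨hd, hy⟩
    · rw [hd, hy]; simp [tpn]
    · rw [hd]
      interval_cases q
      · by_cases hp : (3 * n - x) % 2 = 1
        · simp [tpn, hp]; omega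
        · simp [tpn, hp]; omega
      · simp [tpn]; omega
      · simp [tpn]; omega
    · rw [hd]
      interval_cases q
      · by_cases hp : (3 * n - x) % 2 = 1
        · simp [tpn, hp]; omega
        · simp [tpn, hp]; omega
      · simp [tpn]; omega
      · simp [tpn]; omega

/-! ### the difference mark -/

/-- value of a direction -/
def vl (d : Fin 3) : ℤ := if d = 0 then 0 else if d = 1 then 1 else -1

theorem vl_df {x y : ℕ} (h : y ≤ x + 1 ∧ x ≤ y + 1) : vl (df x y) = (y : ℤ) - x := by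
  rcases df_of_near h with ⟨hd, hy⟩ | ⟨hd, hy⟩ | ⟨hd, hy⟩
  · rw [hd, hy]; simp [vl]
  · rw [hd, hy]; simp [vl]
  · rw [hd]; simp [vl]; omega

/-- the block is split -/
def spl (one : Bool) (q : Fin 5) (d : Fin 3) (f0 : Bool) : Bool :=
  !one && decide (q = 2) && f0 && decide (d = 2)

theorem spl_iff {n x y : ℕ} (hn : 1 ≤ n) (hx2 : n = 1 ∨ 2 * n ≤ x)
    (hx : x < 5 * n) (h : y ≤ x + 1 ∧ x ≤ y + 1) :
    spl (decide (n = 1)) (Fin.ofNat 5 (x / n)) (df x y) (decide (z n x = 0)) = true ↔
      n ≠ 1 ∧ y < 2 * n := by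
  by_cases h1 : n = 1
  · simp [spl, h1]
  · have hx2' : 2 * n ≤ x := by omega
    obtain ⟨q, r, hq, hr, hxe, hqe⟩ := quot hn hx
    have hq2 : 2 ≤ q := by
      by_contra hc
      have : n * q ≤ n * 1 := Nat.mul_le_mul_left n (by omega)
      omega
    have hz : z n x = if q % 2 = 0 then r else n - 1 - r := by rw [hxe]; exact z_mul q hr
    rw [hqe, hz]
    rcases df_of_near h with ⟨hd, hy⟩ | ⟨hd, hy⟩ | ⟨hd, hy⟩
    · rw [hd]; simp [spl]; omega
    · rw [hd]; simp [spl]; omega
    · rw [hd]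
      interval_cases q
      · simp [spl, h1]; omega
      · simp [spl]; omega
      · simp [spl]; omega

/-- the change of the difference -/
def Δf (one : Bool) (q : Fin 5) (d : Fin 3) (f0 : Bool) (d2 d3 : Fin 3) : ℤ :=
  vl d3 + vl d2 - (if spl one q d f0 then 0 else vl d)

theorem Δf_abs (one : Bool) (q : Fin 5) (d : Fin 3) (f0 : Bool) (d2 d3 : Fin 3) :
    -3 ≤ Δf one q d f0 d2 d3 ∧ Δf one q d f0 d2 d3 ≤ 3 := by
  have h : ∀ d, -1 ≤ vl d ∧ vl d ≤ 1 := by
    intro d; unfold vl; split_ifs <;> omega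
  have h1 := h d
  have h2 := h d2
  have h3 := h d3
  unfold Δf; split_ifs <;> omega

theorem Δf_eq {n x y w w1 w2 : ℕ} (hn : 1 ≤ n) (hx2 : n = 1 ∨ 2 * n ≤ x)
    (hx : x < 5 * n) (h : y ≤ x + 1 ∧ x ≤ y + 1) (h3 : w1 ≤ w + 1 ∧ w ≤ w1 + 1)
    (h2 : w2 ≤ w1 + 1 ∧ w1 ≤ w2 + 1) :
    (w2 : ℤ) - ((if n = 1 then y else max y (2 * n) : ℕ) : ℤ) = (w : ℤ) - x +
      Δf (decide (n = 1)) (Fin.ofNat 5 (x / n)) (df x y) (decide (z n x = 0)) (df w1 w2)
        (df w w1) := by
  have hs := spl_iff hn hx2 hx h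
  unfold Δf
  rw [vl_df h3, vl_df h2, vl_df h]
  by_cases h1 : n = 1
  · have : spl (decide (n = 1)) (Fin.ofNat 5 (x / n)) (df x y) (decide (z n x = 0)) = false := by
      simp [spl, h1]
    rw [this]; simp [h1]; omega
  · rw [if_neg h1]
    by_cases h4 : y < 2 * n
    · have : spl (decide (n = 1)) (Fin.ofNat 5 (x / n)) (df x y) (decide (z n x = 0)) = true :=
        hs.2 ⟨h1, h4⟩
      rw [this, max_eq_right (by omega)]
      simp; omega
    · have : spl (decide (n = 1)) (Fin.ofNat 5 (x / n)) (df x y) (decide (z n x = 0)) = false := by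
        rw [← Bool.not_eq_true, hs]; omega
      rw [this, max_eq_left (by omega)]
      simp; omega

/-- the new difference if the old one is small -/
def un (s : Bool) (e : Fin 4) (D : ℤ) : ℤ := (if s then -(e.val : ℤ) - 1 else (e.val : ℤ)) + D

/-- the new sign -/
def sgn (s : Bool) (e : Fin 4) (D : ℤ) : Bool := if e = 3 then s else decide (un s e D < 0)

/-- the move of the difference mark, starting from the new head if `e < 3` and from the old mark if
`e = 3`; `k` is the move of the head -/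
def vn (s : Bool) (e : Fin 4) (D k : ℤ) : ℤ :=
  if e = 3 then k + (if s then -D else D)
  else if 0 ≤ un s e D then un s e D else -(un s e D) - 1

theorem ee_cast (w x : ℕ) : (ee w x : ℤ) = if x ≤ w then (w : ℤ) - x else (x : ℤ) - w - 1 := by
  unfold ee; split_ifs <;> omega

theorem e_step {w x w2 rf : ℕ} {D : ℤ} (hD : -3 ≤ D ∧ D ≤ 3)
    (h : (w2 : ℤ) - rf = (w : ℤ) - x + D) :
    sgn (decide (w < x)) (Fin.ofNat 4 (min (ee w x) 3)) D = decide (w2 < rf) ∧
    (∀ k : ℤ, vn (decide (w < x)) (Fin.ofNat 4 (min (ee w x) 3)) D k =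
      if Fin.ofNat 4 (min (ee w x) 3) = 3 then k + ((ee w2 rf : ℤ) - ee w x) else ee w2 rf) := by
  have c1 := ee_cast w x
  have c2 := ee_cast w2 rf
  rcases Nat.lt_or_ge (ee w x) 3 with h3 | h3
  · rw [min_eq_left (by omega)]
    obtain ⟨e, he⟩ : ∃ e, e = ee w x := ⟨_, rfl⟩
    rw [← he] at h3 c1 ⊢
    have e4 : (Fin.ofNat 4 e).val = e := by simp; omega
    have e5 : ¬ (Fin.ofNat 4 e = 3) := by
      intro hc; have := congrArg Fin.val hc; rw [e4] at this; simp at this; omega
    unfold sgn vn un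
    rw [e4]
    simp only [e5, if_false]
    constructor
    · congr 1
      apply propext
      by_cases hw : w < x
      · simp only [hw, decide_true, if_true]; split_ifs at c1 <;> constructor <;> intro <;> omega
      · simp only [hw, decide_false, if_false, Bool.false_eq_true]
        split_ifs at c1 <;> constructor <;> intro <;> omega
    · intro k
      by_cases hw : w < x
      · simp only [hw, decide_true, if_true]; split_ifs at c1 c2 ⊢ <;> omega
      · simp only [hw, decide_false, if_false, Bool.false_eq_true]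
        split_ifs at c1 c2 ⊢ <;> omega
  · rw [min_eq_right h3]
    have e5 : (Fin.ofNat 4 3 = 3) := rfl
    unfold sgn vn
    simp only [e5, if_true]
    constructor
    · congr 1
      apply propext
      split_ifs at c1 <;> constructor <;> intro <;> omega
    · intro k
      by_cases hw : w < x
      · simp only [hw, decide_true, if_true]; split_ifs at c1 c2 <;> omega
      · simp only [hw, decide_false, if_false, Bool.false_eq_true]
        split_ifs at c1 c2 <;> omega

end Pool.Agent.Q27.LT
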