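import Pool.Agent.Q27.LT.Steps

/-!
# The tracks of one step are computable by sweeps
-/

namespace Pool.Agent.Q27.LT

theorem df_eq_sub {x y : ℕ} (h : y ≤ x + 1 ∧ x ≤ y + 1) :
    df x y = Fin.ofNat 3 y - Fin.ofNat 3 x := by
  have h3 : x % 3 < 3 := Nat.mod_lt _ (by norm_num)
  rcases df_of_near h with ⟨hd, hy⟩ | ⟨hd, hy⟩ | ⟨hd, hy⟩
  · rw [hd, hy]; simp
  · rw [hd, hy]
    apply Fin.ext
    simp only [Fin.sub_def, Fin.ofNat, Fin.val_one]
    omega
  · rw [hd, ← hy]
    apply Fin.ext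
    simp only [Fin.sub_def, Fin.ofNat, Fin.val_two]
    omega

/-- data of one step -/
structure Step {ι : Type} (N : ι → ℕ) (h h' : ι → ℕ → ℕ) : Prop where
  t : ∀ s, Tame (h s)
  t' : ∀ s, Tame (h' s)
  near : ∀ s, Near (h s) (h' s)
  tl : ∀ s, Tail (N s) (h s)
  tl' : ∀ s, Tail (N s) (h' s)

section

variable {ι : Type} {N : ι → ℕ} {h h' : ι → ℕ → ℕ} {A : Type} [Finite A] {X : ι → ℕ → A}

theorem Step.bs (S : Step N h h') : IsBlocks N (fun s => bst (h s)) (fun s => ben (h s)) :=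
  isBlocks S.t S.tl

theorem Step.lt5 (S : Step N h h') (s : ι) (j : ℕ) :
    h s (bst (h s) j) < 5 * bn (h s) j ∧ h' s (bst (h s) j) < 5 * bn (h s) j := by
  have b := isBl (h s) (S.t s) j
  have h1 := b.upper (S.t s)
  have h2 := S.near s (bst (h s) j)
  have := b.pos
  have h3 := b.cases
  constructor
  · omega
  · rcases h3 with h3 | ⟨m, h3, -⟩ <;> omega

theorem Step.par (S : Step N h h') (s : ι) (j : ℕ) :
    (bn (h s) j = 1 ∨ bn (h s) j % 2 = 0) ∧ (bn (h s) j = 1 ∨ 2 * bn (h s) j ≤ h s (bst (h s) j)) := by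
  have b := isBl (h s) (S.t s) j
  refine ⟨?_, b.good⟩
  by_cases h1 : bn (h s) j = 1
  · exact Or.inl h1
  · exact Or.inr (b.even h1).2

variable (S : Step N h h') (hc : Der N X (fun s => code (h s)))
  (hr : Der N X (fun s j => Fin.ofNat 3 (h' s j)))

include S hc

omit [Finite A] S in
theorem dSt : Der N X (mark (fun s => bst (h s))) := hc.map (·.s)

omit [Finite A] S in
theorem dP1 : Der N X (mark (fun s => P1 (h s))) :=
  (hc.map (fun x => x.m1.isSome)).congr (fun s j _ => by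
    simp only [code, mark]; split_ifs with e <;> simp [e])

omit [Finite A] S in
theorem dHD : Der N X (mark (fun s => HD (h s))) :=
  (hc.map (fun x => x.mh.isSome)).congr (fun s j _ => by
    simp only [code, mark]; split_ifs with e <;> simp [e])

omit [Finite A] S in
theorem dPW : Der N X (mark (fun s => PW (h s))) := hc.map (·.mw)

theorem dLast : Der N X (fun s j => decide (ben (h s) j = j + 1)) :=
  S.bs.derLast (dSt hc)

theorem dOne : Der N X (fun s j => decide (bn (h s) j = 1)) := by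
  refine (S.bs.broadcast S.bs.stPtr (dSt hc) (dSt hc) (dLast S hc)).congr (fun s j hj => ?_)
  have h1 := bst_bst (S.t s) (le_refl (bst (h s) j)) (lt_of_le_of_lt (bst_le _ _) (lt_ben _ j))
  simp only [ben, h1.1, h1.2]
  congr 1
  apply propext; constructor <;> intro <;> omega

theorem dQt : Der N X (fun s => qt (h s)) := by
  refine (S.bs.broadcast (ptr_P1 S.t) (dSt hc) (dP1 hc)
    (hc.map (fun x => x.m1.getD 0))).congr (fun s j hj => ?_)
  have h0 := ptr_P1 (N := N) S.t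
  have h1 := bst_bst (S.t s) (h0.le s j hj) (h0.lt s j hj)
  have h2 := h0.cst s j hj _ (h0.le s j hj) (h0.lt s j hj)
  simp only [code, h2, if_true, Option.getD_some]
  unfold qt
  rw [h1.1, h1.2]

theorem dF0 : Der N X (fun s j => decide (z (bn (h s) j) (h s (bst (h s) j)) = 0)) := by
  refine (S.bs.broadcast S.bs.stPtr (dSt hc) (dSt hc) (dP1 hc)).congr (fun s j hj => ?_)
  have h1 := bst_bst (S.t s) (le_refl (bst (h s) j)) (lt_of_le_of_lt (bst_le _ _) (lt_ben _ j))
  simp only [mark, P1, h1.1, h1.2]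
  congr 1
  apply propext; constructor <;> intro <;> omega

theorem dFl : Der N X (fun s j =>
    decide (z (bn (h s) j) (h s (bst (h s) j)) + 1 = bn (h s) j)) := by
  refine (S.bs.broadcast (ptr_P1 S.t) (dSt hc) (dP1 hc) (dLast S hc)).congr
    (fun s j hj => ?_)
  have h0 := ptr_P1 (N := N) S.t
  have h1 := bst_bst (S.t s) (h0.le s j hj) (h0.lt s j hj)
  simp only [ben, h1.1, h1.2]
  unfold P1
  congr 1
  apply propext; constructor <;> intro <;> omega

theorem dH3 : Der N X (fun s j => (pr (h s) j, sg (h s) j, tp (h s) j)) := by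
  refine (S.bs.broadcast (ptr_HD S.t) (dSt hc) (dHD hc)
    (hc.map (fun x => x.mh.getD (false, false, false)))).congr (fun s j hj => ?_)
  have h0 := ptr_HD (N := N) S.t
  have h1 := bst_bst (S.t s) (h0.le s j hj) (h0.lt s j hj)
  have h2 := h0.cst s j hj _ (h0.le s j hj) (h0.lt s j hj)
  simp only [code, h2, if_true, Option.getD_some]
  unfold pr sg tp
  rw [h1.1, h1.2, h2]

theorem dPr : Der N X (fun s => pr (h s)) := (dH3 S hc).map (·.1)
theorem dSg : Der N X (fun s => sg (h s)) := (dH3 S hc).map (·.2.1)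
theorem dTp : Der N X (fun s => tp (h s)) := (dH3 S hc).map (·.2.2)

theorem dE3 : Der N X (fun s j =>
    Fin.ofNat 4 (min (ee (h s (HD (h s) j)) (h s (bst (h s) j))) 3)) := by
  refine (S.bs.dist (ptr_HD S.t) (ptr_PW S.t) (fun s j _ => by unfold PW; omega)
    (dSt hc) (dHD hc) (dPW hc)).congr (fun s j hj => ?_)
  unfold PW
  rw [Nat.add_sub_cancel_left]

include hr

theorem dD : Der N X (fun s j => df (h s j) (h' s j)) := by
  refine (hc.map₂ hr (fun x y => y - x.c)).congr (fun s j hj => ?_)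
  rw [df_eq_sub (S.near s j)]
  rfl

theorem dDst : Der N X (fun s j => df (h s (bst (h s) j)) (h' s (bst (h s) j))) :=
  S.bs.broadcast S.bs.stPtr (dSt hc) (dSt hc) (dD S hc hr)

theorem dQ1 : Der N X (mark (fun s => Q1 (h s) (h' s))) := by
  have hσ := (((dQt S hc).pair (dDst S hc hr)).pair (dF0 S hc)).pair (dFl S hc)
  refine S.bs.move (ptr_P1 S.t) (ptr_Q1 S.t) (dSt hc) (dP1 hc)
    (hσ.map (fun a => σ1 a.1.1.1 a.1.1.2 a.1.2 a.2)) ?_ ?_ ?_
  all_goals
    intro s j hj e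
    have h1 := S.lt5 s j
    have h2 := z_step (bn_pos (h s) j) h1.1 h1.2 (S.near s _)
    simp only [qt] at e
    simp only [P1, Q1]
  · rw [h2.1 e]
  · rw [h2.2.1 e]; omega
  · have := h2.2.2 e; omega

theorem dQs : Der N X (fun s j => (Fin.ofNat 5 (h' s (bst (h s) j) / bn (h s) j))) := by
  have hσ := (((dQt S hc).pair (dDst S hc hr)).pair (dF0 S hc)).pair (dFl S hc)
  refine (hσ.map (fun a => qs a.1.1.1 a.1.1.2 a.1.2 a.2)).congr (fun s j hj => ?_)
  have h1 := S.lt5 s j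
  exact (q_step (bn_pos (h s) j) h1.1 h1.2 (S.near s _)).symm

theorem dK : Der N X (fun s j => κ0 (decide (bn (h s) j = 1)) (qt (h s) j)
    (df (h s (bst (h s) j)) (h' s (bst (h s) j))) (tp (h s) j)) :=
  ((((dOne S hc).pair (dQt S hc)).pair (dDst S hc hr)).pair (dTp S hc)).map
    (fun a => κ0 a.1.1.1 a.1.1.2 a.1.2 a.2)

omit hr hc in
theorem kstep (s : ι) (j : ℕ) :
    let κ := κ0 (decide (bn (h s) j = 1)) (qt (h s) j)
      (df (h s (bst (h s) j)) (h' s (bst (h s) j))) (tp (h s) j)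
    (κ = 0 → HS (h s) (h' s) j = HD (h s) j) ∧ (κ = 1 → HS (h s) (h' s) j = HD (h s) j + 1) ∧
      (κ = 2 → HS (h s) (h' s) j + 1 = HD (h s) j) := by
  intro κ
  have h1 := S.lt5 s j
  have h3 := S.par s j
  have h2 := kk_step (bn_pos (h s) j) h3.1 h3.2 h1.1 (S.near s (bst (h s) j))
  unfold HS HD
  refine ⟨fun e => ?_, fun e => ?_, fun e => ?_⟩
  · rw [h2.1 e]
  · rw [h2.2.1 e]; omega
  · have := h2.2.2 e; omega

theorem dHS : Der N X (mark (fun s => HS (h s) (h' s))) :=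
  S.bs.move (ptr_HD S.t) (ptr_HS S.t) (dSt hc) (dHD hc) (dK S hc hr)
    (fun s j _ => (kstep S s j).1) (fun s j _ => (kstep S s j).2.1)
    (fun s j _ => (kstep S s j).2.2)

theorem dTs : Der N X (fun s j => decide ((3 * bn (h s) j - h' s (bst (h s) j)) % 2 = 1)) := by
  have hσ := (((dQt S hc).pair (dDst S hc hr)).pair (dFl S hc)).pair (dTp S hc)
  refine (hσ.map (fun a => tpn a.1.1.1 a.1.1.2 a.1.2 a.2)).congr (fun s j hj => ?_)
  have h1 := S.lt5 s j
  have h3 := S.par s j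
  exact (tp_step (bn_pos (h s) j) h3.1 h3.2 h1.1 (S.near s (bst (h s) j))).symm

theorem dD2 : Der N X (fun s j => df (h s (HS (h s) (h' s) j)) (h' s (HS (h s) (h' s) j))) :=
  S.bs.broadcast (ptr_HS S.t) (dSt hc) (dHS S hc hr) (dD S hc hr)

omit hr hc in
theorem near_HS (s : ι) (j : ℕ) :
    h s (HS (h s) (h' s) j) ≤ h s (HD (h s) j) + 1 ∧
      h s (HD (h s) j) ≤ h s (HS (h s) (h' s) j) + 1 := by
  have h1 := kstep S s j
  have h2 := (S.t s).lip (HS (h s) (h' s) j) (HD (h s) j)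
  have h3 := (S.t s).lip (HD (h s) j) (HS (h s) (h' s) j)
  have h4 : ∀ k : Fin 3, k = 0 ∨ k = 1 ∨ k = 2 := by decide
  rcases h4 (κ0 (decide (bn (h s) j = 1)) (qt (h s) j)
      (df (h s (bst (h s) j)) (h' s (bst (h s) j))) (tp (h s) j)) with e | e | e
  · have := h1.1 e; omega
  · have := h1.2.1 e; omega
  · have := h1.2.2 e; omega

theorem dD3 : Der N X (fun s j => df (h s (HD (h s) j)) (h s (HS (h s) (h' s) j))) := by
  have e1 := S.bs.broadcast (ptr_HD S.t) (dSt hc) (dHD hc) (hc.map (·.c))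
  have e2 := S.bs.broadcast (ptr_HS (h' := h') S.t) (dSt hc) (dHS S hc hr) (hc.map (·.c))
  refine (e1.map₂ e2 (fun x y => y - x)).congr (fun s j hj => ?_)
  rw [df_eq_sub (near_HS S s j)]
  rfl

/-- the split flag -/
theorem dSpl : Der N X (fun s j => spl (decide (bn (h s) j = 1)) (qt (h s) j)
    (df (h s (bst (h s) j)) (h' s (bst (h s) j)))
    (decide (z (bn (h s) j) (h s (bst (h s) j)) = 0))) :=
  ((((dOne S hc).pair (dQt S hc)).pair (dDst S hc hr)).pair (dF0 S hc)).map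
    (fun a => spl a.1.1.1 a.1.1.2 a.1.2 a.2)

end

end Pool.Agent.Q27.LT
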