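import Pool.Agent.Q27.LT.Cuts

/-!
# The change of the heights
-/

namespace Pool.Agent.Q27.LT

open FreeGroup

section
variable {ι Pl C : Type} [Inhabited Pl] [Finite Pl] [Finite C] {L : ι → List (ℕ × Pl)}
  {Y : ι → ℕ → C}

/-- scan of the visits from the right, with the value at the visit -/
theorem DL.scanR' {Q : Type} [Finite Q] (h : DL L Y) (q0 : Q)
    (f : Q → C → Q) (ρ : ι → ℕ → Q) (h0 : ∀ s, ρ s (L s).length = q0)
    (h1 : ∀ s, ∀ i < (L s).length, ρ s i = f (ρ s (i + 1)) (Y s i)) : DL L ρ :=
  ((h.scanR q0 f ρ h0 h1).map₂ h f).congr (fun s i hi => (h1 s i hi).symm)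

/-- not the last visit -/
theorem DL.notLast (h : DL L Y) : DL L (fun s i => decide (i + 1 < (L s).length)) := by
  refine ((h.map (fun _ => true)).next false).congr (fun s i _ => ?_)
  by_cases h : i + 1 < (L s).length <;> simp [h]

/-- not one of the last two visits -/
theorem DL.notLast2 (h : DL L Y) : DL L (fun s i => decide (i + 2 < (L s).length)) := by
  refine ((h.notLast).next false).congr (fun s i _ => ?_)
  by_cases h : i + 1 < (L s).length
  · simp only [h, if_true]
  · have : ¬ (i + 2 < (L s).length) := by omega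
    simp [h, this]

end

/-- the visit before the last one -/
noncomputable def u3 (d : D) (s : St) : Vs :=
  open Classical in if Up d s then ((mv d s).2, some (iv d), false, false) else en s.2

noncomputable def u4 (d : D) (s : St) : Vs :=
  open Classical in if Up d s then en (mv d s).2 else (s.2, some d, false, false)

theorem W3_eq (d : D) (X : St → List Vs) (s : St) : W3 d X s = X s ++ [u3 d s, en s.2] := by
  unfold W3 u3
  split_ifs <;> rfl

theorem W4_eq (d : D) (X : St → List Vs) (s : St) : W4 d X s = X s ++ [u4 d s, en (mv d s).2] := by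
  unfold W4 u4
  split_ifs <;> rfl

theorem u34 (d : D) (s : St) : (u4 d s).1 = (u3 d s).1 := by
  unfold u3 u4
  split_ifs <;> rfl

theorem gx_two {B : Type} [Inhabited B] (X : List B) (u v : B) (i : ℕ) :
    gx (X ++ [u, v]) i = if h : i < X.length then X[i] else if i = X.length then u else v := by
  by_cases h1 : i < X.length
  · rw [dif_pos h1, gx_append_left h1]
  · rw [dif_neg h1, gx_append_right (by omega) (by simp)]
    by_cases h2 : i = X.length
    · rw [if_pos h2, h2, Nat.sub_self, gx_lt (by simp)]; rfl
    · rw [if_neg h2, gx_ge (by simp; omega), gx_lt (by simp)]; rfl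

theorem gx_34 (d : D) (X : St → List Vs) (s : St) (i : ℕ) (hi : i ≤ (X s).length) :
    (gx (W4 d X s) i).1 = (gx (W3 d X s) i).1 := by
  rw [W3_eq, W4_eq, gx_two, gx_two]
  split_ifs with h1 h2
  · rfl
  · exact u34 d s
  · omega

theorem gx_34' (d : D) (X : St → List Vs) (s : St) (i : ℕ) (hi : i < (X s).length) :
    (gx (W4 d X s) i) = (gx (W3 d X s) i) := by
  rw [W3_eq, W4_eq, gx_two, gx_two, dif_pos hi, dif_pos hi]

theorem gx_3 (d : D) (X : St → List Vs) (s : St) (i : ℕ) (hi : (X s).length < i) :
    gx (W3 d X s) i = en s.2 := by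
  rw [W3_eq, gx_two, dif_neg (by omega), if_neg (by omega)]

theorem gx_4 (d : D) (X : St → List Vs) (s : St) (i : ℕ) (hi : (X s).length < i) :
    gx (W4 d X s) i = en (mv d s).2 := by
  rw [W4_eq, gx_two, dif_neg (by omega), if_neg (by omega)]

theorem mv_inv (d : D) (s : St) (x : FG) :
    (mv d s).2⁻¹ * x = (gl (some d))⁻¹ * (s.2⁻¹ * x) := by
  show (s.2 * gl (some d))⁻¹ * x = _
  group

/-- **The change of the heights.** -/
theorem turn_rl (d : D) (X : St → List Vs) (h3 : ∀ s, Ch (W3 d X s)) (h4 : ∀ s, Ch (W4 d X s)) :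
    RL (fun s => dec (con d s) ((W3 d X s).map (ent s.2)))
      (fun s => dec (con d s) ((W4 d X s).map (ent (mv d s).2))) := by
  classical
  have n3 : ∀ s, W3 d X s ≠ [] := fun s => by rw [W3_eq]; simp
  have n4 : ∀ s, W4 d X s ≠ [] := fun s => by rw [W4_eq]; simp
  have g3 : ∀ s, Good ((W3 d X s).map (ent s.2)) := fun s =>
    good_of_ch (n3 s) (h3 s) (by simp [W3_eq, en])
  have g4 : ∀ s, Good ((W4 d X s).map (ent (mv d s).2)) := fun s =>
    good_of_ch (n4 s) (h4 s) (by simp [W4_eq, en])
  have l3 : ∀ s, (W3 d X s).length = (X s).length + 2 := fun s => by rw [W3_eq]; simp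
  have l4 : ∀ s, (W4 d X s).length = (X s).length + 2 := fun s => by rw [W4_eq]; simp
  have e3 : ∀ s i, hh ((W3 d X s).map (ent s.2)) i = FreeGroup.norm (s.2⁻¹ * (gx (W3 d X s) i).1) := by
    intro s i; unfold hh; rw [gx_map (n3 s)]; rfl
  have e4 : ∀ s i, hh ((W4 d X s).map (ent (mv d s).2)) i =
      FreeGroup.norm ((mv d s).2⁻¹ * (gx (W4 d X s) i).1) := by
    intro s i; unfold hh; rw [gx_map (n4 s)]; rfl
  have q3 : ∀ s i, pp ((W3 d X s).map (ent s.2)) i = (gx (W3 d X s) i).2 := by
    intro s i; unfold pp; rw [gx_map (n3 s)]; rfl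
  have q4 : ∀ s i, pp ((W4 d X s).map (ent (mv d s).2)) i = (gx (W4 d X s) i).2 := by
    intro s i; unfold pp; rw [gx_map (n4 s)]; rfl
  have all := dl_all (κ := con d) g3
  have res : DL (fun s => dec (con d s) ((W3 d X s).map (ent s.2)))
      (fun s i => Fin.ofNat 3 (hh ((W3 d X s).map (ent s.2)) i)) :=
    (dl_res _).congr (fun s i _ => by rw [hh_dec (g3 s).ne i])
  have hz : ∀ s i, (hh ((W3 d X s).map (ent s.2)) i = 0 ↔ (gx (W3 d X s) i).1 = s.2) := by
    intro s i
    rw [e3, FreeGroup.norm_eq_zero, inv_mul_eq_one]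
    exact eq_comm
  -- the direction
  have dr := all.scanR' (false, (none : Option D))
    (fun q y => if y.1 then (true, none) else (false, if q.1 then y.2.1.1.map iv else q.2))
    (fun s i => if i < (W3 d X s).length then
      (decide (hh ((W3 d X s).map (ent s.2)) i = 0), dir s.2 (W3 d X s) i) else (false, none)) ?_ ?_
  · refine RL.upd (fun s => (g3 s).dec) (fun s => (g4 s).dec) (fun s => ?_) (fun s i => ?_) ?_ ?_
    · simp [l3, l4]
    · rw [hh_dec (g3 s).ne, hh_dec (g4 s).ne, e3, e4]
      by_cases hi : i ≤ (X s).length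
      · rw [gx_34 d X s i hi, mv_inv, norm_letter_mul]
        split_ifs <;> omega
      · rw [gx_3 d X s i (by omega), gx_4 d X s i (by omega)]
        simp [en]
    · refine ((all.notLast.pair res).map₂ dr (fun a b => if a.1 then nres d a.2 b.2 else 0)).congr
        (fun s i hi => ?_)
      rw [hh_dec (g4 s).ne, e4]
      simp only [dec_length, List.length_map] at hi ⊢
      rw [if_pos hi]
      rw [l3] at hi ⊢
      by_cases h5 : i + 1 < (X s).length + 2
      · simp only [h5, decide_true, if_true]
        rw [gx_34 d X s i (by omega), mv_inv, nres_eq, e3]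
        rfl
      · simp only [h5, decide_false, Bool.false_eq_true, if_false]
        rw [gx_4 d X s i (by omega)]
        simp [en]
    · refine ((all.notLast.pair all.notLast2).map₂ all (fun a b => ((if a.2 then b.2.1 else
        (if a.1 then ((if b.2.2.2.1 then none else some d), false, false) else
          (none, false, false))), b.2.2))).congr (fun s i hi => ?_)
      rw [pp_dec (g4 s).ne, q4]
      simp only [dec_length, List.length_map, l3] at hi ⊢
      congr 1
      by_cases h5 : i + 2 < (X s).length + 2
      · simp only [h5, decide_true, if_true]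
        rw [q3, gx_34' d X s i (by omega)]
      · simp only [h5, decide_false, Bool.false_eq_true, if_false]
        by_cases h6 : i + 1 < (X s).length + 2
        · simp only [h6, decide_true, if_true]
          rw [W4_eq, gx_two, dif_neg (show ¬ i < (X s).length by omega),
            if_pos (show i = (X s).length by omega)]
          unfold u4 con
          by_cases h7 : Up d s
          · simp [h7, en]
          · simp [h7]
        · simp only [h6, decide_false, Bool.false_eq_true, if_false]
          rw [gx_4 d X s i (by omega)]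
          rfl
  · intro s; simp
  · intro s i hi
    simp only [dec_length, List.length_map] at hi
    rw [if_pos hi]
    by_cases h5 : i + 1 < (W3 d X s).length
    · rw [if_pos h5]
      simp only
      rw [dir_step (h3 s) h5]
      by_cases h6 : (gx (W3 d X s) i).1 = s.2
      · have := (hz s i).2 h6
        simp [this, h6]
      · have h7 : ¬ (hh ((W3 d X s).map (ent s.2)) i = 0) := fun h => h6 ((hz s i).1 h)
        simp only [h7, decide_false, Bool.false_eq_true, if_false, h6, q3]
        by_cases h8 : (gx (W3 d X s) (i + 1)).1 = s.2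
        · have := (hz s (i + 1)).2 h8
          simp [this, h8]
        · have h9 : ¬ (hh ((W3 d X s).map (ent s.2)) (i + 1) = 0) := fun h => h8 ((hz s (i + 1)).1 h)
          simp [h9, h8]
    · rw [if_neg h5]
      rw [l3] at hi h5
      have h6 : gx (W3 d X s) i = en s.2 := gx_3 d X s i (by omega)
      have h7 : hh ((W3 d X s).map (ent s.2)) i = 0 := by rw [hz, h6]; rfl
      have h8 : dir s.2 (W3 d X s) i = none := by unfold dir; rw [h6]; simp [en]
      simp [h7, h8]

end Pool.Agent.Q27.LT
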