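import Pool.Agent.Q27.LT.Tracks

/-!
# The update of the code
-/

namespace Pool.Agent.Q27.LT

section

variable {ι : Type} {N : ι → ℕ} {h h' : ι → ℕ → ℕ} {A : Type} [Finite A] {X : ι → ℕ → A}

variable (S : Step N h h') (hc : Der N X (fun s => code (h s)))
  (hr : Der N X (fun s j => Fin.ofNat 3 (h' s j)))

/-- the data that determine the new difference -/
abbrev KT := ((((Bool × Fin 5) × (Fin 3 × Bool)) × (Fin 3 × Fin 3)) × (Bool × Fin 4)) × Fin 3

def kD (k : KT) : ℤ := Δf k.1.1.1.1.1 k.1.1.1.1.2 k.1.1.1.2.1 k.1.1.1.2.2 k.1.1.2.1 k.1.1.2.2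

include S hc hr

/-- the track of the data -/
def kt (h h' : ℕ → ℕ) (j : ℕ) : KT :=
  (((((decide (bn h j = 1), qt h j), (df (h (bst h j)) (h' (bst h j)),
    decide (z (bn h j) (h (bst h j)) = 0))),
    (df (h (HS h h' j)) (h' (HS h h' j)), df (h (HD h j)) (h (HS h h' j)))),
    (sg h j, Fin.ofNat 4 (min (ee (h (HD h j)) (h (bst h j))) 3))),
    κ0 (decide (bn h j = 1)) (qt h j) (df (h (bst h j)) (h' (bst h j))) (tp h j))

theorem dKt : Der N X (fun s => kt (h s) (h' s)) :=
  (((((dOne S hc).pair (dQt S hc)).pair ((dDst S hc hr).pair (dF0 S hc))).pair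
    ((dD2 S hc hr).pair (dD3 S hc hr))).pair ((dSg S hc).pair (dE3 S hc))).pair (dK S hc hr)

omit hc hr in
theorem kD_eq (s : ι) (j : ℕ) :
    (h' s (HS (h s) (h' s) j) : ℤ) - rf (h s) (h' s) j =
      (h s (HD (h s) j) : ℤ) - h s (bst (h s) j) + kD (kt (h s) (h' s) j) := by
  have h1 := S.lt5 s j
  have h3 := S.par s j
  exact Δf_eq (bn_pos (h s) j) h3.2 h1.1 (S.near s (bst (h s) j)) (near_HS S s j)
    (S.near s (HS (h s) (h' s) j))

theorem dSgs : Der N X (fun s j => decide (h' s (HS (h s) (h' s) j) < rf (h s) (h' s) j)) := by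
  refine ((dKt S hc hr).map (fun k => sgn k.1.2.1 k.1.2.2 (kD k))).congr (fun s j hj => ?_)
  have h1 := e_step (Δf_abs _ _ _ _ _ _) (kD_eq S s j)
  exact h1.1

/-- base pointer for the new difference mark -/
def PB (h h' : ℕ → ℕ) (j : ℕ) : ℕ :=
  if Fin.ofNat 4 (min (ee (h (HD h j)) (h (bst h j))) 3) = 3 then PW h j else HS h h' j

omit hc hr in
theorem ptr_PB : IsPtr N (fun s => bst (h s)) (fun s => ben (h s)) (fun s => PB (h s) (h' s)) := by
  have a := ptr_PW (N := N) S.t
  have b := ptr_HS (N := N) (h' := h') S.t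
  have c := ptr_HD (N := N) S.t
  refine ⟨fun s j hj => ?_, fun s j hj => ?_, fun s j hj i h1 h2 => ?_⟩
  · have := a.le s j hj
    have := b.le s j hj
    simp only [PB]; split_ifs <;> assumption
  · have := a.lt s j hj
    have := b.lt s j hj
    simp only [PB]; split_ifs <;> assumption
  · have e1 := a.cst s j hj i h1 h2
    have e2 := b.cst s j hj i h1 h2
    have e3 := c.cst s j hj i h1 h2
    have e4 := bst_bst (S.t s) h1 h2
    simp only [PB, e1, e2, e3, e4.1]

theorem dPB : Der N X (mark (fun s => PB (h s) (h' s))) := by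
  refine (((dE3 S hc).pair ((dPW hc).pair (dHS S hc hr))).map
    (fun a => if a.1 = 3 then a.2.1 else a.2.2)).congr (fun s j hj => ?_)
  simp only [mark, PB]
  split_ifs <;> rfl

theorem dPS : Der N X (mark (fun s => PS (h s) (h' s))) := by
  refine S.bs.moveBy (ptr_PB S) (ptr_PS S.t S.t' S.near) (dSt hc) (dPB S hc hr)
    (fun k : KT => vn k.1.2.1 k.1.2.2 (kD k) (vl k.2)) (dKt S hc hr) (fun s j hj => ?_)
  have h1 := (e_step (Δf_abs _ _ _ _ _ _) (kD_eq S s j)).2 (vl (kt (h s) (h' s) j).2)
  have h2 : (vn (kt (h s) (h' s) j).1.2.1 (kt (h s) (h' s) j).1.2.2 (kD (kt (h s) (h' s) j))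
      (vl (kt (h s) (h' s) j).2)) = _ := h1
  rw [h2]
  have h4 : ∀ k : Fin 3, k = 0 ∨ k = 1 ∨ k = 2 := by decide
  have h5 := kstep S s j
  simp only [PB]
  have hk : (HS (h s) (h' s) j : ℤ) = HD (h s) j + vl (kt (h s) (h' s) j).2 := by
    rcases h4 (kt (h s) (h' s) j).2 with e | e | e
    · have := h5.1 e; rw [e]; simp [vl]; omega
    · have := h5.2.1 e; rw [e]; simp [vl]; omega
    · have := h5.2.2 e; rw [e]; simp [vl]; omega
  split_ifs with e
  · simp only [PS, PW]; push_cast; omega
  · simp only [PS]; push_cast; omega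

end

/-! ### events -/

/-- the parity label of a position -/
def beta (j : ℕ) : Bool :=
  if h : j = 0 then false else if j % 2 = 0 then beta (j / 2) else decide ((j / 2) % 2 = 1)
termination_by j
decreasing_by omega

theorem beta_pow (l c : ℕ) : beta (2 ^ l * (2 * c + 1)) = decide (c % 2 = 1) := by
  induction l with
  | zero =>
    rw [beta, pow_zero, one_mul, dif_neg (by omega), if_neg (by omega)]
    congr 2; omega
  | succ l ih =>
    have e : 2 ^ (l + 1) * (2 * c + 1) = 2 * (2 ^ l * (2 * c + 1)) := by rw [pow_succ]; ring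
    have hp : 1 ≤ 2 ^ l := Nat.one_le_two_pow
    have hp2 : 1 ≤ 2 ^ l * (2 * c + 1) := Nat.mul_pos hp (by omega)
    rw [e, beta, dif_neg (by omega), if_pos (by omega),
      Nat.mul_div_cancel_left _ (by norm_num), ih]

theorem beta_eq {h : ℕ → ℕ} {a n : ℕ} (b : IsBl h a n) (h1 : a % (2 * n) = n) :
    beta a = decide (((a - n) / (2 * n)) % 2 = 1) := by
  obtain ⟨l, hl⟩ := b.pow
  have hp := b.pos
  have h2 := Nat.div_add_mod a (2 * n)
  have e : a = 2 ^ l * (2 * (a / (2 * n)) + 1) := by
    rw [← hl]
    calc a = 2 * n * (a / (2 * n)) + n := by omega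
      _ = n * (2 * (a / (2 * n)) + 1) := by ring
  have e2 : (a - n) / (2 * n) = a / (2 * n) := by
    have : a - n = 2 * n * (a / (2 * n)) := by omega
    rw [this, Nat.mul_div_cancel_left _ (by omega)]
  rw [e2]
  conv_lhs => rw [e]
  exact beta_pow l _

/-- the block is the left half of a new block -/
def me (p : Bool) (q : Fin 5) (d : Fin 3) (f0 : Bool) : Bool :=
  !p && decide (q = 3) && f0 && decide (d = 1)

theorem me_iff {h h' : ℕ → ℕ} (t : Tame h) (hn : Near h h') {a n : ℕ} (b : IsBl h a n) :
    me (decide ((a / n) % 2 = 1)) (Fin.ofNat 5 (h a / n)) (df (h a) (h' a))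
      (decide (z n (h a) = 0)) = true ↔ a % (2 * n) = 0 ∧ 4 * n ≤ h' a := by
  have hp := b.pos
  have h5 := b.lt5 t
  obtain ⟨q, r, hq, hr, hxe, hqe⟩ := quot hp h5
  have hz : z n (h a) = if q % 2 = 0 then r else n - 1 - r := by rw [hxe]; exact z_mul q hr
  rw [hqe, hz]
  have hnear := hn a
  rcases b.mod_two with ⟨h1, h2⟩ | ⟨h1, h2, h3⟩
  · have h4 : h a < 4 * n := by
      rcases b.parent with ⟨-, h4⟩ | ⟨h4, -⟩
      · exact h4
      · omega
    rw [h1, h2]
    rcases df_of_near hnear with ⟨hd, hy⟩ | ⟨hd, hy⟩ | ⟨hd, hy⟩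
    · rw [hd]; simp [me]; omega
    · rw [hd]
      have e3 : (Fin.ofNat 5 q = 3) ↔ q = 3 := by interval_cases q <;> decide
      simp only [me, e3]
      interval_cases q
      · simp; omega
      · simp; omega
      · simp; omega
      · simp; omega
      · omega
    · rw [hd]; simp [me]; omega
  · rw [h1, h2]
    have : ¬ (n = 0) := by omega
    simp [me, this]

/-- the final combination -/
def fin (s0 mQ mH mP : Bool) (q : Fin 5) (p sn tn : Bool) (c : Fin 3) (β SP ME MD : Bool) :
    Cell where
  s := if SP then s0 || mH else if MD then false else s0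
  m1 := if SP then (if s0 then some 3 else if mP then some (if sn then 3 else 4) else none)
    else if ME then (if s0 then some 2 else none)
    else if MD then none else if mQ then some q else none
  mh := if SP then (if s0 then some (false, false, false)
      else if mH then some (true, false, false) else none)
    else if ME then none
    else if MD then (if s0 then some (β, decide (q = 3), false) else none)
    else if mH then some (p, sn, tn) else none
  mw := if SP then s0 || mH else if ME then false else if MD then mQ else mP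
  c := c

section
variable {h h' : ℕ → ℕ}

/-- the merge flag -/
def ME (h h' : ℕ → ℕ) (j : ℕ) : Bool :=
  me (pr h j) (qt h j) (df (h (bst h j)) (h' (bst h j)))
    (decide (z (bn h j) (h (bst h j)) = 0))

/-- the merge flag of the previous block -/
def MD (h h' : ℕ → ℕ) (j : ℕ) : Bool := if bst h j = 0 then false else ME h h' (bst h j - 1)

theorem ME_iff (t : Tame h) (hn : Near h h') (j : ℕ) :
    ME h h' j = true ↔ bst h j % (2 * bn h j) = 0 ∧ 4 * bn h j ≤ h' (bst h j) :=
  me_iff t hn (isBl h t j)

theorem MD_iff (t : Tame h) (hn : Near h h') (j : ℕ) :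
    MD h h' j = true ↔ bst h j % (2 * bn h j) = bn h j ∧ bn h j ≤ bst h j ∧
      4 * bn h j ≤ h' (bst h j - bn h j) := by
  have b := isBl h t j
  have hp := b.pos
  set a := bst h j with ha
  set n := bn h j with hn'
  unfold MD
  rw [← ha]
  by_cases h0 : a = 0
  · rw [if_pos h0]; simp; omega
  · rw [if_neg h0, ME_iff t hn]
    have b2 := isBl h t (a - 1)
    set a2 := bst h (a - 1) with ha2
    set n2 := bn h (a - 1) with hn2
    have h1 : a2 ≤ a - 1 := bst_le _ _
    have h2 : a - 1 < a2 + n2 := lt_ben h (a - 1)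
    have h3 : a2 + n2 = a := by
      by_contra hne
      have h4 := b2.eq t (show a2 ≤ a by omega) (by omega)
      have h5 := b.eq t (le_refl a) (by omega)
      omega
    constructor
    · rintro ⟨h4, h5⟩
      have b3 := merge_right t hn b2 h4 h5
      rw [h3] at b3
      have h6 := b.eq t (le_refl a) (by omega)
      have h7 := b3.eq t (le_refl a) (by have := b3.pos; omega)
      have h8 : n2 = n := by omega
      have h9 : a2 = a - n := by omega
      rw [h8, h9] at h4
      rw [h8, h9] at h5
      refine ⟨?_, by omega, h5⟩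
      have h10 := Nat.div_add_mod (a - n) (2 * n)
      have e : a = n + 2 * n * ((a - n) / (2 * n)) := by omega
      rw [e, Nat.add_mul_mod_self_left, Nat.mod_eq_of_lt (by omega)]
    · rintro ⟨h4, h5, h6⟩
      have b3 := merge_left hn b h4 h5 h6
      have h7 := b3.eq t (show a - n ≤ a - 1 by omega) (by omega)
      have h8 : n2 = n := h7.2
      have h9 : a2 = a - n := h7.1
      rw [h8, h9]
      refine ⟨?_, h6⟩
      have h10 := Nat.div_add_mod a (2 * n)
      have e : a - n = 2 * n * (a / (2 * n)) := by omega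
      rw [e, Nat.mul_mod_right]

theorem SP_iff (t : Tame h) (hn : Near h h') (j : ℕ) :
    spl (decide (bn h j = 1)) (qt h j) (df (h (bst h j)) (h' (bst h j)))
      (decide (z (bn h j) (h (bst h j)) = 0)) = true ↔ bn h j ≠ 1 ∧ h' (bst h j) < 2 * bn h j := by
  have b := isBl h t j
  exact spl_iff b.pos b.good (b.lt5 t) (hn _)

/-- the block does not change -/
theorem fin_stay (t' : Tame h') (j : ℕ)
    (b' : IsBl h' (bst h j) (bn h j)) :
    code h' j = fin (decide (bst h j = j)) (decide (Q1 h h' j = j)) (decide (HS h h' j = j))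
      (decide (PS h h' j = j)) (Fin.ofNat 5 (h' (bst h j) / bn h j)) (pr h j)
      (decide (h' (HS h h' j) < rf h h' j))
      (decide ((3 * bn h j - h' (bst h j)) % 2 = 1)) (Fin.ofNat 3 (h' j)) (beta j)
      false false false := by
  obtain ⟨e1, e2⟩ := b'.eq t' (bst_le h j) (lt_ben h j)
  have e3 : HD h' j = HS h h' j := by unfold HD HS; rw [e1, e2]
  have e4 : P1 h' j = Q1 h h' j := by unfold P1 Q1; rw [e1, e2]
  have e5 : rf h h' j = h' (bst h j) := by
    unfold rf
    rcases b'.good with h1 | h1
    · rw [if_pos h1]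
    · by_cases h2 : bn h j = 1
      · rw [if_pos h2]
      · rw [if_neg h2, max_eq_left h1]
  have e6 : PW h' j = PS h h' j := by unfold PW PS; rw [e3, e5, e1]
  have e7 : pr h' j = pr h j := by unfold pr; rw [e1, e2]
  unfold code fin
  rw [e3, e4, e5, e6, e7, e1]
  unfold sg qt tp
  rw [e1, e2, e3]
  simp

/-- the block is split -/
theorem fin_split (t : Tame h) (t' : Tame h') (hn : Near h h') (j : ℕ)
    (h1 : bn h j ≠ 1) (h2 : h' (bst h j) < 2 * bn h j) :
    code h' j = fin (decide (bst h j = j)) (decide (Q1 h h' j = j)) (decide (HS h h' j = j))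
      (decide (PS h h' j = j)) (Fin.ofNat 5 (h' (bst h j) / bn h j)) (pr h j)
      (decide (h' (HS h h' j) < rf h h' j))
      (decide ((3 * bn h j - h' (bst h j)) % 2 = 1)) (Fin.ofNat 3 (h' j)) (beta j)
      true false false := by
  have b := isBl h t j
  have hlt := lt_ben h j
  have hle := bst_le h j
  unfold ben at hlt
  obtain ⟨m, hm, -⟩ : ∃ m, bn h j = 2 * m ∧ ∃ l, m = 2 ^ l := by
    rcases b.cases with h3 | h3
    · exact absurd h3 h1
    · exact h3
  unfold Q1 PS HS rf
  rw [if_neg h1]
  rw [hm] at b h2 hlt ⊢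
  set a := bst h j with ha
  have hmp : 1 ≤ m := by have := b.pos; omega
  obtain ⟨h3, bl⟩ := b.split_left hn (by omega)
  have br := b.split_right t' hn (by omega)
  have hk : kk (2 * m) (h' a) = m := by unfold kk; omega
  rw [hk, max_eq_right (by omega)]
  have hsl := t'.lip a (a + m) (by omega)
  have hev := b.even (by omega)
  have e0 : (a + m) / 2 - a / 2 = m / 2 := by omega
  rw [e0] at hsl
  obtain ⟨c, hc⟩ := b.dvd
  by_cases hj : j < a + m
  · obtain ⟨e1, e2⟩ := bl.eq t' hle hj
    have z1 : z m (4 * m - 1) = 0 := by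
      have : 4 * m - 1 = m * 3 + (m - 1) := by omega
      rw [this, z_mul 3 (by omega)]; simp
    have q1 : (4 * m - 1) / m = 3 := by
      have : 4 * m - 1 = m * 3 + (m - 1) := by omega
      rw [this, (dm 3 (by omega)).1]
    have k1 : kk m (4 * m - 1) = 0 := by unfold kk; omega
    have p1 : a / m = 2 * c := by
      rw [hc, show 2 * m * c = m * (2 * c) by ring, Nat.mul_div_cancel_left _ hmp]
    have hHD : HD h' j = a := by unfold HD; rw [e1, e2, h3, k1, Nat.add_zero]
    have hPW : PW h' j = a := by unfold PW; rw [hHD, e1]; simp [ee]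
    have hP1 : P1 h' j = a := by unfold P1; rw [e1, e2, h3, z1, Nat.add_zero]
    have hq : qt h' j = 3 := by unfold qt; rw [e1, e2, h3, q1]; rfl
    have hp : pr h' j = false := by unfold pr; rw [e1, e2, p1]; simp
    have hs : sg h' j = false := by unfold sg; rw [hHD, e1]; simp
    have ht : tp h' j = false := by unfold tp; rw [e1, e2, h3]; simp; omega
    unfold code fin
    rw [hP1, hHD, hPW, hq, hp, hs, ht, e1]
    have g1 : ¬ (a + m = j) := by omega
    have g2 : ¬ (a + m + ee (h' (a + m)) (2 * (2 * m)) = j) := by omega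
    simp only [g1, g2, decide_false, Bool.or_false, if_true, Bool.false_eq_true, if_false,
      decide_eq_true_eq]
  · obtain ⟨e1, e2⟩ := br.eq t' (by omega : a + m ≤ j) (by omega)
    set v := h' (a + m) with hv
    have k1 : kk m v = 0 := by unfold kk; omega
    have p1 : (a + m) / m = 2 * c + 1 := by
      rw [hc, show 2 * m * c + m = m * (2 * c + 1) by ring, Nat.mul_div_cancel_left _ hmp]
    have hHD : HD h' j = a + m := by unfold HD; rw [e1, e2, ← hv, k1, Nat.add_zero]
    have hPW : PW h' j = a + m := by unfold PW; rw [hHD, e1]; simp [ee]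
    have z1 : z m v = ee v (2 * (2 * m)) ∧ Fin.ofNat 5 (v / m) =
        if v < 2 * (2 * m) then (3 : Fin 5) else 4 := by
      by_cases hv4 : v < 4 * m
      · have e : v = m * 3 + (v - 3 * m) := by omega
        have r1 : v - 3 * m < m := by omega
        constructor
        · rw [e, z_mul 3 r1, ← e]; unfold ee; norm_num; split_ifs <;> omega
        · rw [e, (dm 3 r1).1, ← e, if_pos (by omega)]; rfl
      · have e : v = m * 4 + (v - 4 * m) := by omega
        have r1 : v - 4 * m < m := by omega
        constructor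
        · rw [e, z_mul 4 r1, ← e]; unfold ee; norm_num; split_ifs <;> omega
        · rw [e, (dm 4 r1).1, ← e, if_neg (by omega)]; rfl
    have hP1 : P1 h' j = a + m + ee v (2 * (2 * m)) := by
      unfold P1; rw [e1, e2, ← hv, z1.1]
    have hq : qt h' j = if v < 2 * (2 * m) then (3 : Fin 5) else 4 := by
      unfold qt; rw [e1, e2, ← hv, z1.2]
    have hp : pr h' j = true := by unfold pr; rw [e1, e2, p1]; simp
    have hs : sg h' j = false := by unfold sg; rw [hHD, e1]; simp
    have ht : tp h' j = false := by unfold tp; rw [e1, e2, ← hv]; simp; omega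
    unfold code fin
    rw [hP1, hHD, hPW, hq, hp, hs, ht, e1]
    have g1 : ¬ (a = j) := by omega
    simp only [g1, decide_false, Bool.false_or, if_true, Bool.false_eq_true, if_false,
      decide_eq_true_eq]

/-- the block is merged with its right sibling -/
theorem fin_left (t : Tame h) (t' : Tame h') (hn : Near h h') (j : ℕ)
    (h1 : bst h j % (2 * bn h j) = 0) (h2 : 4 * bn h j ≤ h' (bst h j)) :
    code h' j = fin (decide (bst h j = j)) (decide (Q1 h h' j = j)) (decide (HS h h' j = j))
      (decide (PS h h' j = j)) (Fin.ofNat 5 (h' (bst h j) / bn h j)) (pr h j)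
      (decide (h' (HS h h' j) < rf h h' j))
      (decide ((3 * bn h j - h' (bst h j)) % 2 = 1)) (Fin.ofNat 3 (h' j)) (beta j)
      false true false := by
  have b := isBl h t j
  have hlt := lt_ben h j
  have hle := bst_le h j
  unfold ben at hlt
  set a := bst h j with ha
  set n := bn h j with hn'
  have hp := b.pos
  obtain ⟨h3, h4, b'⟩ := merge t' hn b h1 h2
  obtain ⟨e1, e2⟩ := b'.eq t' hle (by omega)
  have z1 : z (2 * n) (4 * n) = 0 := by
    have : 4 * n = 2 * n * 2 + 0 := by ring
    rw [this, z_mul 2 (by omega)]; simp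
  have q1 : 4 * n / (2 * n) = 2 := by
    have : 4 * n = 2 * n * 2 + 0 := by ring
    rw [this, (dm 2 (by omega)).1]
  have k1 : kk (2 * n) (4 * n) = n := by unfold kk; omega
  have hHD : HD h' j = a + n := by unfold HD; rw [e1, e2, h3, k1]
  have hPW : PW h' j = a + n + ee (h' (a + n)) (4 * n) := by unfold PW; rw [hHD, e1, h3]
  have hP1 : P1 h' j = a := by unfold P1; rw [e1, e2, h3, z1, Nat.add_zero]
  have hq : qt h' j = 2 := by unfold qt; rw [e1, e2, h3, q1]; rfl
  unfold code fin
  rw [hP1, hHD, hPW, hq, e1]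
  have g1 : ¬ (a + n = j) := by omega
  have g2 : ¬ (a + n + ee (h' (a + n)) (4 * n) = j) := by omega
  simp only [g1, g2, decide_false, if_true, Bool.false_eq_true, if_false, decide_eq_true_eq]

/-- the block is merged with its left sibling -/
theorem fin_right (t : Tame h) (t' : Tame h') (hn : Near h h') (j : ℕ)
    (h0 : bst h j % (2 * bn h j) = bn h j) (h1 : bn h j ≤ bst h j)
    (h2 : 4 * bn h j ≤ h' (bst h j - bn h j)) :
    code h' j = fin (decide (bst h j = j)) (decide (Q1 h h' j = j)) (decide (HS h h' j = j))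
      (decide (PS h h' j = j)) (Fin.ofNat 5 (h' (bst h j) / bn h j)) (pr h j)
      (decide (h' (HS h h' j) < rf h h' j))
      (decide ((3 * bn h j - h' (bst h j)) % 2 = 1)) (Fin.ofNat 3 (h' j)) (beta j)
      false false true := by
  have b := isBl h t j
  have hlt := lt_ben h j
  have hle := bst_le h j
  have hbeta : beta (bst h j) = decide (((bst h j - bn h j) / (2 * bn h j)) % 2 = 1) :=
    beta_eq b h0
  unfold ben at hlt
  unfold Q1
  set a := bst h j with ha
  set n := bn h j with hn'
  have hp := b.pos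
  have bl := merge_left hn b h0 h1 h2
  have h5 : (a - n) % (2 * n) = 0 := by
    have h10 := Nat.div_add_mod a (2 * n)
    have e : a - n = 2 * n * (a / (2 * n)) := by omega
    rw [e, Nat.mul_mod_right]
  obtain ⟨h3, h4, b'⟩ := merge t' hn bl h5 h2
  obtain ⟨e1, e2⟩ := b'.eq t' (show a - n ≤ j by omega) (by omega)
  have z1 : z (2 * n) (4 * n) = 0 := by
    have : 4 * n = 2 * n * 2 + 0 := by ring
    rw [this, z_mul 2 (by omega)]; simp
  have k1 : kk (2 * n) (4 * n) = n := by unfold kk; omega
  have hsl := t'.lip (a - n) a (by omega)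
  have hsl2 : h' a ≤ 4 * n + n / 2 ∧ 4 * n ≤ h' a + n / 2 := by
    rw [h3] at hsl
    by_cases hn1 : n = 1
    · have : a % 2 = 1 := by rw [hn1] at h0; simpa using h0
      have : a / 2 - (a - n) / 2 = 0 := by omega
      omega
    · have := b.even hn1
      have : a / 2 - (a - n) / 2 = n / 2 := by omega
      omega
  have z2 : z n (h' a) = ee (h' a) (4 * n) ∧ (Fin.ofNat 5 (h' a / n) = 3 ↔ h' a < 4 * n) := by
    by_cases hv4 : h' a < 4 * n
    · have e : h' a = n * 3 + (h' a - 3 * n) := by omega
      have r1 : h' a - 3 * n < n := by omega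
      constructor
      · rw [e, z_mul 3 r1, ← e]; unfold ee; norm_num; split_ifs <;> omega
      · rw [e, (dm 3 r1).1, ← e]; simp [hv4]
    · have e : h' a = n * 4 + (h' a - 4 * n) := by omega
      have r1 : h' a - 4 * n < n := by omega
      constructor
      · rw [e, z_mul 4 r1, ← e]; unfold ee; norm_num; omega
      · rw [e, (dm 4 r1).1, ← e]; simp [hv4]
  have hHD : HD h' j = a := by unfold HD; rw [e1, e2, h3, k1]; omega
  have hPW : PW h' j = a + z n (h' a) := by unfold PW; rw [hHD, e1, h3, z2.1]
  have hP1 : P1 h' j = a - n := by unfold P1; rw [e1, e2, h3, z1, Nat.add_zero]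
  have hp' : pr h' j = beta a := by unfold pr; rw [e1, e2, hbeta]
  have hs : sg h' j = decide (Fin.ofNat 5 (h' a / n) = 3) := by
    unfold sg; rw [hHD, e1, h3]; congr 1; exact propext z2.2.symm
  have ht : tp h' j = false := by unfold tp; rw [e1, e2, h3]; simp; omega
  unfold code fin
  rw [hP1, hHD, hPW, hp', hs, ht, e1]
  have g1 : ¬ (a - n = j) := by omega
  simp only [g1, decide_false, if_true, Bool.false_eq_true, if_false, decide_eq_true_eq]
  by_cases haj : a = j
  · rw [haj]
  · simp [haj]

theorem fin_eq (t : Tame h) (t' : Tame h') (hn : Near h h') (j : ℕ) :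
    code h' j = fin (decide (bst h j = j)) (decide (Q1 h h' j = j)) (decide (HS h h' j = j))
      (decide (PS h h' j = j)) (Fin.ofNat 5 (h' (bst h j) / bn h j)) (pr h j)
      (decide (h' (HS h h' j) < rf h h' j))
      (decide ((3 * bn h j - h' (bst h j)) % 2 = 1)) (Fin.ofNat 3 (h' j)) (beta j)
      (spl (decide (bn h j = 1)) (qt h j) (df (h (bst h j)) (h' (bst h j)))
        (decide (z (bn h j) (h (bst h j)) = 0))) (ME h h' j) (MD h h' j) := by
  have b := isBl h t j
  have hp := b.pos
  have iS := SP_iff t hn j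
  have iE := ME_iff t hn j
  have iD := MD_iff t hn j
  by_cases hS : bn h j ≠ 1 ∧ h' (bst h j) < 2 * bn h j
  · have f1 := iS.2 hS
    have f2 : ME h h' j = false := by rw [← Bool.not_eq_true, iE]; omega
    have f3 : MD h h' j = false := by
      rw [← Bool.not_eq_true, iD]
      rintro ⟨h1, h2, h3⟩
      have h4 := t'.lip (bst h j - bn h j) (bst h j) (by omega)
      have := b.even hS.1
      omega
    rw [f1, f2, f3]
    exact fin_split t t' hn j hS.1 hS.2
  · have f1 : spl (decide (bn h j = 1)) (qt h j) (df (h (bst h j)) (h' (bst h j)))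
        (decide (z (bn h j) (h (bst h j)) = 0)) = false := by
      rw [← Bool.not_eq_true, iS]; exact hS
    rw [f1]
    by_cases hE : bst h j % (2 * bn h j) = 0 ∧ 4 * bn h j ≤ h' (bst h j)
    · have f2 := iE.2 hE
      have f3 : MD h h' j = false := by rw [← Bool.not_eq_true, iD]; omega
      rw [f2, f3]
      exact fin_left t t' hn j hE.1 hE.2
    · have f2 : ME h h' j = false := by rw [← Bool.not_eq_true, iE]; exact hE
      rw [f2]
      by_cases hD : bst h j % (2 * bn h j) = bn h j ∧ bn h j ≤ bst h j ∧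
          4 * bn h j ≤ h' (bst h j - bn h j)
      · rw [iD.2 hD]
        exact fin_right t t' hn j hD.1 hD.2.1 hD.2.2
      · have f3 : MD h h' j = false := by rw [← Bool.not_eq_true, iD]; exact hD
        rw [f3]
        apply fin_stay t' j
        apply b.stay
        · omega
        · rcases b.mod_two with ⟨h1, -⟩ | ⟨h1, -, h3⟩
          · rw [h1, Nat.sub_zero]; omega
          · rw [h1]; omega

end

section

variable {ι : Type} {N : ι → ℕ} {h h' : ι → ℕ → ℕ} {A : Type} [Finite A] {X : ι → ℕ → A}

/-- **The update theorem.** -/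
theorem upd (S : Step N h h') (hc : Der N X (fun s => code (h s)))
    (hr : Der N X (fun s j => Fin.ofNat 3 (h' s j))) (hb : Der N X (fun _ j => beta j)) :
    Der N X (fun s => code (h' s)) := by
  have hME : Der N X (fun s => ME (h s) (h' s)) :=
    ((((dPr S hc).pair (dQt S hc)).pair (dDst S hc hr)).pair (dF0 S hc)).map
      (fun a => me a.1.1.1 a.1.1.2 a.1.2 a.2)
  have hMD : Der N X (fun s => MD (h s) (h' s)) := by
    refine (S.bs.broadcast S.bs.stPtr (dSt hc) (dSt hc) (hME.prev false)).congr
      (fun s j hj => ?_)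
    rfl
  have h1 := ((dSt hc).pair (dQ1 S hc hr)).pair ((dHS S hc hr).pair (dPS S hc hr))
  have h2 := ((dQs S hc hr).pair (dPr S hc)).pair ((dSgs S hc hr).pair (dTs S hc hr))
  have h3 := (hr.pair hb).pair ((dSpl S hc hr).pair (hME.pair hMD))
  refine ((h1.pair h2).pair h3).map (fun a => fin a.1.1.1.1 a.1.1.1.2 a.1.1.2.1 a.1.1.2.2
    a.1.2.1.1 a.1.2.1.2 a.1.2.2.1 a.1.2.2.2 a.2.1.1 a.2.1.2 a.2.2.1 a.2.2.2.1 a.2.2.2.2)
    |>.congr (fun s j hj => ?_)
  exact (fin_eq (S.t s) (S.t' s) (S.near s) j).symm

end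

end Pool.Agent.Q27.LT
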