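import Pool.Agent.Q27.LT.Ends

/-!
# Insertion and deletion of visits

A visit takes two cells. `H i` is the height of the visit `i`.
-/

namespace Pool.Agent.Q27.LT

/-- the heights of the cells -/
def hc (H : ℕ → ℕ) (j : ℕ) : ℕ := H (j / 2)

/-- consecutive heights differ by at most one -/
def Lip (H : ℕ → ℕ) : Prop := ∀ i, H (i + 1) ≤ H i + 1 ∧ H i ≤ H (i + 1) + 1

theorem Lip.tame {H : ℕ → ℕ} (hH : Lip H) : Tame (hc H) where
  even i := by unfold hc; congr 1; omega
  up i := by
    unfold hc
    have e1 : (2 * i + 2) / 2 = i + 1 := by omega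
    have e2 : 2 * i / 2 = i := by omega
    rw [e1, e2]; exact (hH i).1
  down i := by
    unfold hc
    have e1 : (2 * i + 2) / 2 = i + 1 := by omega
    have e2 : 2 * i / 2 = i := by omega
    rw [e1, e2]; exact (hH i).2

/-- constant from the last visit on, with a small value -/
def Fin3 {B : Type} (m : ℕ) (H : ℕ → B) : Prop := ∀ i, m ≤ i + 1 → H i = H (m - 1)

/-- conditions on the heights of `m` visits -/
structure Ok (m : ℕ) (H : ℕ → ℕ) : Prop where
  pos : 1 ≤ m
  lip : Lip H
  cst : Fin3 m H
  small : H (m - 1) ≤ 3

theorem Ok.tail {m : ℕ} {H : ℕ → ℕ} (h : Ok m H) : Tail (2 * m) (hc H) := by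
  refine ⟨by omega, ?_⟩
  unfold hc
  have := h.pos
  have e : (2 * m - 1) / 2 = m - 1 := by omega
  rw [e]; exact h.small

/-- the tape of `m` visits -/
abbrev vt {Pl : Type} (m : ℕ) (H : ℕ → ℕ) (P : ℕ → Pl) : ℕ → TS Pl := tape (2 * m) (hc H) P

section
variable {ι : Type} {N : ι → ℕ} {A B : Type} {X : ι → ℕ → A} {Y : ι → ℕ → B}

/-- two letters back -/
theorem Der.prev2 [Finite A] [Finite B] (h : Der N X Y) :
    Der N X (fun s j => if j < 2 then none else some (Y s (j - 2))) := by
  refine (((h.map some).prev none).prev none).congr (fun s j hj => ?_)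
  rcases j with _ | _ | j
  · simp
  · simp
  · simp

/-- two letters ahead -/
theorem Der.next2 [Finite A] [Finite B] (h : Der N X Y) :
    Der N X (fun s j => if j + 2 < N s then some (Y s (j + 2)) else none) := by
  refine (((h.map some).next none).next none).congr (fun s j hj => ?_)
  by_cases c : j + 2 < N s
  · have : j + 1 < N s := by omega
    simp [c, this]
  · simp [c]

end

section
variable {ι Pl Pl' : Type} [Finite Pl] [Finite Pl'] {m : ι → ℕ} {H H' : ι → ℕ → ℕ}
  {P : ι → ℕ → Pl} {P' : ι → ℕ → Pl'}

/-- update of heights and payload -/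
theorem updV (hH : ∀ s, Ok (m s) (H s)) (hH' : ∀ s, Ok (m s) (H' s))
    (near : ∀ s i, H' s i ≤ H s i + 1 ∧ H s i ≤ H' s i + 1)
    (hr : Der (fun s => 2 * m s) (fun s => vt (m s) (H s) (P s))
      (fun s j => Fin.ofNat 3 (H' s (j / 2))))
    (hP : Der (fun s => 2 * m s) (fun s => vt (m s) (H s) (P s)) (fun s j => P' s (j / 2))) :
    Der (fun s => 2 * m s) (fun s => vt (m s) (H s) (P s)) (fun s => vt (m s) (H' s) (P' s)) :=
  updTape ⟨fun s => (hH s).lip.tame, fun s => (hH' s).lip.tame, fun s j => near s (j / 2),
    fun s => (hH s).tail, fun s => (hH' s).tail⟩ hr hP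

/-- repeat the last visit if the flag is true -/
theorem appendV {φ : ι → Bool}
    (hφ : Der (fun s => 2 * m s) (fun s => vt (m s) (H s) (P s)) (fun s _ => φ s))
    (hH : ∀ s, Ok (m s) (H s)) (hP : ∀ s, Fin3 (m s) (P s)) :
    Red (fun s => 2 * m s) (fun s => vt (m s) (H s) (P s))
      (fun s => 2 * (if φ s then m s + 1 else m s))
      (fun s => vt (if φ s then m s + 1 else m s) (H s) (P s)) := by
  have h := appendIf hφ (fun s => (hH s).lip.tame) (fun s => (hH s).tail)
    (fun s => by have := (hH s).pos; omega)
    (fun s _ => by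
      have h1 := (hH s).pos
      unfold hc
      have e1 : 2 * m s / 2 = m s := by omega
      have e2 : (2 * m s - 1) / 2 = m s - 1 := by omega
      rw [e1, e2]
      exact (hH s).cst _ (by omega))
    (fun s _ => by
      have h1 := (hH s).pos
      have e1 : 2 * m s / 2 = m s := by omega
      rw [e1]
      exact (hP s) _ (by omega))
  have e : (fun s => if φ s then 2 * m s + 2 else 2 * m s) =
      (fun s => 2 * (if φ s then m s + 1 else m s)) := by
    funext s; split_ifs <;> ring
  have e' : ∀ s, (if φ s then 2 * m s + 2 else 2 * m s) = 2 * (if φ s then m s + 1 else m s) :=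
    fun s => congrFun e s
  simp only [e'] at h
  exact h

/-- remove the last visit if the flag is true -/
theorem chopV {φ : ι → Bool}
    (hφ : Der (fun s => 2 * m s) (fun s => vt (m s) (H s) (P s)) (fun s _ => φ s))
    (hm : ∀ s, 1 ≤ m s) (h2 : ∀ s, φ s = true → 2 ≤ m s) :
    Red (fun s => 2 * m s) (fun s => vt (m s) (H s) (P s))
      (fun s => 2 * (if φ s then m s - 1 else m s))
      (fun s => vt (if φ s then m s - 1 else m s) (H s) (P s)) := by
  have h := chopIf hφ (fun s => by omega) (fun s => by have := hm s; omega)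
    (fun s hs => by have := h2 s hs; omega)
  have e' : ∀ s, (if φ s then 2 * m s - 2 else 2 * m s) = 2 * (if φ s then m s - 1 else m s) := by
    intro s; split_ifs <;> omega
  simp only [e'] at h
  exact h

/-- insert the value `y` at the index `k` -/
def insAt {B : Type} (k : ℕ) (y : B) (H : ℕ → B) (i : ℕ) : B :=
  if i < k then H i else if i = k then y else H (i - 1)

/-- delete the value at the index `k` -/
def delAt {B : Type} (k : ℕ) (H : ℕ → B) (i : ℕ) : B := if i < k then H i else H (i + 1)

/-- insertion of a visit, if the flag is true -/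
theorem insertV {φ : ι → Bool} {k : ι → ℕ} {y : ι → ℕ} {π : ι → Pl}
    (hφ : Der (fun s => 2 * m s) (fun s => vt (m s) (H s) (P s)) (fun s _ => φ s))
    (hk : Der (fun s => 2 * m s) (fun s => vt (m s) (H s) (P s))
      (fun s j => decide (k s ≤ j / 2)))
    (hy : Der (fun s => 2 * m s) (fun s => vt (m s) (H s) (P s)) (fun s _ => Fin.ofNat 3 (y s)))
    (hπ : Der (fun s => 2 * m s) (fun s => vt (m s) (H s) (P s)) (fun s _ => π s))
    (hH : ∀ s, Ok (m s) (H s)) (hP : ∀ s, Fin3 (m s) (P s))
    (hkm : ∀ s, φ s = true → k s + 1 ≤ m s)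
    (hH' : ∀ s, φ s = true → Lip (insAt (k s) (y s) (H s)))
    (hy' : ∀ s, φ s = true → y s ≤ H s (k s) + 1 ∧ H s (k s) ≤ y s + 1) :
    Red (fun s => 2 * m s) (fun s => vt (m s) (H s) (P s))
      (fun s => 2 * (if φ s then m s + 1 else m s))
      (fun s => if φ s then vt (m s + 1) (insAt (k s) (y s) (H s)) (insAt (k s) (π s) (P s))
        else vt (m s) (H s) (P s)) := by
  classical
  -- payload with the data
  let k' : ι → ℕ := fun s => min (k s) (m s - 1)
  let P1 : ι → ℕ → Pl × (Bool × (Fin 3 × (Pl × Bool))) := fun s i =>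
    (P s i, decide (k' s ≤ i), Fin.ofNat 3 (y s), π s, φ s)
  have hP1 : ∀ s, Fin3 (m s) (P1 s) := by
    intro s i hi
    have h1 := hP s i hi
    have h2 := (hH s).pos
    simp only [P1, h1]
    have e1 : k' s ≤ i := by simp only [k']; omega
    have e2 : k' s ≤ m s - 1 := by simp only [k']; omega
    simp [e1, e2]
  have r0 : Der (fun s => 2 * m s) (fun s => vt (m s) (H s) (P s))
      (fun s => vt (m s) (H s) (P1 s)) := by
    have h0 := Der.refl (N := fun s => 2 * m s) (fun s => vt (m s) (H s) (P s))
    -- the mark of the last visit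
    have hl := (h0.map (fun _ => false)).next true
    have hl2 := hl.next true
    have hk2 : Der (fun s => 2 * m s) (fun s => vt (m s) (H s) (P s))
        (fun s j => decide (k' s ≤ j / 2)) := by
      refine (hk.map₂ hl2 (fun a b => a || b)).congr (fun s j hj => ?_)
      have h2 := (hH s).pos
      simp only [k']
      by_cases c1 : j + 1 < 2 * m s
      · rw [if_pos c1]
        by_cases c2 : j + 1 + 1 < 2 * m s
        · rw [if_pos c2, Bool.or_false]
          congr 1; apply propext; constructor <;> intro <;> omega
        · rw [if_neg c2, Bool.or_true]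
          symm; simp; omega
      · rw [if_neg c1, Bool.or_true]
        symm; simp; omega
    have := ((h0.map (fun a : TS Pl => (a.1, a.2.1, a.2.2.1))).pair
      ((h0.map (fun a : TS Pl => a.2.2.2)).pair (hk2.pair (hy.pair (hπ.pair hφ)))))
    exact (this.map (fun a => (a.1.1, a.1.2.1, a.1.2.2, a.2))).congr (fun s j hj => rfl)
  have h0' := Der.refl (N := fun s => 2 * m s) (fun s => vt (m s) (H s) (P1 s))
  have r1 := appendV (φ := φ) (P := P1) (h0'.map (fun a => a.2.2.2.2.2.2.2)) hH hP1
  let m' : ι → ℕ := fun s => if φ s then m s + 1 else m s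
  let H' : ι → ℕ → ℕ := fun s => if φ s then insAt (k s) (y s) (H s) else H s
  let P' : ι → ℕ → Pl := fun s => if φ s then insAt (k s) (π s) (P s) else P s
  have o1 : ∀ s, Ok (m' s) (H s) := by
    intro s
    have h1 := hH s
    have h2 := h1.pos
    by_cases hs : φ s = true
    · simp only [m', hs, if_true]
      have e := h1.cst (m s) (by omega)
      refine ⟨by omega, h1.lip, fun i hi => ?_, ?_⟩
      · rw [Nat.add_sub_cancel, h1.cst i (by omega), e]
      · rw [Nat.add_sub_cancel, e]; exact h1.small
    · simp only [m', hs]; exact h1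
  have o2 : ∀ s, Ok (m' s) (H' s) := by
    intro s
    have h1 := hH s
    have h2 := h1.pos
    by_cases hs : φ s = true
    · simp only [m', H', hs, if_true]
      have h3 := hkm s hs
      refine ⟨by omega, hH' s hs, fun i hi => ?_, ?_⟩
      · unfold insAt
        rw [if_neg (by omega), if_neg (by omega), if_neg (by omega), if_neg (by omega)]
        rw [Nat.add_sub_cancel, h1.cst _ (by omega)]
      · unfold insAt
        rw [if_neg (by omega), if_neg (by omega), Nat.add_sub_cancel]; exact h1.small
    · simp only [m', H', hs]; exact h1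
  have near : ∀ s i, H' s i ≤ H s i + 1 ∧ H s i ≤ H' s i + 1 := by
    intro s i
    by_cases hs : φ s = true
    · simp only [H', hs, if_true]
      unfold insAt
      by_cases c1 : i < k s
      · rw [if_pos c1]; omega
      · rw [if_neg c1]
        by_cases c2 : i = k s
        · rw [if_pos c2, c2]; exact hy' s hs
        · rw [if_neg c2]
          have := (hH s).lip (i - 1)
          have e : i - 1 + 1 = i := by omega
          rw [e] at this
          omega
    · simp only [H', hs]; simp
  have h0 := Der.refl (N := fun s => 2 * m' s) (fun s => vt (m' s) (H s) (P1 s))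
  have p2 := h0.prev2
  have hr : Der (fun s => 2 * m' s) (fun s => vt (m' s) (H s) (P1 s))
      (fun s j => Fin.ofNat 3 (H' s (j / 2))) := by
    refine (h0.map₂ p2 (fun a b => if a.2.2.2.2.2.2.2 then
      (if a.2.2.2.2.1 then (match b with
        | none => a.2.2.2.2.2.1
        | some b => if b.2.2.2.2.1 then b.1.c else a.2.2.2.2.2.1) else a.1.c) else a.1.c)).congr
      (fun s j hj => ?_)
    have h1 := (hH s).pos
    simp only [tape, P1, code, hc, H']
    by_cases hs : φ s = true
    · have h3 := hkm s hs
      have e1 : k' s = k s := by simp only [k']; omega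
      simp only [hs, if_true, e1, decide_eq_true_eq]
      unfold insAt
      by_cases c1 : k s ≤ j / 2
      · rw [if_pos c1, if_neg (show ¬ (j / 2 < k s) by omega)]
        by_cases c2 : j < 2
        · have c3 : j / 2 = k s := by omega
          simp [c2, c3]
        · have e3 : (j - 2) / 2 = j / 2 - 1 := by omega
          simp only [c2, if_false, e3, decide_eq_true_eq]
          by_cases c3 : j / 2 = k s
          · have c4 : ¬ (k s ≤ j / 2 - 1) := by omega
            rw [if_neg c4, if_pos c3]
          · have c4 : k s ≤ j / 2 - 1 := by omega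
            rw [if_pos c4, if_neg c3]
      · rw [if_neg c1, if_pos (show j / 2 < k s by omega)]
    · simp only [hs, if_false, Bool.false_eq_true]
  have hP' : Der (fun s => 2 * m' s) (fun s => vt (m' s) (H s) (P1 s))
      (fun s j => P' s (j / 2)) := by
    refine (h0.map₂ p2 (fun a b => if a.2.2.2.2.2.2.2 then
      (if a.2.2.2.2.1 then (match b with
        | none => a.2.2.2.2.2.2.1
        | some b => if b.2.2.2.2.1 then b.2.2.2.1 else a.2.2.2.2.2.2.1) else a.2.2.2.1)
          else a.2.2.2.1)).congr
      (fun s j hj => ?_)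
    have h1 := (hH s).pos
    simp only [tape, P1, P']
    by_cases hs : φ s = true
    · have h3 := hkm s hs
      have e1 : k' s = k s := by simp only [k']; omega
      simp only [hs, if_true, e1, decide_eq_true_eq]
      unfold insAt
      by_cases c1 : k s ≤ j / 2
      · rw [if_pos c1, if_neg (show ¬ (j / 2 < k s) by omega)]
        by_cases c2 : j < 2
        · have c3 : j / 2 = k s := by omega
          simp [c2, c3]
        · have e3 : (j - 2) / 2 = j / 2 - 1 := by omega
          simp only [c2, if_false, e3, decide_eq_true_eq]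
          by_cases c3 : j / 2 = k s
          · have c4 : ¬ (k s ≤ j / 2 - 1) := by omega
            rw [if_neg c4, if_pos c3]
          · have c4 : k s ≤ j / 2 - 1 := by omega
            rw [if_pos c4, if_neg c3]
      · rw [if_neg c1, if_pos (show j / 2 < k s by omega)]
    · simp only [hs, if_false, Bool.false_eq_true]
  have r2 := updV (m := m') (P := P1) (P' := P') o1 o2 near hr hP'
  have fin : Red (fun s => 2 * m s) (fun s => vt (m s) (H s) (P s)) (fun s => 2 * m' s)
      (fun s => vt (m' s) (H' s) (P' s)) := (r0.red.trans r1).trans r2.red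
  obtain ⟨F, hF, h1⟩ := fin
  refine ⟨F, hF, fun s => ?_⟩
  rw [h1]
  simp only [m', H', P']
  by_cases hs : φ s = true
  · simp only [hs, if_true]
  · simp only [hs, if_false, Bool.false_eq_true]

/-- deletion of a visit, if the flag is true -/
theorem deleteV {φ : ι → Bool} {k : ι → ℕ}
    (hφ : Der (fun s => 2 * m s) (fun s => vt (m s) (H s) (P s)) (fun s _ => φ s))
    (hk : Der (fun s => 2 * m s) (fun s => vt (m s) (H s) (P s))
      (fun s j => decide (k s ≤ j / 2)))
    (hH : ∀ s, Ok (m s) (H s)) (hP : ∀ s, Fin3 (m s) (P s))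
    (hkm : ∀ s, φ s = true → k s + 2 ≤ m s)
    (hH' : ∀ s, φ s = true → Lip (delAt (k s) (H s))) :
    Red (fun s => 2 * m s) (fun s => vt (m s) (H s) (P s))
      (fun s => 2 * (if φ s then m s - 1 else m s))
      (fun s => if φ s then vt (m s - 1) (delAt (k s) (H s)) (delAt (k s) (P s))
        else vt (m s) (H s) (P s)) := by
  classical
  let H' : ι → ℕ → ℕ := fun s => if φ s then delAt (k s) (H s) else H s
  let P' : ι → ℕ → Pl := fun s => if φ s then delAt (k s) (P s) else P s
  have o2 : ∀ s, Ok (m s) (H' s) := by
    intro s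
    have h1 := hH s
    have h2 := h1.pos
    by_cases hs : φ s = true
    · simp only [H', hs, if_true]
      have h3 := hkm s hs
      refine ⟨h2, hH' s hs, fun i hi => ?_, ?_⟩
      · unfold delAt
        rw [if_neg (by omega), if_neg (by omega), h1.cst _ (by omega), h1.cst (m s - 1 + 1) (by omega)]
      · unfold delAt
        rw [if_neg (by omega), h1.cst _ (by omega)]; exact h1.small
    · simp only [H', hs]; exact h1
  have near : ∀ s i, H' s i ≤ H s i + 1 ∧ H s i ≤ H' s i + 1 := by
    intro s i
    by_cases hs : φ s = true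
    · simp only [H', hs, if_true]
      unfold delAt
      by_cases c1 : i < k s
      · rw [if_pos c1]; omega
      · rw [if_neg c1]
        have := (hH s).lip i
        omega
    · simp only [H', hs]; simp
  have h0 := Der.refl (N := fun s => 2 * m s) (fun s => vt (m s) (H s) (P s))
  have p2 := h0.next2
  have hall := (h0.pair p2).pair (hk.pair hφ)
  have hr : Der (fun s => 2 * m s) (fun s => vt (m s) (H s) (P s))
      (fun s j => Fin.ofNat 3 (H' s (j / 2))) := by
    refine (hall.map (fun a => if a.2.2 then
      (if a.2.1 then (match a.1.2 with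
        | none => a.1.1.1.c
        | some b => b.1.c) else a.1.1.1.c) else a.1.1.1.c)).congr
      (fun s j hj => ?_)
    have h1 := (hH s).pos
    simp only [tape, code, hc, H']
    by_cases hs : φ s = true
    · simp only [hs, if_true, decide_eq_true_eq]
      unfold delAt
      by_cases c1 : k s ≤ j / 2
      · rw [if_pos c1, if_neg (show ¬ (j / 2 < k s) by omega)]
        by_cases c2 : j + 2 < 2 * m s
        · have e3 : (j + 2) / 2 = j / 2 + 1 := by omega
          simp only [c2, if_true, e3]
        · simp only [c2, if_false]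
          rw [(hH s).cst (j / 2) (by omega), (hH s).cst (j / 2 + 1) (by omega)]
      · rw [if_neg c1, if_pos (show j / 2 < k s by omega)]
    · simp only [hs, if_false, Bool.false_eq_true]
  have hP' : Der (fun s => 2 * m s) (fun s => vt (m s) (H s) (P s))
      (fun s j => P' s (j / 2)) := by
    refine (hall.map (fun a => if a.2.2 then
      (if a.2.1 then (match a.1.2 with
        | none => a.1.1.2.2.2
        | some b => b.2.2.2) else a.1.1.2.2.2) else a.1.1.2.2.2)).congr
      (fun s j hj => ?_)
    have h1 := (hH s).pos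
    simp only [tape, P']
    by_cases hs : φ s = true
    · simp only [hs, if_true, decide_eq_true_eq]
      unfold delAt
      by_cases c1 : k s ≤ j / 2
      · rw [if_pos c1, if_neg (show ¬ (j / 2 < k s) by omega)]
        by_cases c2 : j + 2 < 2 * m s
        · have e3 : (j + 2) / 2 = j / 2 + 1 := by omega
          simp only [c2, if_true, e3]
        · simp only [c2, if_false]
          rw [(hP s) (j / 2) (by omega), (hP s) (j / 2 + 1) (by omega)]
      · rw [if_neg c1, if_pos (show j / 2 < k s by omega)]
    · simp only [hs, if_false, Bool.false_eq_true]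
  -- carry the flag in the payload
  have hPf : Der (fun s => 2 * m s) (fun s => vt (m s) (H s) (P s))
      (fun s j => (fun i => (P' s i, φ s)) (j / 2)) := hP'.pair hφ
  have r1 := updV (m := m) (P := P) (P' := fun s i => (P' s i, φ s)) hH o2 near hr hPf
  have h0' := Der.refl (N := fun s => 2 * m s) (fun s => vt (m s) (H' s) (fun i => (P' s i, φ s)))
  have r2 := chopV (φ := φ) (m := m) (H := H') (P := fun s i => (P' s i, φ s))
    (h0'.map (fun a => a.2.2.2.2)) (fun s => (hH s).pos)
    (fun s hs => by have := hkm s hs; omega)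
  have r3 := (Der.refl (N := fun s => 2 * (if φ s then m s - 1 else m s))
    (fun s => vt (if φ s then m s - 1 else m s) (H' s) (fun i => (P' s i, φ s)))).map
    (fun a => ((a.1, a.2.1, a.2.2.1, a.2.2.2.1) : TS Pl))
  obtain ⟨F, hF, h1⟩ := (r1.red.trans r2).trans r3.red
  refine ⟨F, hF, fun s => ?_⟩
  rw [h1]
  simp only [H', P']
  by_cases hs : φ s = true
  · simp only [hs, if_true]; rfl
  · simp only [hs, if_false, Bool.false_eq_true]; rfl

end

end Pool.Agent.Q27.LT
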