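import Pool.Agent.Q27.LT.Free
import Pool.Agent.Q251.LT.Tree1
import Pool.Agent.Q285.LT.Tree3

/-!
# Walks and the lists of visits of the states of the lamplighter
-/

namespace Pool.Agent.Q27.LT

open FreeGroup

/-- letter of the next edge, contour flag, lamp -/
abbrev Pay := Option D × Bool × Bool

/-- a visit: node, letter of the next edge, contour flag, lamp -/
abbrev Vs := FG × Pay

/-- walks -/
def Ch (W : List Vs) : Prop := List.IsChain (fun v w => w.1 = v.1 * gl v.2.1) W

/-- the entry of a visit -/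
def ent (p : FG) (v : Vs) : ℕ × Pay := (FreeGroup.norm (p⁻¹ * v.1), v.2)

theorem norm_gl (x : FG) (o : Option D) : FreeGroup.norm (x * gl o) ≤ FreeGroup.norm x + 1 ∧
    FreeGroup.norm x ≤ FreeGroup.norm (x * gl o) + 1 := by
  cases o with
  | none => simp [gl]
  | some d =>
    rw [norm_mul_letter]
    split_ifs <;> omega

theorem good_of_ch {W : List Vs} {p : FG} (hne : W ≠ []) (h : Ch W) (hl : (W.getLast hne).1 = p) :
    Good (W.map (ent p)) where
  ne := by simpa using hne
  ch := by
    rw [List.isChain_map]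
    refine h.imp (fun a b hab => ?_)
    unfold ent
    simp only
    rw [hab, ← mul_assoc]
    have := norm_gl (p⁻¹ * a.1) a.2.1
    exact ⟨this.2, this.1⟩
  small := by
    rw [List.getLast_map]
    unfold ent
    simp only
    rw [hl]
    simp

/-- insertion of an equal height -/
theorem Good.insert {Pl : Type} {A B : List (ℕ × Pl)} {a b : ℕ × Pl} (h : Good (A ++ b :: B))
    (hab : a.1 = b.1) : Good (A ++ a :: b :: B) where
  ne := by simp
  ch := by
    have h1 := h.ch
    rw [List.isChain_append] at h1 ⊢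
    obtain ⟨h2, h3, h4⟩ := h1
    refine ⟨h2, ?_, ?_⟩
    · rw [List.isChain_cons_cons]
      exact ⟨by omega, h3⟩
    · intro x hx y hy
      simp only [List.head?_cons, Option.mem_def, Option.some.injEq] at hy
      subst hy
      have := h4 x hx b (by simp)
      omega
  small := by
    have e : (A ++ a :: b :: B).getLast (by simp) = (A ++ b :: B).getLast (by simp) := by
      simp
    rw [e]; exact h.small

/-- the way from the origin to the node `acc ++ π` -/
def tX : List D → List D → List Vs
  | _, [] => []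
  | acc, s :: π => (FreeGroup.mk acc, some s, false, false) :: tX (acc ++ [s]) π

theorem tX_snoc (acc π : List D) (s : D) :
    tX acc (π ++ [s]) = tX acc π ++ [(FreeGroup.mk (acc ++ π), some s, false, false)] := by
  induction π generalizing acc with
  | nil => simp [tX]
  | cons a π ih => simp [tX, ih]

theorem tX_head (acc π : List D) (v : Vs) (hv : v.1 = FreeGroup.mk (acc ++ π)) :
    ∀ y ∈ (tX acc π ++ [v]).head?, y.1 = FreeGroup.mk acc := by
  cases π with
  | nil => simp [tX]; simpa using hv
  | cons a π => simp [tX]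

theorem ch_tX (acc π : List D) (v : Vs) (hv : v.1 = FreeGroup.mk (acc ++ π)) :
    Ch (tX acc π ++ [v]) := by
  induction π generalizing acc with
  | nil => exact List.isChain_singleton _
  | cons a π ih =>
    have hv' : v.1 = FreeGroup.mk (acc ++ [a] ++ π) := by rw [hv]; simp
    show List.IsChain _ ((FreeGroup.mk acc, some a, false, false) :: (tX (acc ++ [a]) π ++ [v]))
    rw [List.isChain_cons]
    refine ⟨fun y hy => ?_, ih (acc ++ [a]) hv'⟩
    rw [tX_head _ _ _ hv' y hy, mk_snoc]

/-- the visits of the contour, with the lamps -/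
def cen (f : FG → ZMod 2) (v : List D × Option D) : Vs :=
  (FreeGroup.mk v.1, v.2, true, decide (f (FreeGroup.mk v.1) ≠ 0))

/-- the contour with the lamps -/
def cv (t : Tr) (f : FG → ZMod 2) : List Vs := (vis t [] none).map (cen f)

theorem cv_last {t : Tr} (h : t.has []) (f : FG → ZMod 2) :
    ∃ Y, cv t f = Y ++ [(1, none, true, decide (f 1 ≠ 0))] := by
  obtain ⟨Y, hY⟩ := Q285.LT.last t [] none h
  unfold cv
  rw [hY]
  exact ⟨Y.map (cen f), by simp [cen, FreeGroup.one_eq_mk]⟩

theorem ch_cv (t : Tr) (f : FG → ZMod 2) : Ch (cv t f) := by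
  unfold Ch cv
  rw [List.isChain_map]
  refine (Q285.LT.s_chain t [] none).imp (fun a b hab => ?_)
  unfold cen
  simp only
  rcases hab with ⟨s, h1, h2⟩ | ⟨s, h1, h2⟩ | ⟨h1, h2⟩
  · rw [h1, h2, mk_snoc]
  · rw [h1, h2, mk_snoc, gl_iv]; group
  · rw [h1, h2]; simp [gl]

/-- the visits of the contour and of the way to `p` -/
def Wt (t : Tr) (f : FG → ZMod 2) (π : List D) : List Vs := cv t f ++ tX [] π

theorem ch_Wt {t : Tr} (h : t.has []) (f : FG → ZMod 2) (π : List D) (v : Vs)
    (hv : v.1 = FreeGroup.mk π) : Ch (Wt t f π ++ [v]) := by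
  unfold Ch Wt
  rw [List.append_assoc, List.isChain_append]
  refine ⟨ch_cv t f, ch_tX [] π v (by simpa using hv), fun x hx y hy => ?_⟩
  rw [tX_head [] π v (by simpa using hv) y hy]
  obtain ⟨Y, hY⟩ := cv_last h f
  rw [hY] at hx
  simp at hx
  rw [← hx]
  simp [gl, FreeGroup.one_eq_mk]

/-! ### the tree of a state -/

/-- lamps and position -/
abbrev St := (FG →₀ ZMod 2) × FG

theorem exists_tree (S : Finset FG) : ∃ t : Tr, ∀ π, t.has π ↔ ∃ x ∈ S, π <+: x.toWord := by
  classical
  induction S using Finset.induction_on with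
  | empty => exact ⟨.nil, fun π => by simp [Q251.LT.not_has_nil]⟩
  | insert x S _ ih =>
    obtain ⟨t, ht⟩ := ih
    refine ⟨ins x.toWord t, fun π => ?_⟩
    rw [Q251.LT.s_ins, ht]
    simp only [Finset.mem_insert]
    constructor
    · rintro (⟨y, h1, h2⟩ | h)
      · exact ⟨y, Or.inr h1, h2⟩
      · exact ⟨x, Or.inl rfl, h⟩
    · rintro ⟨y, rfl | h1, h2⟩
      · exact Or.inr h2
      · exact Or.inl ⟨y, h1, h2⟩

theorem exists_tr (s : St) : ∃ t : Tr, ∀ π, t.has π ↔
    ∃ x : FG, (x = s.2 ∨ s.1 x ≠ 0) ∧ π <+: x.toWord := by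
  classical
  obtain ⟨t, ht⟩ := exists_tree (insert s.2 s.1.support)
  refine ⟨t, fun π => ?_⟩
  rw [ht]
  simp

/-- the tree of the prefixes of the position and of the lamps that are on -/
noncomputable def T (s : St) : Tr := (exists_tr s).choose

theorem has_T (s : St) (π : List D) : (T s).has π ↔
    ∃ x : FG, (x = s.2 ∨ s.1 x ≠ 0) ∧ π <+: x.toWord := (exists_tr s).choose_spec π

theorem T_nil (s : St) : (T s).has [] := (has_T s []).2 ⟨s.2, Or.inl rfl, List.nil_prefix⟩

theorem T_red (s : St) {π : List D} (h : (T s).has π) : IsReduced π := by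
  obtain ⟨x, -, h2⟩ := (has_T s π).1 h
  exact red_prefix (red_word x) h2

theorem T_prefix (s : St) {π ρ : List D} (h : (T s).has ρ) (hp : π <+: ρ) : (T s).has π := by
  obtain ⟨x, h1, h2⟩ := (has_T s ρ).1 h
  exact (has_T s π).2 ⟨x, h1, hp.trans h2⟩

theorem T_pos (s : St) : (T s).has s.2.toWord := (has_T s _).2 ⟨s.2, Or.inl rfl, List.prefix_refl _⟩

/-- the visits of the contour at the node `x` -/
theorem mem_cv (s : St) (f : FG → ZMod 2) (x : FG) (y : Pay) : (x, y) ∈ cv (T s) f ↔
    y.2 = (true, decide (f x ≠ 0)) ∧ (T s).has x.toWord ∧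
      ((∃ c, y.1 = some c ∧ (T s).has (x.toWord ++ [c])) ∨ y.1 = back x.toWord none) := by
  unfold cv
  rw [List.mem_map]
  constructor
  · rintro ⟨⟨π, o⟩, h1, h2⟩
    have h3 := (Q251.LT.s_mem (T s) [] π none o).1 (by simpa using h1)
    have h4 : (T s).has π := by
      rcases h3 with ⟨c, -, h⟩ | ⟨h, -⟩
      · exact T_prefix s h (List.prefix_append _ _)
      · exact h
    have h5 : x.toWord = π := by
      rw [← (Prod.mk.inj h2).1]
      exact toWord_red (T_red s h4)
    have h6 : x = FreeGroup.mk π := (Prod.mk.inj h2).1.symm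
    rw [h5, ← (Prod.mk.inj h2).2]
    refine ⟨?_, h4, ?_⟩
    · rw [h6]
    · rcases h3 with h | ⟨-, h⟩
      · exact Or.inl h
      · exact Or.inr h
  · rintro ⟨h1, h2, h3⟩
    obtain ⟨o, y2⟩ := y
    refine ⟨(x.toWord, o), ?_, ?_⟩
    · have := (Q251.LT.s_mem (T s) [] x.toWord none o).2 (by
        rcases h3 with h | h
        · exact Or.inl h
        · exact Or.inr ⟨h2, h⟩)
      simpa using this
    · unfold cen
      simp only at h1 ⊢
      rw [mk_toWord, h1]

/-! ### the state after one step -/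

/-- move by a letter -/
noncomputable def mv (d : D) (s : St) : St := (s.1, s.2 * gl (some d))

/-- one step back -/
def Up (d : D) (s : St) : Prop := s.2.toWord.getLast? = some (iv d)

theorem word_down {d : D} {s : St} (h : ¬ Up d s) : (mv d s).2.toWord = s.2.toWord ++ [d] := by
  show (s.2 * gl (some d)).toWord = _
  rw [word_mul]; exact if_neg h

theorem word_up {d : D} {s : St} (h : Up d s) : s.2.toWord = (mv d s).2.toWord ++ [iv d] := by
  have e : (mv d s).2.toWord = s.2.toWord.dropLast := by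
    show (s.2 * gl (some d)).toWord = _
    rw [word_mul]; exact if_pos h
  rw [e]
  have h0 : s.2.toWord ≠ [] := by intro e; unfold Up at h; rw [e] at h; simp at h
  unfold Up at h
  rw [List.getLast?_eq_some_getLast h0] at h
  have := List.dropLast_append_getLast h0
  rw [Option.some.inj h] at this
  exact this.symm

theorem T_down {d : D} {s : St} (h : ¬ Up d s) : T (mv d s) = ins (s.2.toWord ++ [d]) (T s) := by
  apply Q251.LT.s_ext
  intro π
  rw [Q251.LT.s_ins, has_T, has_T]
  constructor
  · rintro ⟨x, rfl | h1, h2⟩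
    · rw [word_down h] at h2; exact Or.inr h2
    · exact Or.inl ⟨x, Or.inr h1, h2⟩
  · rintro (⟨x, rfl | h1, h2⟩ | h1)
    · exact ⟨(mv d s).2, Or.inl rfl, by
        rw [word_down h]; exact h2.trans (List.prefix_append _ _)⟩
    · exact ⟨x, Or.inr h1, h2⟩
    · exact ⟨(mv d s).2, Or.inl rfl, by rw [word_down h]; exact h1⟩

theorem T_up {d : D} {s : St} (h : Up d s) :
    T s = ins ((mv d s).2.toWord ++ [iv d]) (T (mv d s)) := by
  apply Q251.LT.s_ext
  intro π
  rw [Q251.LT.s_ins, has_T, has_T, ← word_up h]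
  constructor
  · rintro ⟨x, rfl | h1, h2⟩
    · exact Or.inr h2
    · exact Or.inl ⟨x, Or.inr h1, h2⟩
  · rintro (⟨x, rfl | h1, h2⟩ | h1)
    · exact ⟨s.2, Or.inl rfl, h2.trans (by
        rw [word_up h]; exact List.prefix_append _ _)⟩
    · exact ⟨x, Or.inr h1, h2⟩
    · exact ⟨s.2, Or.inl rfl, h1⟩

theorem ins_of_has {t : Tr} {ρ : List D} (hp : ∀ π, π <+: ρ → t.has π) : ins ρ t = t := by
  apply Q251.LT.s_ext
  intro π
  rw [Q251.LT.s_ins]
  exact ⟨fun h => h.elim id (hp π), Or.inl⟩

/-- a new node has to be added -/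
def Absent (d : D) (s : St) : Prop := ¬ Up d s ∧ ¬ (T s).has (s.2.toWord ++ [d])

/-- the node `p` has to be removed -/
def Prune (d : D) (s : St) : Prop := Up d s ∧ ¬ (T (mv d s)).has s.2.toWord

/-- the tree in the middle of the step -/
noncomputable def Tm (d : D) (s : St) : Tr :=
  open Classical in if Up d s then T s else T (mv d s)

theorem T_same_down {d : D} {s : St} (h : ¬ Up d s) (h' : ¬ Absent d s) : T (mv d s) = T s := by
  have h1 : (T s).has (s.2.toWord ++ [d]) := by
    by_contra h2; exact h' ⟨h, h2⟩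
  rw [T_down h]
  exact ins_of_has (fun π hp => T_prefix s h1 hp)

theorem T_same_up {d : D} {s : St} (h : Up d s) (h' : ¬ Prune d s) : T (mv d s) = T s := by
  have h1 : (T (mv d s)).has s.2.toWord := by
    by_contra h2; exact h' ⟨h, h2⟩
  rw [T_up h]
  symm
  rw [← word_up h]
  exact ins_of_has (fun π hp => T_prefix _ h1 hp)

end Pool.Agent.Q27.LT
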